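import Mathlib

/-!
# Corner theorem, module ALG: the algebra
-/

open Filter

noncomputable section

namespace Pool.Agent.ZSp

/-- the algebraic data: a complex `D` of real vector spaces (as linear relations) with commuting
involutions `S j`, operators `e j` (multiplication by the sign of `τ_j`), cochains `g q i` and
functionals `lam q i`. -/
structure AlgData (n : ℕ) (K : ℕ → Type*) [∀ q, AddCommGroup (K q)] [∀ q, Module ℝ (K q)] where
  D : ∀ q, Submodule ℝ (K q × K (q + 1))
  S : Fin n → ∀ q, K q →ₗ[ℝ] K q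
  e : Fin n → ∀ q, K q →ₗ[ℝ] K q
  g : ∀ q, (Fin q → Fin n) → K q
  lam : ∀ q, (Fin q → Fin n) → K q →ₗ[ℝ] ℝ
  exact0 : ∀ a, (a, 0) ∈ D 0 → a = 0
  exact1 : ∀ q a, q < n → (a, 0) ∈ D (q + 1) → ∃ c, (c, a) ∈ D q
  S_invol : ∀ i q a, S i q (S i q a) = a
  S_comm : ∀ i j q a, S i q (S j q a) = S j q (S i q a)
  S_D : ∀ i q a b, (a, b) ∈ D q → (S i q a, S i (q + 1) b) ∈ D q
  e_comm : ∀ i j q a, e i q (e j q a) = e j q (e i q a)
  Se_self : ∀ i q a, S i q (e i q a) = - e i q (S i q a)
  Se_ne : ∀ i j q a, i ≠ j → S i q (e j q a) = e j q (S i q a)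
  e_D : ∀ j q a b, (a, b) ∈ D q → S j q a = - a → S j (q + 1) b = - b →
    (e j q a, e j (q + 1) b) ∈ D q
  g_anti : ∀ q (σ : Equiv.Perm (Fin q)) (i : Fin q → Fin n),
    g q (i ∘ σ) = ((Equiv.Perm.sign σ : ℤ) : ℝ) • g q i
  g_odd : ∀ q (i : Fin q → Fin n) k, k ∈ Set.range i → S k q (g q i) = - g q i
  g_even : ∀ q (i : Fin q → Fin n) k, k ∉ Set.range i → S k q (g q i) = g q i
  g_D : ∀ q (i : Fin q → Fin n),
    (g q i, ∑ j, e j (q + 1) (g (q + 1) (Fin.cons j i : Fin (q + 1) → Fin n))) ∈ D q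
  stokes : ∀ q (i : Fin (q + 1) → Fin n), Function.Injective i → ∀ h η, (h, η) ∈ D q →
    lam (q + 1) i η =
      - ∑ k : Fin (q + 1), (-1 : ℝ) ^ (k : ℕ) * lam q (k.removeNth i) (e (i k) q h)
  total : ∑ q ∈ Finset.range (n + 1), ((q.factorial : ℝ))⁻¹ *
    ∑ i : Fin q → Fin n, lam q i (g q i) ≠ 0

/-! ### Alternating families -/

section alt

variable {n m : ℕ} {V : Type*} [AddCommGroup V] [Module ℝ V]

/-- the sign of a permutation as a real number -/
def sgnR (σ : Equiv.Perm (Fin m)) : ℝ := ((Equiv.Perm.sign σ : ℤ) : ℝ)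

theorem sgnR_mul (σ τ : Equiv.Perm (Fin m)) : sgnR (σ * τ) = sgnR σ * sgnR τ := by
  unfold sgnR
  rw [Equiv.Perm.sign_mul]
  push_cast
  rfl

theorem sgnR_mul_self (σ : Equiv.Perm (Fin m)) : sgnR σ * sgnR σ = 1 := by
  unfold sgnR
  rcases Int.units_eq_one_or (Equiv.Perm.sign σ) with h | h <;> rw [h] <;> simp

/-- alternating families -/
def AltF (f : (Fin m → Fin n) → V) : Prop :=
  ∀ (σ : Equiv.Perm (Fin m)) (i : Fin m → Fin n), f (i ∘ σ) = sgnR σ • f i

theorem AltF.eq_zero {f : (Fin m → Fin n) → V} (hf : AltF f) {i : Fin m → Fin n}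
    (hi : ¬ Function.Injective i) : f i = 0 := by
  unfold Function.Injective at hi
  push Not at hi
  obtain ⟨a, b, hab, hne⟩ := hi
  have h1 := hf (Equiv.swap a b) i
  have h2 : i ∘ (Equiv.swap a b) = i := by
    funext x
    rcases eq_or_ne x a with rfl | hxa
    · simp [hab]
    · rcases eq_or_ne x b with rfl | hxb
      · simp [hab]
      · simp [Equiv.swap_apply_of_ne_of_ne hxa hxb]
  have h3 : sgnR (Equiv.swap a b) = -1 := by
    unfold sgnR
    rw [Equiv.Perm.sign_swap hne]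
    simp
  rw [h2, h3, neg_one_smul] at h1
  have h4 : (2 : ℝ) • f i = 0 := by
    rw [two_smul]
    nth_rw 1 [h1]
    rw [neg_add_cancel]
  exact (smul_eq_zero.1 h4).resolve_left two_ne_zero

theorem cons_comp_perm (j : Fin n) (i : Fin m → Fin n) (σ : Equiv.Perm (Fin m)) :
    (Fin.cons j (i ∘ σ) : Fin (m + 1) → Fin n) =
      (Fin.cons j i : Fin (m + 1) → Fin n) ∘ (Equiv.Perm.decomposeFin.symm (0, σ)) := by
  funext x
  refine Fin.cases ?_ (fun y => ?_) x
  · simp
  · simp [Equiv.Perm.decomposeFin_symm_apply_succ]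

theorem AltF.cons_perm {f : (Fin (m + 1) → Fin n) → V} (hf : AltF f) (j : Fin n)
    (i : Fin m → Fin n) (σ : Equiv.Perm (Fin m)) :
    f (Fin.cons j (i ∘ σ)) = sgnR σ • f (Fin.cons j i) := by
  rw [cons_comp_perm, hf]
  congr 1
  unfold sgnR
  rw [Equiv.Perm.decomposeFin.symm_sign]
  simp

theorem AltF.cons_cons {f : (Fin (m + 2) → Fin n) → V} (hf : AltF f) (j k : Fin n)
    (i : Fin m → Fin n) : f (Fin.cons k (Fin.cons j i : Fin (m + 1) → Fin n)) =
      -f (Fin.cons j (Fin.cons k i : Fin (m + 1) → Fin n)) := by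
  have h1 : (Fin.cons k (Fin.cons j i : Fin (m + 1) → Fin n) : Fin (m + 2) → Fin n) =
      (Fin.cons j (Fin.cons k i : Fin (m + 1) → Fin n) : Fin (m + 2) → Fin n) ∘
        (Equiv.swap 0 1) := by
    funext x
    refine Fin.cases ?_ (fun y => ?_) x
    · simp only [Function.comp, Equiv.swap_apply_left, Fin.cons_zero]
      rfl
    · refine Fin.cases ?_ (fun z => ?_) y
      · simp only [Function.comp]
        rw [show (Fin.succ (0 : Fin (m + 1))) = 1 from rfl, Equiv.swap_apply_right]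
        rfl
      · simp only [Function.comp]
        rw [Equiv.swap_apply_of_ne_of_ne]
        · simp only [Fin.cons_succ]
        · exact Fin.succ_ne_zero _
        · intro h
          rw [Fin.ext_iff] at h
          simp at h
  rw [h1, hf]
  have h3 : sgnR (Equiv.swap (0 : Fin (m + 2)) 1) = -1 := by
    unfold sgnR
    rw [Equiv.Perm.sign_swap (by simp)]
    simp
  rw [h3, neg_one_smul]

theorem AltF.insertNth {f : (Fin (m + 1) → Fin n) → V} (hf : AltF f) (k : Fin (m + 1)) (j : Fin n)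
    (i : Fin m → Fin n) : f (k.insertNth j i : Fin (m + 1) → Fin n) =
      (-1 : ℝ) ^ (k : ℕ) • f (Fin.cons j i) := by
  have h1 := hf k.cycleRange (Fin.cons j i)
  rw [Fin.cons_comp_cycleRange] at h1
  rw [h1]
  congr 1
  unfold sgnR
  rw [Fin.sign_cycleRange]
  push_cast
  rfl

/-- antisymmetrisation -/
def antisymF (c : (Fin m → Fin n) → V) (i : Fin m → Fin n) : V :=
  ((m.factorial : ℝ))⁻¹ • ∑ σ : Equiv.Perm (Fin m), sgnR σ • c (i ∘ σ)

theorem antisymF_alt (c : (Fin m → Fin n) → V) : AltF (antisymF c) := by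
  intro τ i
  unfold antisymF
  rw [smul_comm]
  congr 1
  conv_rhs => rw [Finset.smul_sum, ← Equiv.sum_comp (Equiv.mulLeft τ)]
  refine Finset.sum_congr rfl fun σ _ => ?_
  rw [Equiv.coe_mulLeft]
  beta_reduce
  rw [sgnR_mul, smul_smul, ← mul_assoc, sgnR_mul_self, one_mul]
  rfl

theorem antisymF_of_alt {f : (Fin m → Fin n) → V} (hf : AltF f) (i : Fin m → Fin n) :
    antisymF f i = f i := by
  unfold antisymF
  have h1 : ∀ σ : Equiv.Perm (Fin m), sgnR σ • f (i ∘ σ) = f i := by
    intro σ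
    rw [hf, smul_smul, sgnR_mul_self, one_smul]
  rw [Finset.sum_congr rfl fun σ _ => h1 σ, Finset.sum_const, Finset.card_univ,
    Fintype.card_perm, Fintype.card_fin, ← Nat.cast_smul_eq_nsmul ℝ, smul_smul,
    inv_mul_cancel₀, one_smul]
  exact_mod_cast m.factorial_ne_zero

end alt

variable {n : ℕ} {K : ℕ → Type*} [∀ q, AddCommGroup (K q)] [∀ q, Module ℝ (K q)]

namespace AlgData

variable (A : AlgData n K)

/-- the parity rule -/
def Par {q m : ℕ} (f : (Fin m → Fin n) → K q) : Prop :=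
  ∀ (i : Fin m → Fin n) (k : Fin n), (k ∈ Set.range i → A.S k q (f i) = -f i) ∧
    (k ∉ Set.range i → A.S k q (f i) = f i)

/-- `∑ j, e_j f(j, i)` -/
def E {q m : ℕ} (f : (Fin (m + 1) → Fin n) → K q) (i : Fin m → Fin n) : K q :=
  ∑ j, A.e j q (f (Fin.cons j i))

variable {A}

theorem E_alt {q m : ℕ} {f : (Fin (m + 1) → Fin n) → K q} (hf : AltF f) : AltF (A.E f) := by
  intro σ i
  unfold E
  rw [Finset.smul_sum]
  refine Finset.sum_congr rfl fun j _ => ?_
  rw [hf.cons_perm, map_smul]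

theorem E_E {q m : ℕ} {f : (Fin (m + 2) → Fin n) → K q} (hf : AltF f) (i : Fin m → Fin n) :
    A.E (A.E f) i = 0 := by
  have h1 : A.E (A.E f) i = ∑ j, ∑ k, A.e j q (A.e k q
      (f (Fin.cons k (Fin.cons j i : Fin (m + 1) → Fin n)))) := by
    unfold E
    exact Finset.sum_congr rfl fun j _ => map_sum _ _ _
  have h2 : A.E (A.E f) i = -A.E (A.E f) i := by
    conv_lhs => rw [h1, Finset.sum_comm]
    rw [h1, ← Finset.sum_neg_distrib]
    refine Finset.sum_congr rfl fun j _ => ?_
    rw [← Finset.sum_neg_distrib]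
    refine Finset.sum_congr rfl fun k _ => ?_
    rw [A.e_comm, hf.cons_cons, map_neg, map_neg]
  have h4 : (2 : ℝ) • A.E (A.E f) i = 0 := by
    rw [two_smul]
    nth_rw 1 [h2]
    rw [neg_add_cancel]
  exact (smul_eq_zero.1 h4).resolve_left two_ne_zero

theorem mem_range_cons {m : ℕ} {j k : Fin n} {i : Fin m → Fin n} :
    k ∈ Set.range (Fin.cons j i : Fin (m + 1) → Fin n) ↔ k = j ∨ k ∈ Set.range i := by
  rw [Fin.range_cons]
  exact Set.mem_insert_iff

theorem E_par {q m : ℕ} {f : (Fin (m + 1) → Fin n) → K q} (hf : AltF f) (hp : A.Par f) :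
    A.Par (A.E f) := by
  intro i k
  constructor
  · intro hk
    unfold E
    rw [map_sum, ← Finset.sum_neg_distrib]
    refine Finset.sum_congr rfl fun j _ => ?_
    rcases eq_or_ne k j with rfl | hne
    · have h1 : f (Fin.cons k i) = 0 := by
        refine hf.eq_zero fun hinj => ?_
        obtain ⟨x, hx⟩ := hk
        have h2 : (Fin.cons k i : Fin (m + 1) → Fin n) 0 =
            (Fin.cons k i : Fin (m + 1) → Fin n) x.succ := by
          rw [Fin.cons_zero, Fin.cons_succ, hx]
        exact Fin.succ_ne_zero _ (hinj h2).symm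
      rw [h1, map_zero, map_zero, neg_zero]
    · rw [A.Se_ne k j q _ hne, (hp _ k).1 (mem_range_cons.2 (Or.inr hk)), map_neg]
  · intro hk
    unfold E
    rw [map_sum]
    refine Finset.sum_congr rfl fun j _ => ?_
    rcases eq_or_ne k j with rfl | hne
    · rw [A.Se_self, (hp _ k).1 (mem_range_cons.2 (Or.inl rfl)), map_neg, neg_neg]
    · rw [A.Se_ne k j q _ hne, (hp _ k).2 fun h => (mem_range_cons.1 h).elim hne hk]

theorem g_alt (q : ℕ) : AltF (A.g q) := A.g_anti q

theorem g_par (q : ℕ) : A.Par (A.g q) := fun i k => ⟨A.g_odd q i k, A.g_even q i k⟩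

theorem Par.sub {q m : ℕ} {f f' : (Fin m → Fin n) → K q} (hf : A.Par f) (hf' : A.Par f') :
    A.Par (fun i => f i - f' i) := by
  intro i k
  constructor
  · intro hk
    rw [map_sub, (hf i k).1 hk, (hf' i k).1 hk, neg_sub_neg, neg_sub]
  · intro hk
    rw [map_sub, (hf i k).2 hk, (hf' i k).2 hk]

/-- projection to the right parities -/
theorem exists_par {q m : ℕ} {R : (Fin m → Fin n) → K (q + 1)} (hR : A.Par R) {i : Fin m → Fin n}
    (h : ∃ c, (c, R i) ∈ A.D q) (T : Finset (Fin n)) : ∃ c, (c, R i) ∈ A.D q ∧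
      ∀ k ∈ T, (k ∈ Set.range i → A.S k q c = -c) ∧ (k ∉ Set.range i → A.S k q c = c) := by
  classical
  induction T using Finset.induction_on with
  | empty =>
    obtain ⟨c, hc⟩ := h
    exact ⟨c, hc, fun k hk => absurd hk (Finset.notMem_empty k)⟩
  | insert k T hk ih =>
    obtain ⟨c, hc, hT⟩ := ih
    set s : ℝ := if k ∈ Set.range i then -1 else 1 with hs
    have hss : s * s = 1 := by
      rw [hs]
      split_ifs <;> norm_num
    have h1 : A.S k (q + 1) (R i) = s • R i := by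
      by_cases hki : k ∈ Set.range i
      · rw [hs, if_pos hki, (hR i k).1 hki, neg_one_smul]
      · rw [hs, if_neg hki, (hR i k).2 hki, one_smul]
    have h2 : A.S k q ((1 / 2 : ℝ) • (c + s • A.S k q c)) =
        s • ((1 / 2 : ℝ) • (c + s • A.S k q c)) := by
      rw [map_smul, map_add, map_smul, A.S_invol, smul_comm s (1 / 2 : ℝ), smul_add s c, smul_smul,
        hss, one_smul, add_comm]
    refine ⟨(1 / 2 : ℝ) • (c + s • A.S k q c), ?_, fun l hl => ?_⟩
    · have h3 := (A.D q).smul_mem (1 / 2 : ℝ) ((A.D q).add_mem hc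
        ((A.D q).smul_mem s (A.S_D k q _ _ hc)))
      have h4 : (1 / 2 : ℝ) • (R i + s • A.S k (q + 1) (R i)) = R i := by
        rw [h1, smul_smul, hss, one_smul, ← two_smul ℝ, smul_smul]
        norm_num
      rw [Prod.smul_mk, Prod.mk_add_mk, Prod.smul_mk, h4] at h3
      exact h3
    · rcases Finset.mem_insert.1 hl with rfl | hl
      · constructor
        · intro hki
          rw [h2, hs, if_pos hki, neg_one_smul]
        · intro hki
          rw [h2, hs, if_neg hki, one_smul]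
      · constructor
        · intro hli
          rw [map_smul, map_add, map_smul, A.S_comm l k, (hT l hl).1 hli, map_neg, smul_neg,
            ← neg_add, smul_neg]
        · intro hli
          rw [map_smul, map_add, map_smul, A.S_comm l k, (hT l hl).2 hli]

theorem prod_sum_mem {q : ℕ} {ι : Type*} (T : Finset ι) (a : ι → K q) (b : ι → K (q + 1))
    (h : ∀ j ∈ T, (a j, b j) ∈ A.D q) : (∑ j ∈ T, a j, ∑ j ∈ T, b j) ∈ A.D q := by
  have h1 := (A.D q).sum_mem h
  have h2 : ∑ j ∈ T, (a j, b j) = (∑ j ∈ T, a j, ∑ j ∈ T, b j) := by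
    refine Prod.ext ?_ ?_
    · rw [Prod.fst_sum]
    · rw [Prod.snd_sum]
  rwa [h2] at h1

/-- the remainder is a cocycle -/
theorem rem_mem {q : ℕ} {h' : (Fin (q + 1) → Fin n) → K q} {h'' : (Fin (q + 2) → Fin n) → K (q + 1)}
    (ha' : AltF h') (hp' : A.Par h') (ha'' : AltF h'') (hp'' : A.Par h'')
    (hrel : ∀ i, (h' i, A.g (q + 1) i - A.E h'' i) ∈ A.D q) (i : Fin q → Fin n) :
    (A.g q i - A.E h' i, 0) ∈ A.D q := by
  have hR : A.Par (fun i => A.g (q + 1) i - A.E h'' i) := (g_par (q + 1)).sub (E_par ha'' hp'')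
  have h1 : (A.E h' i, A.E (fun i => A.g (q + 1) i - A.E h'' i) i) ∈ A.D q := by
    unfold E
    refine prod_sum_mem _ _ _ fun j _ => ?_
    have hj : j ∈ Set.range (Fin.cons j i : Fin (q + 1) → Fin n) := mem_range_cons.2 (Or.inl rfl)
    exact A.e_D j q _ _ (hrel (Fin.cons j i)) ((hp' _ j).1 hj) ((hR _ j).1 hj)
  have h2 := (A.D q).sub_mem (A.g_D q i) h1
  have h3 : A.E (fun i => A.g (q + 1) i - A.E h'' i) i =
      ∑ j, A.e j (q + 1) (A.g (q + 1) (Fin.cons j i : Fin (q + 1) → Fin n)) := by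
    have h4 := E_E (A := A) ha'' i
    rw [show A.E (fun i => A.g (q + 1) i - A.E h'' i) i =
      ∑ j, A.e j (q + 1) (A.g (q + 1) (Fin.cons j i : Fin (q + 1) → Fin n)) -
        A.E (A.E h'') i by
      unfold E
      rw [← Finset.sum_sub_distrib]
      exact Finset.sum_congr rfl fun j _ => map_sub _ _ _, h4, sub_zero]
  rw [Prod.mk_sub_mk, h3, sub_self] at h2
  exact h2

/-- the step of the descending induction -/
theorem exists_step {q : ℕ} (hq : q < n) {h' : (Fin (q + 2) → Fin n) → K (q + 1)}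
    {h'' : (Fin (q + 3) → Fin n) → K (q + 2)}
    (ha' : AltF h') (hp' : A.Par h') (ha'' : AltF h'') (hp'' : A.Par h'')
    (hrel : ∀ i, (h' i, A.g (q + 2) i - A.E h'' i) ∈ A.D (q + 1)) :
    ∃ h : (Fin (q + 1) → Fin n) → K q, AltF h ∧ A.Par h ∧
      ∀ i, (h i, A.g (q + 1) i - A.E h' i) ∈ A.D q := by
  have hR : A.Par (fun i => A.g (q + 1) i - A.E h' i) := (g_par (q + 1)).sub (E_par ha' hp')
  have hRa : AltF (fun i => A.g (q + 1) i - A.E h' i) := by
    intro σ i
    beta_reduce
    rw [g_alt (A := A) (q + 1) σ i, E_alt (A := A) ha' σ i, smul_sub]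
  have h1 : ∀ i, ∃ c, (c, A.g (q + 1) i - A.E h' i) ∈ A.D q := fun i =>
    A.exact1 q _ hq (rem_mem ha' hp' ha'' hp'' hrel i)
  choose c hc hc' using fun i => exists_par hR (h1 i) Finset.univ
  refine ⟨antisymF c, antisymF_alt c, fun i k => ?_, fun i => ?_⟩
  · have hrange : ∀ σ : Equiv.Perm (Fin (q + 1)), Set.range (i ∘ σ) = Set.range i := fun σ =>
      σ.surjective.range_comp i
    unfold antisymF
    constructor
    · intro hk
      rw [map_smul, map_sum, ← smul_neg, ← Finset.sum_neg_distrib]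
      congr 1
      refine Finset.sum_congr rfl fun σ _ => ?_
      rw [map_smul, (hc' (i ∘ σ) k (Finset.mem_univ k)).1 (by rw [hrange]; exact hk), smul_neg]
    · intro hk
      rw [map_smul, map_sum]
      congr 1
      refine Finset.sum_congr rfl fun σ _ => ?_
      rw [map_smul, (hc' (i ∘ σ) k (Finset.mem_univ k)).2 (by rw [hrange]; exact hk)]
  · rw [← antisymF_of_alt hRa i]
    unfold antisymF
    have h2 : (∑ σ : Equiv.Perm (Fin (q + 1)), sgnR σ • c (i ∘ σ),
        ∑ σ : Equiv.Perm (Fin (q + 1)), sgnR σ • (A.g (q + 1) (i ∘ σ) - A.E h' (i ∘ σ))) ∈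
        A.D q := by
      refine prod_sum_mem _ _ _ fun σ _ => ?_
      have := (A.D q).smul_mem (sgnR σ) (hc (i ∘ σ))
      rwa [Prod.smul_mk] at this
    have h3 := (A.D q).smul_mem (((q + 1).factorial : ℝ))⁻¹ h2
    rwa [Prod.smul_mk] at h3

theorem exists_family (m : ℕ) (hm : m ≤ n) : ∃ h : ∀ q, (Fin (q + 1) → Fin n) → K q,
    (∀ q, AltF (h q)) ∧ (∀ q, A.Par (h q)) ∧ (∀ q, n ≤ q → h q = 0) ∧
    ∀ q, n ≤ q + m → ∀ i, (h q i, A.g (q + 1) i - A.E (h (q + 1)) i) ∈ A.D q := by
  induction m with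
  | zero =>
    refine ⟨fun q => 0, fun q σ i => by simp, fun q i k => by simp, fun q _ => rfl,
      fun q hq i => ?_⟩
    have h1 : A.g (q + 1) i = 0 := by
      refine (g_alt (q + 1)).eq_zero fun hinj => ?_
      have := Fintype.card_le_of_injective i hinj
      rw [Fintype.card_fin, Fintype.card_fin] at this
      omega
    have h2 : A.E (0 : (Fin (q + 1 + 1) → Fin n) → K (q + 1)) i = 0 := by
      unfold E
      simp
    rw [h1, h2, sub_zero]
    exact (A.D q).zero_mem
  | succ m ih =>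
    obtain ⟨h, ha, hp, h0, hrel⟩ := ih (by omega)
    set q₀ := n - (m + 1) with hq₀
    have hq₀' : q₀ < n := by omega
    obtain ⟨h', ha', hp', hrel'⟩ := exists_step hq₀' (ha (q₀ + 1)) (hp (q₀ + 1)) (ha (q₀ + 2))
      (hp (q₀ + 2)) (hrel (q₀ + 1) (by omega))
    refine ⟨Function.update h q₀ h', fun q => ?_, fun q => ?_, fun q hq => ?_,
      fun q hq i => ?_⟩
    · rcases eq_or_ne q q₀ with rfl | hne
      · rw [Function.update_self]
        exact ha'
      · rw [Function.update_of_ne hne]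
        exact ha q
    · rcases eq_or_ne q q₀ with rfl | hne
      · rw [Function.update_self]
        exact hp'
      · rw [Function.update_of_ne hne]
        exact hp q
    · rw [Function.update_of_ne (by omega)]
      exact h0 q hq
    · rcases eq_or_ne q q₀ with rfl | hne
      · rw [Function.update_self, Function.update_of_ne (by omega)]
        exact hrel' i
      · rw [Function.update_of_ne hne, Function.update_of_ne (by omega)]
        exact hrel q (by omega) i

/-! ### The functionals -/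

/-- `∑ i, lam_i (∑ j, e_j h(j,i))` -/
def AA (A : AlgData n K) {q : ℕ} (h : (Fin (q + 1) → Fin n) → K q) : ℝ :=
  ∑ i : Fin q → Fin n, A.lam q i (A.E h i)

theorem sum_lam_rem {q : ℕ} {h : (Fin (q + 1) → Fin n) → K q} {R : (Fin (q + 1) → Fin n) → K (q + 1)}
    (ha : AltF h) (hR : AltF R) (hrel : ∀ i, (h i, R i) ∈ A.D q) :
    ∑ i, A.lam (q + 1) i (R i) = -((q + 1 : ℕ) : ℝ) * A.AA h := by
  have h1 : ∀ i : Fin (q + 1) → Fin n, A.lam (q + 1) i (R i) =
      - ∑ k : Fin (q + 1), (-1 : ℝ) ^ (k : ℕ) * A.lam q (k.removeNth i) (A.e (i k) q (h i)) := by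
    intro i
    by_cases hi : Function.Injective i
    · exact A.stokes q i hi _ _ (hrel i)
    · rw [hR.eq_zero hi, ha.eq_zero hi]
      simp
  rw [Finset.sum_congr rfl fun i _ => h1 i, Finset.sum_neg_distrib, Finset.sum_comm, neg_mul]
  congr 1
  have h2 : ∀ k : Fin (q + 1), ∑ i : Fin (q + 1) → Fin n,
      (-1 : ℝ) ^ (k : ℕ) * A.lam q (k.removeNth i) (A.e (i k) q (h i)) = A.AA h := by
    intro k
    rw [← (Fin.insertNthEquiv (fun _ => Fin n) k).sum_comp, Fintype.sum_prod_type,
      Finset.sum_comm]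
    unfold AA E
    refine Finset.sum_congr rfl fun i _ => ?_
    rw [map_sum]
    refine Finset.sum_congr rfl fun j _ => ?_
    have h3 : (Fin.insertNthEquiv (fun _ => Fin n) k) (j, i) =
        (k.insertNth j i : Fin (q + 1) → Fin n) := rfl
    rw [h3, ha.insertNth, Fin.removeNth_insertNth, Fin.insertNth_apply_same, map_smul, map_smul,
      smul_eq_mul, ← mul_assoc, ← mul_pow]
    norm_num
  rw [Finset.sum_congr rfl fun k _ => h2 k, Finset.sum_const, Finset.card_univ, Fintype.card_fin,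
    nsmul_eq_mul]

end AlgData

open AlgData in
/-- the algebraic data are contradictory. -/
theorem AlgData.absurd (A : AlgData n K) : False := by
  obtain ⟨h, ha, hp, h0, hrel⟩ := exists_family (A := A) n le_rfl
  have hrel : ∀ q i, (h q i, A.g (q + 1) i - A.E (h (q + 1)) i) ∈ A.D q := fun q i =>
    hrel q (Nat.le_add_left _ _) i
  have hg0 : ∀ i, A.g 0 i = A.E (h 0) i := by
    intro i
    have h1 := rem_mem (ha 0) (hp 0) (ha 1) (hp 1) (hrel 0) i
    exact sub_eq_zero.1 (A.exact0 _ h1)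
  have key : ∀ m, ∑ q ∈ Finset.range (m + 1), ((q.factorial : ℝ))⁻¹ *
      ∑ i : Fin q → Fin n, A.lam q i (A.g q i) = ((m.factorial : ℝ))⁻¹ * A.AA (h m) := by
    intro m
    induction m with
    | zero =>
      rw [Finset.sum_range_one]
      unfold AA
      congr 1
      exact Finset.sum_congr rfl fun i _ => by rw [hg0 i]
    | succ m ih =>
      rw [Finset.sum_range_succ, ih]
      have h1 := sum_lam_rem (A := A) (ha m) (R := fun i => A.g (m + 1) i - A.E (h (m + 1)) i)
        (fun σ i => by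
          beta_reduce
          rw [g_alt (A := A) (m + 1) σ i, E_alt (A := A) (ha (m + 1)) σ i, smul_sub]) (hrel m)
      have h2 : ∑ i, A.lam (m + 1) i (A.g (m + 1) i - A.E (h (m + 1)) i) =
          ∑ i, A.lam (m + 1) i (A.g (m + 1) i) - A.AA (h (m + 1)) := by
        unfold AA
        rw [← Finset.sum_sub_distrib]
        exact Finset.sum_congr rfl fun i _ => map_sub _ _ _
      rw [h2] at h1
      have h3 : ∑ i, A.lam (m + 1) i (A.g (m + 1) i) =
          A.AA (h (m + 1)) - ((m + 1 : ℕ) : ℝ) * A.AA (h m) := by linarith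
      rw [h3, Nat.factorial_succ]
      have h4 : (m.factorial : ℝ) ≠ 0 := by exact_mod_cast m.factorial_ne_zero
      have h5 : ((m + 1 : ℕ) : ℝ) ≠ 0 := by positivity
      push_cast at h5 ⊢
      field_simp
      ring
  apply A.total
  rw [key n, h0 n le_rfl]
  unfold AA E
  simp

end Pool.Agent.ZSp
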