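import Pool.Agent.Work.MP_058ed1_gt.G.Stmt

/-!
# Commuting reflections with a common fixed point
-/

open scoped Manifold ContDiff Topology Bundle
open Set Bundle

noncomputable section

namespace Pool.Agent.ZSp

/-- `s₁, …, sₙ` are commuting reflections of `X` with a common fixed point `v`: the `sᵢ` are
commuting smooth involutions with bounded derivatives; `τᵢ` is a smooth function which is odd
with respect to `sᵢ` and invariant under the other `sⱼ`; on the mirror `τᵢ = 0` the map `sᵢ` is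
the identity and `dτᵢ ≠ 0`; and `v` lies on all the mirrors. -/
structure Corner (E : Type*) [NormedAddCommGroup E] [InnerProductSpace ℝ E] {X : Type*}
    [EMetricSpace X] [ChartedSpace E X] [RiemannianBundle (fun x : X => TangentSpace 𝓘(ℝ, E) x)]
    {n : ℕ} (s : Fin n → X → X) (τ : Fin n → X → ℝ) (v : X) : Prop where
  smooth_s : ∀ i, ContMDiff 𝓘(ℝ, E) 𝓘(ℝ, E) ∞ (s i)
  invol : ∀ i x, s i (s i x) = x
  comm : ∀ i j x, s i (s j x) = s j (s i x)
  bdd : ∃ L : ℝ, ∀ (i : Fin n) (x : X) (u : TangentSpace 𝓘(ℝ, E) x),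
    ‖mfderiv 𝓘(ℝ, E) 𝓘(ℝ, E) (s i) x u‖ ≤ L * ‖u‖
  smooth_τ : ∀ i, ContMDiff 𝓘(ℝ, E) 𝓘(ℝ, ℝ) ∞ (τ i)
  odd : ∀ i x, τ i (s i x) = - τ i x
  even : ∀ i j x, i ≠ j → τ i (s j x) = τ i x
  fix : ∀ i x, τ i x = 0 → s i x = x
  regular : ∀ i x, τ i x = 0 → mfderiv 𝓘(ℝ, E) 𝓘(ℝ, ℝ) (τ i) x ≠ 0
  vertex : ∀ i, τ i v = 0

end Pool.Agent.ZSp
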