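import Pool.Agent.Work.MP_058ed1_gt.G.Hodge
import Pool.Agent.Work.MP_058ed1_gt.G.Bridge
import Pool.Agent.Work.MP_058ed1_gt.C.CornerDef

/-!
# Corner theorem: common working definitions and the basic interface

`OmC E X p` is `Ω_c^p(X)` with the `L²` seminorm, `L2F E X p` its completion, `DD E X p` the graph
of the closure of the exterior derivative.
-/

open scoped Manifold ContDiff Topology Bundle ENNReal NNReal
open Set MeasureTheory Bundle Filter

set_option linter.unusedSectionVars false

noncomputable section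

namespace Pool.Agent.ZSp

section forms

variable {E : Type*} [NormedAddCommGroup E] [InnerProductSpace ℝ E] {X : Type*}
  [TopologicalSpace X] [ChartedSpace E X] {p : ℕ}

/-- multiplication of a form by a function. -/
def fmul (f : X → ℝ) (w : PForm E X p) : PForm E X p := fun x => f x • w x

/-- `df ∧ w`, defined as `d(f w) - f dw`. -/
def dwedge (f : X → ℝ) (w : PForm E X p) : PForm E X (p + 1) :=
  extD (fmul f w) - fmul f (extD w)

end forms

/-- a smooth odd step function: `-1` on `(-∞,-1]`, `1` on `[1,∞)`. -/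
def stp (t : ℝ) : ℝ := 2 * Real.smoothTransition ((t + 1) / 2) - 1

theorem stp_contDiff : ContDiff ℝ ∞ stp := by
  unfold stp
  exact (contDiff_const.mul (Real.smoothTransition.contDiff.comp
    ((contDiff_id.add contDiff_const).div_const 2))).sub contDiff_const

theorem stp_neg (t : ℝ) : stp (-t) = - stp t := by
  unfold stp Real.smoothTransition
  have h1 : 0 < expNegInvGlue ((t + 1) / 2) + expNegInvGlue (1 - (t + 1) / 2) :=
    Real.smoothTransition.pos_denom _
  have e1 : (-t + 1) / 2 = 1 - (t + 1) / 2 := by ring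
  have e2 : 1 - (1 - (t + 1) / 2) = (t + 1) / 2 := by ring
  rw [e1, e2]
  rw [add_comm (expNegInvGlue (1 - (t + 1) / 2))]
  generalize expNegInvGlue ((t + 1) / 2) = A at *
  generalize expNegInvGlue (1 - (t + 1) / 2) = B at *
  have h2 : A / (A + B) + B / (A + B) = 1 := by
    rw [← add_div, div_self h1.ne']
  linarith

theorem stp_of_one_le {t : ℝ} (h : 1 ≤ t) : stp t = 1 := by
  unfold stp
  rw [Real.smoothTransition.one_of_one_le (by linarith)]
  norm_num

theorem stp_of_le_neg_one {t : ℝ} (h : t ≤ -1) : stp t = -1 := by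
  unfold stp
  rw [Real.smoothTransition.zero_of_nonpos (by linarith)]
  norm_num

theorem abs_stp_le (t : ℝ) : |stp t| ≤ 1 := by
  unfold stp
  have h1 := Real.smoothTransition.nonneg ((t + 1) / 2)
  have h2 := Real.smoothTransition.le_one ((t + 1) / 2)
  rw [abs_le]
  constructor <;> linarith

theorem stp_zero : stp 0 = 0 := by
  have := stp_neg 0
  rw [neg_zero] at this
  linarith

/-- `stp (k t) → sign t`. -/
theorem stp_tendsto (t : ℝ) :
    Tendsto (fun k : ℕ => stp (k * t)) atTop (𝓝 (Real.sign t)) := by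
  rcases lt_trichotomy t 0 with h | h | h
  · rw [Real.sign_of_neg h]
    refine tendsto_const_nhds.congr' ?_
    obtain ⟨N, hN⟩ := exists_nat_gt (1 / (-t))
    filter_upwards [eventually_ge_atTop N] with k hk
    symm
    apply stp_of_le_neg_one
    have h1 : (1 / (-t)) < k := hN.trans_le (by exact_mod_cast hk)
    rw [div_lt_iff₀ (by linarith)] at h1
    linarith
  · subst h
    simp [stp_zero]
  · rw [Real.sign_of_pos h]
    refine tendsto_const_nhds.congr' ?_
    obtain ⟨N, hN⟩ := exists_nat_gt (1 / t)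
    filter_upwards [eventually_ge_atTop N] with k hk
    symm
    apply stp_of_one_le
    have h1 : (1 / t) < k := hN.trans_le (by exact_mod_cast hk)
    rw [div_lt_iff₀ h] at h1
    linarith

section L2

variable {E : Type*} [NormedAddCommGroup E] [InnerProductSpace ℝ E] [FiniteDimensional ℝ E]
  {X : Type*} [EMetricSpace X] [ChartedSpace E X]
  [IsManifold 𝓘(ℝ, E) ∞ X] [RiemannianBundle (fun x : X => TangentSpace 𝓘(ℝ, E) x)]
  [IsContMDiffRiemannianBundle 𝓘(ℝ, E) ∞ E (fun x : X => TangentSpace 𝓘(ℝ, E) x)]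
  [IsRiemannianManifold 𝓘(ℝ, E) X] [MeasurableSpace X] [BorelSpace X] {p q : ℕ}

/-- the inclusion of `Ω_c^p(X)` in its completion. -/
def coeL : OmC E X p →ₗ[ℝ] L2F E X p where
  toFun a := (a : L2F E X p)
  map_add' a b := UniformSpace.Completion.coe_add a b
  map_smul' r a := UniformSpace.Completion.coe_smul r a

theorem coeL_apply (a : OmC E X p) : coeL a = (a : L2F E X p) := rfl

/-- the exterior derivative as a linear map. -/
def dCl : OmC E X p →ₗ[ℝ] OmC E X (p + 1) where
  toFun := dC
  map_add' a b := Subtype.ext (extD_add a.2.1 b.2.1)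
  map_smul' r a := Subtype.ext (extD_smul a.2.1 r)

theorem dCl_apply (a : OmC E X p) : dCl a = dC a := rfl

theorem dC_dC (a : OmC E X p) : dC (dC a) = 0 := Subtype.ext (extD_extD a.2.1)

theorem norm_coe (a : OmC E X p) : ‖(a : L2F E X p)‖ = ‖a‖ := UniformSpace.Completion.norm_coe a

/-- extension of a bounded linear map to the completion. -/
def extC {F : Type*} [NormedAddCommGroup F] [NormedSpace ℝ F] [CompleteSpace F]
    (T : OmC E X p →ₗ[ℝ] F) (h : ∃ C, ∀ a, ‖T a‖ ≤ C * ‖a‖) : L2F E X p →L[ℝ] F :=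
  (T.mkContinuous h.choose h.choose_spec).extend
    (UniformSpace.Completion.toComplL : OmC E X p →L[ℝ] L2F E X p)

theorem extC_coe {F : Type*} [NormedAddCommGroup F] [NormedSpace ℝ F] [CompleteSpace F]
    (T : OmC E X p →ₗ[ℝ] F) (h : ∃ C, ∀ a, ‖T a‖ ≤ C * ‖a‖) (a : OmC E X p) :
    extC T h (a : L2F E X p) = T a :=
  ContinuousLinearMap.extend_eq _ UniformSpace.Completion.denseRange_coe
    (UniformSpace.Completion.isUniformInducing_coe _) a

/-- two continuous maps on the completion which agree on `Ω_c^p(X)` are equal. -/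
theorem L2F_ext {Y : Type*} [TopologicalSpace Y] [T2Space Y] {f g : L2F E X p → Y}
    (hf : Continuous f) (hg : Continuous g) (h : ∀ a : OmC E X p, f a = g a) : f = g :=
  UniformSpace.Completion.ext hf hg h

variable (E X p) in
/-- the graph of the closure of the exterior derivative `Ω_c^p → Ω_c^{p+1}`. -/
def DD : Submodule ℝ (L2F E X p × L2F E X (p + 1)) :=
  (LinearMap.range (LinearMap.prod (coeL (E := E) (X := X) (p := p))
    (coeL.comp dCl))).topologicalClosure

theorem DD_closed : IsClosed (DD E X p : Set (L2F E X p × L2F E X (p + 1))) :=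
  Submodule.isClosed_topologicalClosure _

theorem DD_coe (a : OmC E X p) :
    ((a : L2F E X p), (dC a : L2F E X (p + 1))) ∈ DD E X p :=
  Submodule.le_topologicalClosure _ ⟨a, rfl⟩

theorem DD_seq {a : L2F E X p} {b : L2F E X (p + 1)} (h : (a, b) ∈ DD E X p) :
    ∃ u : ℕ → OmC E X p, Tendsto (fun k => (u k : L2F E X p)) atTop (𝓝 a) ∧
      Tendsto (fun k => (dC (u k) : L2F E X (p + 1))) atTop (𝓝 b) := by
  have h1 : (a, b) ∈ closure (Set.range fun c : OmC E X p =>
      ((c : L2F E X p), (dC c : L2F E X (p + 1)))) := h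
  rw [mem_closure_iff_seq_limit] at h1
  obtain ⟨z, hz, hlim⟩ := h1
  choose u hu using hz
  refine ⟨u, ?_, ?_⟩
  · have := (continuous_fst.tendsto _).comp hlim
    refine this.congr fun k => ?_
    simp only [Function.comp, ← hu k]
  · have := (continuous_snd.tendsto _).comp hlim
    refine this.congr fun k => ?_
    simp only [Function.comp, ← hu k]

theorem DD_of_tendsto {a : L2F E X p} {b : L2F E X (p + 1)} {u : ℕ → L2F E X p}
    {w : ℕ → L2F E X (p + 1)} (hu : Tendsto u atTop (𝓝 a)) (hw : Tendsto w atTop (𝓝 b))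
    (h : ∀ k, (u k, w k) ∈ DD E X p) : (a, b) ∈ DD E X p :=
  DD_closed.mem_of_tendsto (hu.prodMk_nhds hw) (Eventually.of_forall h)

/-- a pair of bounded operators which preserves `DD` on `Ω_c` preserves `DD`. -/
theorem DD_map {a : L2F E X p} {b : L2F E X (p + 1)} (h : (a, b) ∈ DD E X p)
    (T : L2F E X p →L[ℝ] L2F E X q) (T' : L2F E X (p + 1) →L[ℝ] L2F E X (q + 1))
    (hT : ∀ c : OmC E X p, (T c, T' (dC c)) ∈ DD E X q) : (T a, T' b) ∈ DD E X q := by
  obtain ⟨u, hu, hw⟩ := DD_seq h
  exact DD_of_tendsto ((T.continuous.tendsto _).comp hu) ((T'.continuous.tendsto _).comp hw)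
    fun k => hT (u k)

/-! ### multiplication by smooth functions -/

theorem fmul_mem {f : X → ℝ} (hf : ContMDiff 𝓘(ℝ, E) 𝓘(ℝ, ℝ) ∞ f) {w : PForm E X p}
    (hw : w ∈ OmegaC E X p) : fmul f w ∈ OmegaC E X p := by
  refine ⟨hw.1.fmul hf, hw.2.of_isClosed_subset isClosed_closure (closure_mono ?_)⟩
  intro x hx h0
  apply hx
  show f x • w x = 0
  rw [h0, smul_zero]

/-- multiplication by a smooth function, on `Ω_c^p(X)`. -/
def mulC (f : X → ℝ) (hf : ContMDiff 𝓘(ℝ, E) 𝓘(ℝ, ℝ) ∞ f) : OmC E X p →ₗ[ℝ] OmC E X p where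
  toFun a := ⟨fmul f a.1, fmul_mem hf a.2⟩
  map_add' a b := Subtype.ext (by
    funext x
    show f x • (a.1 x + b.1 x) = f x • a.1 x + f x • b.1 x
    rw [smul_add])
  map_smul' r a := Subtype.ext (by
    funext x
    show f x • (r • a.1 x) = r • (f x • a.1 x)
    rw [smul_comm])

/-- multiplication by a function bounded by `1` does not increase the norm. -/
theorem norm_mulC_le {f : X → ℝ} (hf : ContMDiff 𝓘(ℝ, E) 𝓘(ℝ, ℝ) ∞ f) (h1 : ∀ x, |f x| ≤ 1)
    (a : OmC E X p) : ‖mulC f hf a‖ ≤ 1 * ‖a‖ := by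
  rw [one_mul]
  have h2 : ‖mulC f hf a‖ ^ 2 ≤ ‖a‖ ^ 2 := by
    rw [norm_sq_eq, norm_sq_eq]
    apply integral_mono (integrable_pin (mulC f hf a).2 (mulC f hf a).2) (integrable_pin a.2 a.2)
    intro x
    show ainner (f x • a.1 x) (f x • a.1 x) ≤ ainner (a.1 x) (a.1 x)
    rw [ainner_smul_left, ainner_comm, ainner_smul_left, ← mul_assoc]
    have h3 : f x * f x ≤ 1 := by
      have := h1 x
      rw [abs_le] at this
      nlinarith [this.1, this.2]
    calc f x * f x * ainner (a.1 x) (a.1 x) ≤ 1 * ainner (a.1 x) (a.1 x) := by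
          apply mul_le_mul_of_nonneg_right h3 (ainner_self_nonneg _)
      _ = _ := one_mul _
  exact abs_le_of_sq_le_sq' h2 (norm_nonneg _) |>.2

end L2

end Pool.Agent.ZSp
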