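import Pool.Agent.Work.MP_058ed1_gt.C.Vform

/-!
# Corner theorem, module BUMP: the cochains `ω_i` on `ℝⁿ` and the weights `W_i`
-/

open scoped Topology ContDiff
open Set Filter MeasureTheory

noncomputable section

namespace Pool.Agent.ZSp

/-- the pair of functions `a = ρ`, `b = sign · ρ'` (`ρ` an even bump function on the line). -/
structure BumpPair (r : ℝ) (a b : ℝ → ℝ) : Prop where
  a_smooth : ContDiff ℝ ∞ a
  b_smooth : ContDiff ℝ ∞ b
  a_even : ∀ t, a (-t) = a t
  b_even : ∀ t, b (-t) = b t
  deriv_a : ∀ t, deriv a t = Real.sign t * b t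
  supp : ∃ r' : ℝ, 0 < r' ∧ r' < r ∧ ∀ t, r' ≤ |t| → a t = 0 ∧ b t = 0
  b_zero : ∃ r₁ : ℝ, 0 < r₁ ∧ ∀ t, |t| ≤ r₁ → b t = 0
  integral : ∫ t, a t * b t = -1

theorem exists_bumpPair {r : ℝ} (hr : 0 < r) : ∃ a b : ℝ → ℝ, BumpPair r a b := by
  obtain ⟨ρ, hρ, hρr⟩ : ∃ ρ : ℝ, 0 < ρ ∧ ρ < r := ⟨r / 2, by positivity, by linarith⟩
  set a : ℝ → ℝ := fun t => Real.smoothTransition (2 - 2 * t ^ 2 / ρ ^ 2) with ha
  have hasm : ContDiff ℝ ∞ a := by
    rw [ha]
    exact Real.smoothTransition.contDiff.comp
      (contDiff_const.sub ((contDiff_const.mul (contDiff_id.pow 2)).div_const _))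
  have haeven : ∀ t, a (-t) = a t := by
    intro t
    simp only [ha]
    rw [neg_sq]
  have hρ2 : 0 < ρ ^ 2 := by positivity
  have hzero : ∀ t, ρ ≤ |t| → a t = 0 := by
    intro t ht
    simp only [ha]
    apply Real.smoothTransition.zero_of_nonpos
    have h1 : ρ ^ 2 ≤ t ^ 2 := by
      rw [← sq_abs t]
      exact pow_le_pow_left₀ hρ.le ht 2
    have h2 : 2 ≤ 2 * t ^ 2 / ρ ^ 2 := by
      rw [le_div_iff₀ hρ2]
      linarith
    linarith
  have hone : ∀ t, |t| < ρ * (7 / 10) → a t = 1 := by
    intro t ht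
    simp only [ha]
    apply Real.smoothTransition.one_of_one_le
    have h1 : t ^ 2 ≤ (ρ * (7 / 10)) ^ 2 := by
      rw [← sq_abs t]
      exact pow_le_pow_left₀ (abs_nonneg t) ht.le 2
    have h2 : 2 * t ^ 2 / ρ ^ 2 ≤ 1 := by
      rw [div_le_one hρ2]
      nlinarith
    linarith
  set a' : ℝ → ℝ := deriv a with ha'
  have ha'sm : ContDiff ℝ ∞ a' := by
    rw [ha']
    exact (contDiff_infty_iff_deriv.1 hasm).2
  have hader : ∀ t, HasDerivAt a (a' t) t := fun t =>
    ((hasm.differentiable (by simp)) t).hasDerivAt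
  have ha'zero : ∀ t, |t| < ρ * (7 / 10) → a' t = 0 := by
    intro t ht
    have h1 : a =ᶠ[𝓝 t] fun _ => (1 : ℝ) := by
      filter_upwards [(isOpen_lt continuous_abs continuous_const).mem_nhds ht] with u hu
      exact hone u hu
    rw [ha', h1.deriv_eq, deriv_const]
  have ha'big : ∀ t, ρ < |t| → a' t = 0 := by
    intro t ht
    have h1 : a =ᶠ[𝓝 t] fun _ => (0 : ℝ) := by
      filter_upwards [(isOpen_lt continuous_const continuous_abs).mem_nhds ht] with u hu
      exact hzero u (le_of_lt hu)
    rw [ha', h1.deriv_eq, deriv_const]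
  have ha'odd : ∀ t, a' (-t) = - a' t := by
    intro t
    have h1 : a = fun t => a (-t) := funext fun t => (haeven t).symm
    have h2 : HasDerivAt (fun t => a (-t)) (a' (-t) * (-1)) t :=
      (hader (-t)).comp t (hasDerivAt_neg t)
    rw [← h1] at h2
    have h3 := (hader t).unique h2
    linarith
  set b : ℝ → ℝ := fun t => Real.sign t * a' t with hb
  have hbsm : ContDiff ℝ ∞ b := by
    rw [contDiff_iff_contDiffAt]
    intro t
    rcases lt_trichotomy t 0 with h | h | h
    · have h1 : b =ᶠ[𝓝 t] fun u => - a' u := by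
        filter_upwards [Iio_mem_nhds h] with u hu
        simp only [hb]
        rw [Real.sign_of_neg hu]
        ring
      exact (ha'sm.neg.contDiffAt).congr_of_eventuallyEq h1
    · subst h
      have h1 : b =ᶠ[𝓝 0] fun _ => (0 : ℝ) := by
        have h2 : |(0 : ℝ)| < ρ * (7 / 10) := by rw [abs_zero]; positivity
        filter_upwards [(isOpen_lt continuous_abs continuous_const).mem_nhds h2] with u hu
        simp only [hb]
        rw [ha'zero u hu, mul_zero]
      exact contDiffAt_const.congr_of_eventuallyEq h1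
    · have h1 : b =ᶠ[𝓝 t] fun u => a' u := by
        filter_upwards [Ioi_mem_nhds h] with u hu
        simp only [hb]
        rw [Real.sign_of_pos hu]
        ring
      exact ha'sm.contDiffAt.congr_of_eventuallyEq h1
  have hbeven : ∀ t, b (-t) = b t := by
    intro t
    simp only [hb]
    rw [ha'odd, Real.sign_neg]
    ring
  refine ⟨a, b, hasm, hbsm, haeven, hbeven, ?_, ⟨(ρ + r) / 2, by linarith, by linarith, ?_⟩,
    ⟨ρ / 2, by linarith, ?_⟩, ?_⟩
  · intro t
    simp only [hb]
    rcases lt_trichotomy t 0 with h | h | h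
    · rw [Real.sign_of_neg h]; ring
    · subst h
      rw [Real.sign_zero, zero_mul]
      exact ha'zero 0 (by rw [abs_zero]; positivity)
    · rw [Real.sign_of_pos h]; ring
  · intro t ht
    refine ⟨hzero t (by linarith), ?_⟩
    simp only [hb]
    rw [ha'big t (by linarith), mul_zero]
  · intro t ht
    simp only [hb]
    rw [ha'zero t (by linarith), mul_zero]
  · -- the integral
    have hsup : Function.support (fun t => a t * b t) ⊆ Set.Ioc (-ρ) ρ := by
      intro t ht
      by_contra hn
      apply ht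
      have h1 : ρ ≤ |t| := by
        rw [Set.mem_Ioc, not_and_or, not_lt, not_le] at hn
        rcases hn with h | h
        · rw [le_abs]; right; linarith
        · rw [le_abs]; left; linarith
      show a t * b t = 0
      rw [hzero t h1, zero_mul]
    rw [← intervalIntegral.integral_eq_integral_of_support_subset hsup]
    have hcont : Continuous (fun t => a t * b t) := hasm.continuous.mul hbsm.continuous
    rw [← intervalIntegral.integral_add_adjacent_intervals
      (hcont.intervalIntegrable (-ρ) 0) (hcont.intervalIntegrable 0 ρ)]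
    have hder : ∀ t, HasDerivAt (fun t => a t ^ 2 / 2) (a t * a' t) t := by
      intro t
      have h1 := ((hader t).pow 2).div_const 2
      refine h1.congr_deriv ?_
      push_cast
      ring
    have hcont' : Continuous (fun t => a t * a' t) := hasm.continuous.mul ha'sm.continuous
    have i1 : ∫ t in (0 : ℝ)..ρ, a t * b t = -(1 / 2) := by
      have e1 : ∫ t in (0 : ℝ)..ρ, a t * b t = ∫ t in (0 : ℝ)..ρ, a t * a' t := by
        apply intervalIntegral.integral_congr
        intro t ht
        rw [Set.uIcc_of_le hρ.le] at ht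
        simp only [hb]
        rcases eq_or_lt_of_le ht.1 with h | h
        · rw [← h, ha'zero 0 (by rw [abs_zero]; positivity)]
          ring
        · rw [Real.sign_of_pos h]
          ring
      rw [e1, intervalIntegral.integral_eq_sub_of_hasDerivAt (fun t _ => hder t)
        (hcont'.intervalIntegrable _ _), hzero ρ (by rw [abs_of_pos hρ]),
        hone 0 (by rw [abs_zero]; positivity)]
      norm_num
    have i2 : ∫ t in (-ρ)..(0 : ℝ), a t * b t = -(1 / 2) := by
      have e1 : ∫ t in (-ρ)..(0 : ℝ), a t * b t = ∫ t in (-ρ)..(0 : ℝ), -(a t * a' t) := by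
        apply intervalIntegral.integral_congr
        intro t ht
        rw [Set.uIcc_of_le (by linarith)] at ht
        simp only [hb]
        rcases eq_or_lt_of_le ht.2 with h | h
        · rw [h, ha'zero 0 (by rw [abs_zero]; positivity)]
          ring
        · rw [Real.sign_of_neg h]
          ring
      rw [e1, intervalIntegral.integral_neg,
        intervalIntegral.integral_eq_sub_of_hasDerivAt (fun t _ => hder t)
        (hcont'.intervalIntegrable _ _), hzero (-ρ) (by rw [abs_neg, abs_of_pos hρ]),
        hone 0 (by rw [abs_zero]; positivity)]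
      norm_num
    rw [i1, i2]
    norm_num

variable {n q : ℕ}

open Classical in
/-- the coefficient of `ω_i`: `∏_{l ∈ range i} b(x_l) ∏_{l ∉ range i} a(x_l)`. -/
def cG (a b : ℝ → ℝ) (i : Fin q → Fin n) (x : Fin n → ℝ) : ℝ :=
  ∏ l, if l ∈ Set.range i then b (x l) else a (x l)

open Classical in
/-- the weight `W_i = ∏_{l ∈ range i} a(x_l) ∏_{l ∉ range i} b(x_l)`. -/
def cW (a b : ℝ → ℝ) (i : Fin q → Fin n) (x : Fin n → ℝ) : ℝ :=
  ∏ l, if l ∈ Set.range i then a (x l) else b (x l)

/-- `ω_i`. -/
def omg (a b : ℝ → ℝ) (i : Fin q → Fin n) (x : Fin n → ℝ) : (Fin n → ℝ) [⋀^Fin q]→L[ℝ] ℝ :=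
  cG a b i x • dxT i

variable {r : ℝ} {a b : ℝ → ℝ}

theorem cG_contDiff (h : BumpPair r a b) (i : Fin q → Fin n) : ContDiff ℝ ∞ (cG a b i) := by
  unfold cG
  apply contDiff_prod
  intro l _
  split_ifs
  · exact h.b_smooth.comp (contDiff_apply ℝ ℝ l)
  · exact h.a_smooth.comp (contDiff_apply ℝ ℝ l)

theorem cW_contDiff (h : BumpPair r a b) (i : Fin q → Fin n) : ContDiff ℝ ∞ (cW a b i) := by
  unfold cW
  apply contDiff_prod
  intro l _
  split_ifs
  · exact h.a_smooth.comp (contDiff_apply ℝ ℝ l)
  · exact h.b_smooth.comp (contDiff_apply ℝ ℝ l)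

theorem omg_contDiff (h : BumpPair r a b) (i : Fin q → Fin n) : ContDiff ℝ ∞ (omg a b i) :=
  (cG_contDiff h i).smul contDiff_const

/-- the supports lie in a smaller cube (`‖x‖ = max |x_l|`). -/
theorem cG_cW_supp (h : BumpPair r a b) (n : ℕ) : ∃ r' : ℝ, 0 < r' ∧ r' < r ∧
    ∀ (q : ℕ) (i : Fin q → Fin n) (x : Fin n → ℝ), r' ≤ ‖x‖ → cG a b i x = 0 ∧ cW a b i x = 0 := by
  obtain ⟨r', h0, h1, h2⟩ := h.supp
  refine ⟨r', h0, h1, fun q i x hx => ?_⟩
  obtain ⟨l, hl⟩ : ∃ l, r' ≤ |x l| := by
    by_contra hn
    push Not at hn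
    exact absurd ((pi_norm_lt_iff h0).2 fun l => by rw [Real.norm_eq_abs]; exact hn l)
      (not_lt.2 hx)
  obtain ⟨ha, hb⟩ := h2 (x l) hl
  constructor
  · unfold cG
    apply Finset.prod_eq_zero (Finset.mem_univ l)
    split_ifs
    · exact hb
    · exact ha
  · unfold cW
    apply Finset.prod_eq_zero (Finset.mem_univ l)
    split_ifs
    · exact ha
    · exact hb

theorem omg_perm (σ : Equiv.Perm (Fin q)) (i : Fin q → Fin n) (x : Fin n → ℝ) :
    omg a b (i ∘ σ) x = ((Equiv.Perm.sign σ : ℤ) : ℝ) • omg a b i x := by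
  unfold omg
  have e1 : cG a b (i ∘ σ) x = cG a b i x := by
    unfold cG
    refine Finset.prod_congr rfl fun l _ => ?_
    have hiff : l ∈ Set.range (i ∘ σ) ↔ l ∈ Set.range i := by
      rw [σ.surjective.range_comp]
    by_cases hl : l ∈ Set.range i
    · rw [if_pos (hiff.2 hl), if_pos hl]
    · rw [if_neg (fun hh => hl (hiff.1 hh)), if_neg hl]
  rw [e1, dxT_perm, smul_comm]

theorem sum_smulRight (c : Fin n → ℝ) (w : (Fin n → ℝ) [⋀^Fin q]→L[ℝ] ℝ) :
    (∑ j, c j • (ContinuousLinearMap.proj (R := ℝ) (φ := fun _ : Fin n => ℝ) j)).smulRight w =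
      ∑ j, c j • (ContinuousLinearMap.proj (R := ℝ) (φ := fun _ : Fin n => ℝ) j).smulRight w := by
  refine ContinuousLinearMap.ext fun v => ?_
  rw [ContinuousLinearMap.smulRight_apply, _root_.sum_apply, _root_.sum_apply, Finset.sum_smul]
  refine Finset.sum_congr rfl fun j _ => ?_
  simp only [_root_.smul_apply, ContinuousLinearMap.smulRight_apply, smul_smul, smul_eq_mul]

/-- derivative of a product of functions of the coordinates. -/
theorem hasFDerivAt_prodfun {f : Fin n → ℝ → ℝ} {f' : Fin n → ℝ} {x : Fin n → ℝ}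
    (h : ∀ l, HasDerivAt (f l) (f' l) (x l)) :
    HasFDerivAt (fun x : Fin n → ℝ => ∏ l, f l (x l))
      (∑ j, ((∏ l ∈ Finset.univ.erase j, f l (x l)) * f' j) •
        (ContinuousLinearMap.proj (R := ℝ) (φ := fun _ : Fin n => ℝ) j)) x := by
  have h1 : ∀ l, HasFDerivAt (fun x : Fin n → ℝ => f l (x l))
      (f' l • (ContinuousLinearMap.proj (R := ℝ) (φ := fun _ : Fin n => ℝ) l)) x := fun l =>
    (h l).comp_hasFDerivAt x (ContinuousLinearMap.proj (R := ℝ) (φ := fun _ : Fin n => ℝ) l).hasFDerivAt
  have h2 := HasFDerivAt.finsetProd (u := Finset.univ) (g := fun l (x : Fin n → ℝ) => f l (x l))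
    (fun l _ => h1 l)
  refine (h2.congr_fderiv ?_)
  refine Finset.sum_congr rfl fun j _ => ?_
  rw [smul_smul]

/-- `d ω_i = ∑_j sign(x_j) ω_{(j, i)}`. -/
theorem extDeriv_omg (h : BumpPair r a b) (i : Fin q → Fin n) (x : Fin n → ℝ) :
    extDeriv (omg a b i) x =
      ∑ j, Real.sign (x j) • omg a b (Fin.cons j i : Fin (q + 1) → Fin n) x := by
  classical
  have hda : ∀ t, HasDerivAt a (deriv a t) t := fun t =>
    ((h.a_smooth.differentiable (by simp)) t).hasDerivAt
  have hdb : ∀ t, HasDerivAt b (deriv b t) t := fun t =>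
    ((h.b_smooth.differentiable (by simp)) t).hasDerivAt
  have h1 : HasFDerivAt (cG a b i)
      (∑ j, ((∏ l ∈ Finset.univ.erase j, if l ∈ Set.range i then b (x l) else a (x l)) *
        (if j ∈ Set.range i then deriv b (x j) else deriv a (x j))) •
        (ContinuousLinearMap.proj (R := ℝ) (φ := fun _ : Fin n => ℝ) j)) x := by
    have h2 := hasFDerivAt_prodfun (f := fun l t => if l ∈ Set.range i then b t else a t)
      (f' := fun j => if j ∈ Set.range i then deriv b (x j) else deriv a (x j)) (x := x) (by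
        intro l
        by_cases hl : l ∈ Set.range i
        · simp only [hl, if_true]
          exact hdb _
        · simp only [hl, if_false]
          exact hda _)
    have e : cG a b i = fun x : Fin n → ℝ => ∏ l, if l ∈ Set.range i then b (x l) else a (x l) := by
      funext y
      unfold cG
      refine Finset.prod_congr rfl fun l _ => ?_
      by_cases hl : l ∈ Set.range i <;> simp only [hl, if_true, if_false]
    rw [e]
    exact h2
  have h3 : HasFDerivAt (omg a b i)
      (∑ j, ((∏ l ∈ Finset.univ.erase j, if l ∈ Set.range i then b (x l) else a (x l)) *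
        (if j ∈ Set.range i then deriv b (x j) else deriv a (x j))) •
        ((ContinuousLinearMap.proj (R := ℝ) (φ := fun _ : Fin n => ℝ) j).smulRight (dxT i))) x := by
    have h4 := h1.smul_const (dxT i)
    exact h4.congr_fderiv (sum_smulRight _ _)
  show ContinuousAlternatingMap.alternatizeUncurryFin (fderiv ℝ (omg a b i) x) = _
  rw [h3.fderiv, ← ContinuousAlternatingMap.alternatizeUncurryFinCLM_apply, map_sum]
  refine Finset.sum_congr rfl fun j _ => ?_
  rw [map_smul, ContinuousAlternatingMap.alternatizeUncurryFinCLM_apply, wedge_dxT]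
  unfold omg
  by_cases hj : j ∈ Set.range i
  · have hni : ¬ Function.Injective (Fin.cons j i : Fin (q + 1) → Fin n) := by
      intro hinj
      obtain ⟨c, hc⟩ := hj
      have h5 : (Fin.cons j i : Fin (q + 1) → Fin n) 0 =
          (Fin.cons j i : Fin (q + 1) → Fin n) c.succ := by
        simp [hc]
      exact absurd (hinj h5) (Fin.succ_ne_zero c).symm
    rw [dxT_of_not_injective hni]
    simp
  · rw [if_neg hj, h.deriv_a, smul_smul]
    congr 1
    have e2 : cG a b (Fin.cons j i : Fin (q + 1) → Fin n) x =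
        b (x j) * ∏ l ∈ Finset.univ.erase j, if l ∈ Set.range i then b (x l) else a (x l) := by
      unfold cG
      rw [← Finset.mul_prod_erase _ _ (Finset.mem_univ j)]
      congr 1
      · rw [if_pos]
        exact ⟨0, by simp⟩
      · refine Finset.prod_congr rfl fun l hl => ?_
        have hlj : l ≠ j := (Finset.mem_erase.1 hl).1
        have hiff : l ∈ Set.range (Fin.cons j i : Fin (q + 1) → Fin n) ↔ l ∈ Set.range i := by
          rw [Fin.range_cons]
          simp [hlj]
        by_cases hr : l ∈ Set.range i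
        · rw [if_pos (hiff.2 hr), if_pos hr]
        · rw [if_neg (fun hh => hr (hiff.1 hh)), if_neg hr]
    rw [e2]
    ring

/-- `ω_{(j,i)}` vanishes near the hyperplane `x_j = 0`. -/
theorem omg_cons_zero (h : BumpPair r a b) : ∃ r₁ : ℝ, 0 < r₁ ∧ ∀ (q : ℕ) (i : Fin q → Fin n)
    (j : Fin n) (x : Fin n → ℝ), |x j| ≤ r₁ →
      omg a b (Fin.cons j i : Fin (q + 1) → Fin n) x = 0 := by
  obtain ⟨r₁, h0, h1⟩ := h.b_zero
  refine ⟨r₁, h0, fun q i j x hx => ?_⟩
  unfold omg
  have e : cG a b (Fin.cons j i : Fin (q + 1) → Fin n) x = 0 := by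
    unfold cG
    apply Finset.prod_eq_zero (Finset.mem_univ j)
    rw [if_pos ⟨0, by simp⟩]
    exact h1 _ hx
  rw [e, zero_smul]

open Classical in
/-- the parity of `ω_i`. -/
theorem omg_flip (h : BumpPair r a b) (k : Fin n) (i : Fin q → Fin n) (x : Fin n → ℝ) :
    (omg a b i (flipL k x)).compContinuousLinearMap (flipL k) =
      (if k ∈ Set.range i then (-1 : ℝ) else 1) • omg a b i x := by
  have e1 : cG a b i (flipL k x) = cG a b i x := by
    unfold cG
    refine Finset.prod_congr rfl fun l _ => ?_
    rw [flipL_apply]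
    by_cases hl : l = k
    · rw [if_pos hl, h.a_even, h.b_even]
    · rw [if_neg hl]
  have e2 : (omg a b i (flipL k x)).compContinuousLinearMap (flipL k) =
      cG a b i (flipL k x) • (dxT i).compContinuousLinearMap (flipL k) := by
    ext v
    rfl
  rw [e2, e1, dxT_flip, smul_comm]
  rfl

/-- `∂_{i_k} W_i = sign(x_{i_k}) W_{i without i_k}`. -/
theorem fderiv_cW (h : BumpPair r a b) {i : Fin (q + 1) → Fin n} (hi : Function.Injective i)
    (k : Fin (q + 1)) (x : Fin n → ℝ) :
    fderiv ℝ (cW a b i) x (Pi.single (i k) 1) =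
      Real.sign (x (i k)) * cW a b (k.removeNth i : Fin q → Fin n) x := by
  classical
  have hda : ∀ t, HasDerivAt a (deriv a t) t := fun t =>
    ((h.a_smooth.differentiable (by simp)) t).hasDerivAt
  have hdb : ∀ t, HasDerivAt b (deriv b t) t := fun t =>
    ((h.b_smooth.differentiable (by simp)) t).hasDerivAt
  have h1 : HasFDerivAt (cW a b i)
      (∑ j, ((∏ l ∈ Finset.univ.erase j, if l ∈ Set.range i then a (x l) else b (x l)) *
        (if j ∈ Set.range i then deriv a (x j) else deriv b (x j))) •
        (ContinuousLinearMap.proj (R := ℝ) (φ := fun _ : Fin n => ℝ) j)) x := by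
    have h2 := hasFDerivAt_prodfun (f := fun l t => if l ∈ Set.range i then a t else b t)
      (f' := fun j => if j ∈ Set.range i then deriv a (x j) else deriv b (x j)) (x := x) (by
        intro l
        by_cases hl : l ∈ Set.range i
        · simp only [hl, if_true]
          exact hda _
        · simp only [hl, if_false]
          exact hdb _)
    have e : cW a b i = fun x : Fin n → ℝ => ∏ l, if l ∈ Set.range i then a (x l) else b (x l) := by
      funext y
      unfold cW
      refine Finset.prod_congr rfl fun l _ => ?_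
      by_cases hl : l ∈ Set.range i <;> simp only [hl, if_true, if_false]
    rw [e]
    exact h2
  have hmem : i k ∈ Set.range i := ⟨k, rfl⟩
  rw [h1.fderiv, _root_.sum_apply, Finset.sum_eq_single (i k)]
  · simp only [_root_.smul_apply, ContinuousLinearMap.proj_apply, Pi.single_eq_same,
      smul_eq_mul, mul_one]
    rw [if_pos hmem, h.deriv_a]
    have hnot : i k ∉ Set.range (k.removeNth i : Fin q → Fin n) := by
      rintro ⟨c, hc⟩
      have h5 : i (k.succAbove c) = i k := hc
      exact Fin.succAbove_ne k c (hi h5)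
    have e2 : cW a b (k.removeNth i : Fin q → Fin n) x = b (x (i k)) *
        ∏ l ∈ Finset.univ.erase (i k), if l ∈ Set.range i then a (x l) else b (x l) := by
      unfold cW
      rw [← Finset.mul_prod_erase _ _ (Finset.mem_univ (i k)), if_neg hnot]
      congr 1
      refine Finset.prod_congr rfl fun l hl => ?_
      have hlj : l ≠ i k := (Finset.mem_erase.1 hl).1
      have hiff : l ∈ Set.range (k.removeNth i : Fin q → Fin n) ↔ l ∈ Set.range i := by
        constructor
        · rintro ⟨c, hc⟩
          exact ⟨k.succAbove c, hc⟩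
        · rintro ⟨c, hc⟩
          have hck : c ≠ k := fun hh => hlj (by rw [← hc, hh])
          obtain ⟨d, hd⟩ := Fin.exists_succAbove_eq hck
          exact ⟨d, by show i (k.succAbove d) = l; rw [hd, hc]⟩
      by_cases hr : l ∈ Set.range i
      · rw [if_pos (hiff.2 hr), if_pos hr]
      · rw [if_neg (fun hh => hr (hiff.1 hh)), if_neg hr]
    rw [e2]
    ring
  · intro j _ hj
    rw [_root_.smul_apply, ContinuousLinearMap.proj_apply, Pi.single_eq_of_ne hj, smul_zero]
  · intro hh
    exact absurd (Finset.mem_univ _) hh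

/-- the total pairing is `2ⁿ (∫ a b)ⁿ ≠ 0`. -/
theorem total_omg (h : BumpPair r a b) (n : ℕ) :
    ∑ q ∈ Finset.range (n + 1), ((q.factorial : ℝ))⁻¹ * ∑ i : Fin q → Fin n,
      ∫ x, cW a b i x * omg a b i x (fun c => Pi.single (i c) 1) ≠ 0 := by
  classical
  have hint : ∫ x : Fin n → ℝ, ∏ l, (a (x l) * b (x l)) = (-1) ^ n := by
    rw [integral_fintype_prod_volume_eq_prod (fun (_ : Fin n) (t : ℝ) => a t * b t), h.integral,
      Finset.prod_const, Finset.card_univ, Fintype.card_fin]
  have hterm : ∀ (q : ℕ) (i : Fin q → Fin n),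
      ∫ x, cW a b i x * omg a b i x (fun c => Pi.single (i c) 1) =
        if Function.Injective i then (-1 : ℝ) ^ n else 0 := by
    intro q i
    split_ifs with hi
    · rw [← hint]
      congr 1
      funext x
      have e1 : omg a b i x (fun c => Pi.single (i c) 1) = cG a b i x := by
        show cG a b i x * dxT i (fun c => Pi.single (i c) 1) = _
        rw [dxT_basis hi, mul_one]
      rw [e1]
      unfold cW cG
      rw [← Finset.prod_mul_distrib]
      refine Finset.prod_congr rfl fun l _ => ?_
      split_ifs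
      · rfl
      · ring
    · have e1 : ∀ x, omg a b i x (fun c => Pi.single (i c) 1) = 0 := by
        intro x
        show cG a b i x * dxT i (fun c => Pi.single (i c) 1) = _
        rw [dxT_of_not_injective hi]
        simp
      simp [e1]
  have hsum : ∀ q : ℕ, ((q.factorial : ℝ))⁻¹ * ∑ i : Fin q → Fin n,
      ∫ x, cW a b i x * omg a b i x (fun c => Pi.single (i c) 1) =
        (n.choose q : ℝ) * (-1) ^ n := by
    intro q
    rw [Finset.sum_congr rfl fun i _ => hterm q i, ← Finset.sum_filter, Finset.sum_const,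
      nsmul_eq_mul]
    have hcard : (Finset.univ.filter fun i : Fin q → Fin n => Function.Injective i).card =
        n.descFactorial q := by
      have e1 := Fintype.card_embedding_eq (α := Fin q) (β := Fin n)
      rw [Fintype.card_fin, Fintype.card_fin] at e1
      rw [← e1, ← Fintype.card_subtype]
      exact Fintype.card_congr (Equiv.subtypeInjectiveEquivEmbedding _ _)
    rw [hcard, Nat.descFactorial_eq_factorial_mul_choose]
    have hf : (q.factorial : ℝ) ≠ 0 := by exact_mod_cast Nat.factorial_ne_zero q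
    push_cast
    field_simp
  rw [Finset.sum_congr rfl fun q _ => hsum q, ← Finset.sum_mul]
  have h2 : ∑ q ∈ Finset.range (n + 1), (n.choose q : ℝ) = 2 ^ n := by
    exact_mod_cast Nat.sum_range_choose n
  rw [h2]
  apply mul_ne_zero <;> apply pow_ne_zero <;> norm_num

end Pool.Agent.ZSp
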