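import Pool.Agent.Work.MP_058ed1_gt.C.PullB

/-!
# Corner theorem, module EPS: multiplication by the sign of a smooth function on `L²Ω^p(X)`
-/

open scoped Manifold ContDiff Topology Bundle ENNReal NNReal
open Set MeasureTheory Bundle Filter

set_option linter.unusedSectionVars false

noncomputable section

namespace Pool.Agent.ZSp


variable {E : Type*} [NormedAddCommGroup E] [InnerProductSpace ℝ E] [FiniteDimensional ℝ E]
  {X : Type*} [EMetricSpace X] [ChartedSpace E X]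
  [IsManifold 𝓘(ℝ, E) ∞ X] [RiemannianBundle (fun x : X => TangentSpace 𝓘(ℝ, E) x)]
  [IsContMDiffRiemannianBundle 𝓘(ℝ, E) ∞ E (fun x : X => TangentSpace 𝓘(ℝ, E) x)]
  [IsRiemannianManifold 𝓘(ℝ, E) X] [MeasurableSpace X] [BorelSpace X] {p : ℕ}

/-- the smoothed sign of `τ`. -/
def stpk (τ : X → ℝ) (k : ℕ) : X → ℝ := fun x => stp (k * τ x)

theorem stpk_smooth {τ : X → ℝ} (hτ : ContMDiff 𝓘(ℝ, E) 𝓘(ℝ, ℝ) ∞ τ) (k : ℕ) :
    ContMDiff 𝓘(ℝ, E) 𝓘(ℝ, ℝ) ∞ (stpk τ k) := by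
  have h1 : ContDiff ℝ ∞ (fun t : ℝ => stp (k * t)) :=
    stp_contDiff.comp (contDiff_const.mul contDiff_id)
  exact h1.comp_contMDiff hτ

theorem abs_stpk_le (τ : X → ℝ) (k : ℕ) (x : X) : |stpk τ k x| ≤ 1 := abs_stp_le _

/-- pointwise square of the difference of two multiples. -/
theorem pin_mulC_sub {f g : X → ℝ} (hf : ContMDiff 𝓘(ℝ, E) 𝓘(ℝ, ℝ) ∞ f)
    (hg : ContMDiff 𝓘(ℝ, E) 𝓘(ℝ, ℝ) ∞ g) (a : OmC E X p) (x : X) :
    pin (mulC f hf a - mulC g hg a).1 (mulC f hf a - mulC g hg a).1 x =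
      (f x - g x) ^ 2 * pin a.1 a.1 x := by
  have h1 : (mulC f hf a - mulC g hg a).1 x = (f x - g x) • a.1 x := by
    show f x • a.1 x - g x • a.1 x = _
    exact (sub_smul _ _ _).symm
  show ainner ((mulC f hf a - mulC g hg a).1 x) ((mulC f hf a - mulC g hg a).1 x) = _
  rw [h1, ainner_smul_left, ainner_comm, ainner_smul_left]
  show _ = (f x - g x) ^ 2 * ainner (a.1 x) (a.1 x)
  ring

theorem tendsto_norm_stpk {τ : X → ℝ} (hτ : ContMDiff 𝓘(ℝ, E) 𝓘(ℝ, ℝ) ∞ τ) (a : OmC E X p) :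
    Tendsto (fun n : ℕ × ℕ =>
      ‖mulC (stpk τ n.1) (stpk_smooth hτ n.1) a - mulC (stpk τ n.2) (stpk_smooth hτ n.2) a‖ ^ 2)
      atTop (𝓝 0) := by
  have h0 : ∀ n : ℕ × ℕ,
      ‖mulC (stpk τ n.1) (stpk_smooth hτ n.1) a - mulC (stpk τ n.2) (stpk_smooth hτ n.2) a‖ ^ 2 =
      ∫ x, pin (mulC (stpk τ n.1) (stpk_smooth hτ n.1) a -
        mulC (stpk τ n.2) (stpk_smooth hτ n.2) a).1 (mulC (stpk τ n.1) (stpk_smooth hτ n.1) a -
        mulC (stpk τ n.2) (stpk_smooth hτ n.2) a).1 x ∂(vol E X) := fun n => norm_sq_eq _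
  simp only [h0]
  have h1 : (∫ _x : X, (0 : ℝ) ∂(vol E X)) = 0 := by simp
  rw [← h1]
  refine tendsto_integral_filter_of_dominated_convergence (fun x => 4 * pin a.1 a.1 x) ?_ ?_ ?_ ?_
  · exact Eventually.of_forall fun n => (integrable_pin
      (mulC (stpk τ n.1) (stpk_smooth hτ n.1) a - mulC (stpk τ n.2) (stpk_smooth hτ n.2) a).2
      (mulC (stpk τ n.1) (stpk_smooth hτ n.1) a -
        mulC (stpk τ n.2) (stpk_smooth hτ n.2) a).2).aestronglyMeasurable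
  · refine Eventually.of_forall fun n => Eventually.of_forall fun x => ?_
    rw [pin_mulC_sub, Real.norm_eq_abs, abs_mul, abs_of_nonneg (pin_self_nonneg a.1 x),
      abs_of_nonneg (sq_nonneg _)]
    apply mul_le_mul_of_nonneg_right _ (pin_self_nonneg a.1 x)
    have e1 := abs_le.1 (abs_stpk_le τ n.1 x)
    have e2 := abs_le.1 (abs_stpk_le τ n.2 x)
    nlinarith [e1.1, e1.2, e2.1, e2.2]
  · exact (integrable_pin a.2 a.2).const_mul 4
  · refine Eventually.of_forall fun x => ?_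
    simp only [pin_mulC_sub]
    have t1 : Tendsto (fun n : ℕ × ℕ => stpk τ n.1 x) atTop (𝓝 (Real.sign (τ x))) := by
      rw [← prod_atTop_atTop_eq]
      exact (stp_tendsto (τ x)).comp tendsto_fst
    have t2 : Tendsto (fun n : ℕ × ℕ => stpk τ n.2 x) atTop (𝓝 (Real.sign (τ x))) := by
      rw [← prod_atTop_atTop_eq]
      exact (stp_tendsto (τ x)).comp tendsto_snd
    have t3 := ((t1.sub t2).pow 2).mul_const (pin a.1 a.1 x)
    simpa using t3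

theorem cauchySeq_mulC {τ : X → ℝ} (hτ : ContMDiff 𝓘(ℝ, E) 𝓘(ℝ, ℝ) ∞ τ) (a : OmC E X p) :
    CauchySeq (fun k : ℕ => mulC (stpk τ k) (stpk_smooth hτ k) a) := by
  rw [cauchySeq_iff_tendsto_dist_atTop_0]
  have h1 := (Real.continuous_sqrt.tendsto 0).comp (tendsto_norm_stpk hτ a)
  rw [Real.sqrt_zero] at h1
  refine h1.congr fun n => ?_
  rw [Function.comp_apply, Real.sqrt_sq (norm_nonneg _), dist_eq_norm]

theorem cauchySeq_stpk {τ : X → ℝ} (hτ : ContMDiff 𝓘(ℝ, E) 𝓘(ℝ, ℝ) ∞ τ) (a : OmC E X p) :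
    CauchySeq (fun k : ℕ => (mulC (stpk τ k) (stpk_smooth hτ k) a : L2F E X p)) :=
  (cauchySeq_mulC hτ a).map (UniformSpace.Completion.uniformContinuous_coe _)

/-- the limit as a linear map. -/
def ECl {τ : X → ℝ} (hτ : ContMDiff 𝓘(ℝ, E) 𝓘(ℝ, ℝ) ∞ τ) (p : ℕ) :
    OmC E X p →ₗ[ℝ] L2F E X p where
  toFun a := (cauchySeq_tendsto_of_complete (cauchySeq_stpk hτ a)).choose
  map_add' a b := by
    have h1 := (cauchySeq_tendsto_of_complete (cauchySeq_stpk hτ a)).choose_spec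
    have h2 := (cauchySeq_tendsto_of_complete (cauchySeq_stpk hτ b)).choose_spec
    have h3 := (cauchySeq_tendsto_of_complete (cauchySeq_stpk hτ (a + b))).choose_spec
    refine tendsto_nhds_unique h3 ((h1.add h2).congr fun k => ?_)
    rw [map_add, UniformSpace.Completion.coe_add]
  map_smul' r a := by
    have h1 := (cauchySeq_tendsto_of_complete (cauchySeq_stpk hτ a)).choose_spec
    have h3 := (cauchySeq_tendsto_of_complete (cauchySeq_stpk hτ (r • a))).choose_spec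
    refine tendsto_nhds_unique h3 ((h1.const_smul r).congr fun k => ?_)
    rw [map_smul, UniformSpace.Completion.coe_smul]

theorem ECl_tendsto {τ : X → ℝ} (hτ : ContMDiff 𝓘(ℝ, E) 𝓘(ℝ, ℝ) ∞ τ) (a : OmC E X p) :
    Tendsto (fun k : ℕ => (mulC (stpk τ k) (stpk_smooth hτ k) a : L2F E X p)) atTop
      (𝓝 (ECl hτ p a)) :=
  (cauchySeq_tendsto_of_complete (cauchySeq_stpk hτ a)).choose_spec

theorem norm_ECl_le {τ : X → ℝ} (hτ : ContMDiff 𝓘(ℝ, E) 𝓘(ℝ, ℝ) ∞ τ) (a : OmC E X p) :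
    ‖ECl hτ p a‖ ≤ 1 * ‖a‖ := by
  refine le_of_tendsto (ECl_tendsto hτ a).norm (Eventually.of_forall fun k => ?_)
  rw [norm_coe]
  exact norm_mulC_le (stpk_smooth hτ k) (abs_stpk_le τ k) a

theorem exists_EC {τ : X → ℝ} (hτ : ContMDiff 𝓘(ℝ, E) 𝓘(ℝ, ℝ) ∞ τ) (p : ℕ) :
    ∃ T : L2F E X p →L[ℝ] L2F E X p, ∀ a : OmC E X p,
      Tendsto (fun k : ℕ => (mulC (stpk τ k) (stpk_smooth hτ k) a : L2F E X p)) atTop
        (𝓝 (T a)) := by
  refine ⟨extC (ECl hτ p) ⟨1, norm_ECl_le hτ⟩, fun a => ?_⟩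
  rw [extC_coe]
  exact ECl_tendsto hτ a

/-- multiplication by `sign τ` on `L²Ω^p(X)`. -/
def EC {τ : X → ℝ} (hτ : ContMDiff 𝓘(ℝ, E) 𝓘(ℝ, ℝ) ∞ τ) (p : ℕ) :
    L2F E X p →L[ℝ] L2F E X p := (exists_EC hτ p).choose

theorem EC_tendsto {τ : X → ℝ} (hτ : ContMDiff 𝓘(ℝ, E) 𝓘(ℝ, ℝ) ∞ τ) (a : OmC E X p) :
    Tendsto (fun k : ℕ => (mulC (stpk τ k) (stpk_smooth hτ k) a : L2F E X p)) atTop
      (𝓝 (EC hτ p a)) := (exists_EC hτ p).choose_spec a

theorem EC_of_eventually {τ : X → ℝ} (hτ : ContMDiff 𝓘(ℝ, E) 𝓘(ℝ, ℝ) ∞ τ) (a b : OmC E X p)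
    (h : ∀ᶠ k : ℕ in atTop, mulC (stpk τ k) (stpk_smooth hτ k) a = b) :
    EC hτ p a = (b : L2F E X p) := by
  refine tendsto_nhds_unique (EC_tendsto hτ a) (tendsto_const_nhds.congr' ?_)
  filter_upwards [h] with k hk
  rw [hk]

/-- `EC` does not increase the norm. -/
theorem norm_EC_le {τ : X → ℝ} (hτ : ContMDiff 𝓘(ℝ, E) 𝓘(ℝ, ℝ) ∞ τ) (a : L2F E X p) :
    ‖EC hτ p a‖ ≤ ‖a‖ := by
  induction a using UniformSpace.Completion.induction_on with
  | hp => exact isClosed_le (EC hτ p).continuous.norm continuous_norm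
  | ih a =>
    refine le_of_tendsto (EC_tendsto hτ a).norm (Eventually.of_forall fun k => ?_)
    rw [norm_coe, norm_coe]
    simpa using norm_mulC_le (stpk_smooth hτ k) (abs_stpk_le τ k) a

theorem norm_coeL_mulC_le {f : X → ℝ} (hf : ContMDiff 𝓘(ℝ, E) 𝓘(ℝ, ℝ) ∞ f)
    (h1 : ∀ x, |f x| ≤ 1) (p : ℕ) :
    ∃ C : ℝ, ∀ a : OmC E X p, ‖(coeL.comp (mulC f hf) : OmC E X p →ₗ[ℝ] L2F E X p) a‖ ≤ C * ‖a‖ := by
  refine ⟨1, fun a => ?_⟩
  show ‖(mulC f hf a : L2F E X p)‖ ≤ 1 * ‖a‖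
  rw [norm_coe]
  exact norm_mulC_le hf h1 a

/-- multiplication by a smooth function bounded by `1` on `L²Ω^p(X)`. -/
def MC {f : X → ℝ} (hf : ContMDiff 𝓘(ℝ, E) 𝓘(ℝ, ℝ) ∞ f) (h1 : ∀ x, |f x| ≤ 1) (p : ℕ) :
    L2F E X p →L[ℝ] L2F E X p :=
  extC (coeL.comp (mulC f hf)) (norm_coeL_mulC_le hf h1 p)

theorem MC_coe {f : X → ℝ} (hf : ContMDiff 𝓘(ℝ, E) 𝓘(ℝ, ℝ) ∞ f) (h1 : ∀ x, |f x| ≤ 1)
    (a : OmC E X p) : MC hf h1 p a = (mulC f hf a : L2F E X p) := extC_coe _ _ _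

theorem norm_MC_le {f : X → ℝ} (hf : ContMDiff 𝓘(ℝ, E) 𝓘(ℝ, ℝ) ∞ f) (h1 : ∀ x, |f x| ≤ 1)
    (a : L2F E X p) : ‖MC hf h1 p a‖ ≤ ‖a‖ := by
  induction a using UniformSpace.Completion.induction_on with
  | hp => exact isClosed_le (MC hf h1 p).continuous.norm continuous_norm
  | ih a =>
    rw [MC_coe, norm_coe, norm_coe]
    simpa using norm_mulC_le hf h1 a

theorem mulC_comm {f g : X → ℝ} (hf : ContMDiff 𝓘(ℝ, E) 𝓘(ℝ, ℝ) ∞ f)
    (hg : ContMDiff 𝓘(ℝ, E) 𝓘(ℝ, ℝ) ∞ g) (a : OmC E X p) :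
    mulC f hf (mulC g hg a) = mulC g hg (mulC f hf a) := by
  apply Subtype.ext
  funext x
  show f x • (g x • a.1 x) = g x • (f x • a.1 x)
  rw [smul_comm]

/-- `EC` commutes with the multiplication by a smooth function. -/
theorem EC_MC {τ : X → ℝ} (hτ : ContMDiff 𝓘(ℝ, E) 𝓘(ℝ, ℝ) ∞ τ) {f : X → ℝ}
    (hf : ContMDiff 𝓘(ℝ, E) 𝓘(ℝ, ℝ) ∞ f) (h1 : ∀ x, |f x| ≤ 1) (a : L2F E X p) :
    EC hτ p (MC hf h1 p a) = MC hf h1 p (EC hτ p a) := by
  have key : (fun a : L2F E X p => EC hτ p (MC hf h1 p a)) =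
      fun a : L2F E X p => MC hf h1 p (EC hτ p a) := by
    refine L2F_ext ((EC hτ p).continuous.comp (MC hf h1 p).continuous)
      ((MC hf h1 p).continuous.comp (EC hτ p).continuous) fun a => ?_
    rw [MC_coe]
    refine tendsto_nhds_unique (EC_tendsto hτ (mulC f hf a))
      ((((MC hf h1 p).continuous.tendsto _).comp (EC_tendsto hτ a)).congr fun k => ?_)
    rw [Function.comp_apply, MC_coe, mulC_comm]
  exact congrFun key a

/-- `EC` is the strong limit of the multiplications by the smoothed signs. -/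
theorem MC_tendsto {τ : X → ℝ} (hτ : ContMDiff 𝓘(ℝ, E) 𝓘(ℝ, ℝ) ∞ τ) (b : L2F E X p) :
    Tendsto (fun k : ℕ => MC (stpk_smooth hτ k) (abs_stpk_le τ k) p b) atTop
      (𝓝 (EC hτ p b)) := by
  rw [Metric.tendsto_atTop]
  intro ε hε
  obtain ⟨a, ha⟩ := (UniformSpace.Completion.denseRange_coe (α := OmC E X p)).exists_dist_lt b
    (show 0 < ε / 3 by positivity)
  obtain ⟨N, hN⟩ := Metric.tendsto_atTop.1 (EC_tendsto hτ a) (ε / 3) (by positivity)
  refine ⟨N, fun k hk => ?_⟩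
  have h1 : dist (MC (stpk_smooth hτ k) (abs_stpk_le τ k) p b)
      (MC (stpk_smooth hτ k) (abs_stpk_le τ k) p a) < ε / 3 := by
    rw [dist_eq_norm, ← map_sub]
    refine (norm_MC_le _ _ _).trans_lt ?_
    rwa [← dist_eq_norm]
  have h2 : dist (MC (stpk_smooth hτ k) (abs_stpk_le τ k) p (a : L2F E X p)) (EC hτ p a) < ε / 3 := by
    rw [MC_coe]
    exact hN k hk
  have h3 : dist (EC hτ p (a : L2F E X p)) (EC hτ p b) < ε / 3 := by
    rw [dist_eq_norm, ← map_sub]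
    refine (norm_EC_le hτ _).trans_lt ?_
    rwa [← dist_eq_norm, dist_comm]
  calc dist (MC (stpk_smooth hτ k) (abs_stpk_le τ k) p b) (EC hτ p b)
      ≤ dist (MC (stpk_smooth hτ k) (abs_stpk_le τ k) p b)
          (MC (stpk_smooth hτ k) (abs_stpk_le τ k) p a) +
        dist (MC (stpk_smooth hτ k) (abs_stpk_le τ k) p (a : L2F E X p)) (EC hτ p a) +
        dist (EC hτ p (a : L2F E X p)) (EC hτ p b) := dist_triangle4 _ _ _ _
    _ < ε / 3 + ε / 3 + ε / 3 := by gcongr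
    _ = ε := by ring

theorem EC_comm {τ τ' : X → ℝ} (hτ : ContMDiff 𝓘(ℝ, E) 𝓘(ℝ, ℝ) ∞ τ)
    (hτ' : ContMDiff 𝓘(ℝ, E) 𝓘(ℝ, ℝ) ∞ τ') (a : L2F E X p) :
    EC hτ p (EC hτ' p a) = EC hτ' p (EC hτ p a) := by
  refine tendsto_nhds_unique (((EC hτ p).continuous.tendsto _).comp (MC_tendsto hτ' a))
    ((MC_tendsto hτ' (EC hτ p a)).congr fun k => ?_)
  rw [Function.comp_apply, EC_MC]

theorem SC_EC_odd {τ : X → ℝ} (hτ : ContMDiff 𝓘(ℝ, E) 𝓘(ℝ, ℝ) ∞ τ) {s : X → X}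
    (h : IsRefl E s) (ho : ∀ x, τ (s x) = - τ x) (a : L2F E X p) :
    SC h p (EC hτ p a) = - EC hτ p (SC h p a) := by
  have key : (fun a : L2F E X p => SC h p (EC hτ p a)) =
      fun a : L2F E X p => - EC hτ p (SC h p a) := by
    refine L2F_ext ((SC h p).continuous.comp (EC hτ p).continuous)
      ((EC hτ p).continuous.comp (SC h p).continuous).neg fun a => ?_
    rw [SC_coe]
    refine tendsto_nhds_unique (((SC h p).continuous.tendsto _).comp (EC_tendsto hτ a))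
      ((EC_tendsto hτ (pullC h a)).neg.congr fun k => ?_)
    rw [Function.comp_apply, SC_coe]
    have hs : ContMDiff 𝓘(ℝ, E) 𝓘(ℝ, ℝ) ∞ (fun x => - stpk τ k x) := (stpk_smooth hτ k).neg
    rw [pullC_mulC h (stpk_smooth hτ k) hs (fun x => by
      show - stp (k * τ x) = stp (k * τ (s x))
      rw [ho, mul_neg, stp_neg])]
    rw [← UniformSpace.Completion.coe_neg]
    congr 1
    apply Subtype.ext
    funext x
    show - (stpk τ k x • (pullC h a).1 x) = (- stpk τ k x) • (pullC h a).1 x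
    exact (neg_smul _ _).symm
  exact congrFun key a

theorem SC_EC_even {τ : X → ℝ} (hτ : ContMDiff 𝓘(ℝ, E) 𝓘(ℝ, ℝ) ∞ τ) {s : X → X}
    (h : IsRefl E s) (he : ∀ x, τ (s x) = τ x) (a : L2F E X p) :
    SC h p (EC hτ p a) = EC hτ p (SC h p a) := by
  have key : (fun a : L2F E X p => SC h p (EC hτ p a)) =
      fun a : L2F E X p => EC hτ p (SC h p a) := by
    refine L2F_ext ((SC h p).continuous.comp (EC hτ p).continuous)
      ((EC hτ p).continuous.comp (SC h p).continuous) fun a => ?_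
    rw [SC_coe]
    refine tendsto_nhds_unique (((SC h p).continuous.tendsto _).comp (EC_tendsto hτ a))
      ((EC_tendsto hτ (pullC h a)).congr fun k => ?_)
    rw [Function.comp_apply, SC_coe]
    rw [pullC_mulC h (stpk_smooth hτ k) (stpk_smooth hτ k) (fun x => by
      show stp (k * τ x) = stp (k * τ (s x))
      rw [he])]
  exact congrFun key a

end Pool.Agent.ZSp
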