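import Mathlib

/-!
# Corner theorem, module VAN: two lemmas on level sets
-/

open scoped Topology ContDiff
open Filter

noncomputable section

namespace Pool.Agent.ZSp

variable {E F : Type*} [NormedAddCommGroup E] [NormedSpace ℝ E]
  [NormedAddCommGroup F] [NormedSpace ℝ F]

theorem exists_apply_eq_one {L : E →L[ℝ] ℝ} (h : L ≠ 0) : ∃ w : E, L w = 1 := by
  obtain ⟨z, hz⟩ : ∃ z, L z ≠ 0 := by
    by_contra hcon
    push Not at hcon
    exact h (ContinuousLinearMap.ext hcon)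
  exact ⟨(L z)⁻¹ • z, by rw [map_smul, smul_eq_mul, inv_mul_cancel₀ hz]⟩

/-- a map which vanishes on the hypersurface `T = 0` has derivative zero along it. -/
theorem fderiv_eq_zero_of_vanish {f : E → F} {T : E → ℝ} {y₀ : E} (hf : DifferentiableAt ℝ f y₀)
    (hT : ContDiffAt ℝ 1 T y₀) (h0 : T y₀ = 0) (hne : fderiv ℝ T y₀ ≠ 0)
    (hv : ∀ᶠ y in 𝓝 y₀, T y = 0 → f y = 0) {u : E} (hu : fderiv ℝ T y₀ u = 0) :
    fderiv ℝ f y₀ u = 0 := by
  obtain ⟨w, hw⟩ := exists_apply_eq_one hne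
  have hf0 : f y₀ = 0 := hv.self_of_nhds h0
  have hTd : HasFDerivAt T (fderiv ℝ T y₀) y₀ :=
    (hT.differentiableAt (by norm_num)).hasFDerivAt
  have hfd := hf.hasFDerivAt
  set f' := fderiv ℝ f y₀ with hf'
  set T' := fderiv ℝ T y₀ with hT'
  -- the estimate for each `ε`
  have key : ∀ ε : ℝ, 0 < ε → ε ≤ 1 →
      ‖f' u‖ ≤ ε * (‖f'‖ * ‖w‖ + (‖u‖ + ‖w‖)) := by
    intro ε hε hε1
    have hpos : 0 < ‖u‖ + ‖w‖ + 1 := by positivity
    have hε' : 0 < ε / (‖u‖ + ‖w‖ + 1) := div_pos hε hpos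
    have e1 := hfd.isLittleO.def hε
    have e2 := hTd.isLittleO.def hε'
    have e3 : ∀ᶠ y in 𝓝 y₀, ContinuousAt T y := by
      have := hT.eventually (by simp)
      filter_upwards [this] with y hy using hy.continuousAt
    obtain ⟨ρ, hρ, hball⟩ := Metric.eventually_nhds_iff_ball.mp (e1.and (e2.and (e3.and hv)))
    -- choose `t`
    set t : ℝ := ρ / (2 * (‖u‖ + ‖w‖ + 1)) with ht
    have htpos : 0 < t := by positivity
    have htρ : t * (‖u‖ + ‖w‖) < ρ := by
      have : t * (‖u‖ + ‖w‖ + 1) = ρ / 2 := by rw [ht]; field_simp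
      nlinarith
    have hmem : ∀ α : ℝ, |α| ≤ ε * t → y₀ + (t • u + α • w) ∈ Metric.ball y₀ ρ := by
      intro α hα
      rw [Metric.mem_ball, dist_eq_norm, add_sub_cancel_left]
      calc ‖t • u + α • w‖ ≤ ‖t • u‖ + ‖α • w‖ := norm_add_le _ _
        _ = t * ‖u‖ + |α| * ‖w‖ := by
            rw [norm_smul, norm_smul, Real.norm_of_nonneg htpos.le, Real.norm_eq_abs]
        _ ≤ t * ‖u‖ + t * ‖w‖ := by
            have : |α| ≤ t := hα.trans (by nlinarith)
            nlinarith [norm_nonneg w]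
        _ < ρ := by rw [← mul_add]; exact htρ
    have hbd : ∀ α : ℝ, |α| ≤ ε * t → ‖t • u + α • w‖ ≤ t * (‖u‖ + ‖w‖) := by
      intro α hα
      calc ‖t • u + α • w‖ ≤ ‖t • u‖ + ‖α • w‖ := norm_add_le _ _
        _ = t * ‖u‖ + |α| * ‖w‖ := by
            rw [norm_smul, norm_smul, Real.norm_of_nonneg htpos.le, Real.norm_eq_abs]
        _ ≤ t * (‖u‖ + ‖w‖) := by
            have : |α| ≤ t := hα.trans (by nlinarith)
            nlinarith [norm_nonneg w]
    have hTest : ∀ α : ℝ, |α| ≤ ε * t → |T (y₀ + (t • u + α • w)) - α| ≤ ε * t := by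
      intro α hα
      have h1 := (hball _ (hmem α hα)).2.1
      rw [h0, sub_zero, add_sub_cancel_left, map_add, map_smul, map_smul, hu, hw, smul_zero,
        zero_add, smul_eq_mul, mul_one, Real.norm_eq_abs] at h1
      refine h1.trans ?_
      calc ε / (‖u‖ + ‖w‖ + 1) * ‖t • u + α • w‖
          ≤ ε / (‖u‖ + ‖w‖ + 1) * (t * (‖u‖ + ‖w‖)) :=
            mul_le_mul_of_nonneg_left (hbd α hα) hε'.le
        _ = ε * t * ((‖u‖ + ‖w‖) / (‖u‖ + ‖w‖ + 1)) := by ring
        _ ≤ ε * t * 1 := by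
            apply mul_le_mul_of_nonneg_left _ (by positivity)
            rw [div_le_one hpos]
            linarith
        _ = ε * t := mul_one _
    -- intermediate value theorem
    have hεt : 0 ≤ ε * t := by positivity
    obtain ⟨α, hα, hα0⟩ : ∃ α : ℝ, |α| ≤ ε * t ∧ T (y₀ + (t • u + α • w)) = 0 := by
      have hcont : ContinuousOn (fun α : ℝ => T (y₀ + (t • u + α • w)))
          (Set.Icc (-(ε * t)) (ε * t)) := by
        intro α hα
        have hα' : |α| ≤ ε * t := abs_le.mpr hα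
        have h1 := (hball _ (hmem α hα')).2.2.1
        have h2 : ContinuousAt (fun α : ℝ => y₀ + (t • u + α • w)) α := by fun_prop
        exact (ContinuousAt.comp (f := fun α : ℝ => y₀ + (t • u + α • w)) h1 h2).continuousWithinAt
      have h1 := hTest (-(ε * t)) (by rw [abs_neg, abs_of_nonneg hεt])
      have h2 := hTest (ε * t) (by rw [abs_of_nonneg hεt])
      rw [abs_le] at h1 h2
      have h3 := intermediate_value_Icc (by linarith) hcont
      have h4 : (0 : ℝ) ∈ Set.Icc (T (y₀ + (t • u + (-(ε * t)) • w)))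
          (T (y₀ + (t • u + (ε * t) • w))) := ⟨by linarith [h1.2], by linarith [h2.1]⟩
      obtain ⟨α, hα, hα0⟩ := h3 h4
      exact ⟨α, abs_le.mpr hα, hα0⟩
    have h5 := (hball _ (hmem α hα)).2.2.2 hα0
    have h6 := (hball _ (hmem α hα)).1
    rw [h5, hf0, sub_zero, add_sub_cancel_left, zero_sub, norm_neg, map_add, map_smul,
      map_smul] at h6
    have h7 : t * ‖f' u‖ ≤ t * (ε * (‖f'‖ * ‖w‖ + (‖u‖ + ‖w‖))) := by
      calc t * ‖f' u‖ = ‖t • f' u‖ := by rw [norm_smul, Real.norm_of_nonneg htpos.le]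
        _ = ‖(t • f' u + α • f' w) - α • f' w‖ := by rw [add_sub_cancel_right]
        _ ≤ ‖t • f' u + α • f' w‖ + ‖α • f' w‖ := norm_sub_le _ _
        _ ≤ ε * (t * (‖u‖ + ‖w‖)) + ε * t * (‖f'‖ * ‖w‖) := by
            apply add_le_add
            · exact h6.trans (mul_le_mul_of_nonneg_left (hbd α hα) hε.le)
            · rw [norm_smul, Real.norm_eq_abs]
              exact mul_le_mul hα (f'.le_opNorm w) (norm_nonneg _) hεt
        _ = _ := by ring
    exact le_of_mul_le_mul_left h7 htpos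
  have h8 : ‖f' u‖ ≤ 0 := by
    have hK : 0 ≤ ‖f'‖ * ‖w‖ + (‖u‖ + ‖w‖) := by positivity
    refine le_of_forall_pos_le_add fun δ hδ => ?_
    rw [zero_add]
    have hε : 0 < min 1 (δ / (‖f'‖ * ‖w‖ + (‖u‖ + ‖w‖) + 1)) := by positivity
    refine (key _ hε (min_le_left _ _)).trans ?_
    calc min 1 (δ / (‖f'‖ * ‖w‖ + (‖u‖ + ‖w‖) + 1)) * (‖f'‖ * ‖w‖ + (‖u‖ + ‖w‖))
        ≤ δ / (‖f'‖ * ‖w‖ + (‖u‖ + ‖w‖) + 1) * (‖f'‖ * ‖w‖ + (‖u‖ + ‖w‖)) :=
          mul_le_mul_of_nonneg_right (min_le_right _ _) hK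
      _ = δ * ((‖f'‖ * ‖w‖ + (‖u‖ + ‖w‖)) / (‖f'‖ * ‖w‖ + (‖u‖ + ‖w‖) + 1)) := by ring
      _ ≤ δ * 1 := by
          apply mul_le_mul_of_nonneg_left _ hδ.le
          rw [div_le_one (by positivity)]
          linarith
      _ = δ := mul_one _
  exact norm_le_zero_iff.mp h8

/-- if `S` is the identity on the hypersurface `T = 0`, its derivative is the identity on the
tangent space of the hypersurface. -/
theorem fderiv_eq_self_of_fix {S : E → E} {T : E → ℝ} {y₀ : E} (hS : DifferentiableAt ℝ S y₀)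
    (hT : ContDiffAt ℝ 1 T y₀) (h0 : T y₀ = 0) (hne : fderiv ℝ T y₀ ≠ 0)
    (hfix : ∀ᶠ y in 𝓝 y₀, T y = 0 → S y = y) {u : E} (hu : fderiv ℝ T y₀ u = 0) :
    fderiv ℝ S y₀ u = u := by
  have h1 : fderiv ℝ (fun y => S y - y) y₀ u = 0 := by
    refine fderiv_eq_zero_of_vanish (f := fun y => S y - y) (hS.sub differentiableAt_id) hT h0
      hne ?_ hu
    filter_upwards [hfix] with y hy hy0
    show S y - y = 0
    rw [hy hy0, sub_self]
  have h2 : fderiv ℝ (fun y => S y - y) y₀ = fderiv ℝ S y₀ - ContinuousLinearMap.id ℝ E :=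
    (hS.hasFDerivAt.sub (hasFDerivAt_id y₀)).fderiv
  rw [h2] at h1
  exact sub_eq_zero.mp h1

/-- a `C¹` map which vanishes on the hypersurface `T = 0` is `O(|T|)` near it. -/
theorem norm_le_of_vanish {Θ : E → F} {T : E → ℝ} {y₀ : E} (hΘ : ContDiffAt ℝ 1 Θ y₀)
    (hT : ContDiffAt ℝ 1 T y₀) (h0 : T y₀ = 0) (hne : fderiv ℝ T y₀ ≠ 0)
    (hv : ∀ᶠ y in 𝓝 y₀, T y = 0 → Θ y = 0) :
    ∃ C : ℝ, ∀ᶠ y in 𝓝 y₀, ‖Θ y‖ ≤ C * |T y| := by
  obtain ⟨w, hw⟩ := exists_apply_eq_one hne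
  have hTs : HasStrictFDerivAt T (fderiv ℝ T y₀) y₀ := hT.hasStrictFDerivAt (by norm_num)
  have hΘs : HasStrictFDerivAt Θ (fderiv ℝ Θ y₀) y₀ := hΘ.hasStrictFDerivAt (by norm_num)
  obtain ⟨K, s, hs, hK⟩ := hΘs.exists_lipschitzOnWith
  have hc : 0 < 1 / (2 * (‖w‖ + 1)) := by positivity
  have e1 := hTs.isLittleO.def hc
  have e3 : ∀ᶠ y in 𝓝 y₀, ContinuousAt T y := by
    have := hT.eventually (by simp)
    filter_upwards [this] with y hy using hy.continuousAt
  obtain ⟨ρ₁, hρ₁, hball₁⟩ := Metric.eventually_nhds_iff_ball.mp (e3.and (hv.and hs))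
  obtain ⟨ρ₂, hρ₂, hball₂⟩ := Metric.eventually_nhds_iff_ball.mp e1
  set ρ := min ρ₁ ρ₂ with hρdef
  have hρ : 0 < ρ := lt_min hρ₁ hρ₂
  refine ⟨K * (2 * ‖w‖), ?_⟩
  have hTc : ContinuousAt T y₀ := hT.continuousAt
  have e4 : ∀ᶠ y in 𝓝 y₀, |T y| < ρ / (4 * (‖w‖ + 1)) := by
    have h1 : Tendsto (fun y => |T y|) (𝓝 y₀) (𝓝 0) := by
      have := hTc.abs
      rw [ContinuousAt, h0, abs_zero] at this
      exact this
    exact h1.eventually_lt_const (by positivity)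
  filter_upwards [e4, Metric.ball_mem_nhds y₀ (half_pos hρ)] with y hy hyb
  -- the points `y + t w`
  have hmem : ∀ t : ℝ, |t| ≤ 2 * |T y| → y + t • w ∈ Metric.ball y₀ ρ := by
    intro t ht
    rw [Metric.mem_ball, dist_eq_norm]
    have h1 : ‖y - y₀‖ < ρ / 2 := by rw [← dist_eq_norm]; exact hyb
    have h2 : ‖t • w‖ ≤ ρ / 2 := by
      rw [norm_smul, Real.norm_eq_abs]
      have h3 : |t| ≤ ρ / (2 * (‖w‖ + 1)) := by
        refine ht.trans ?_
        have : 2 * (ρ / (4 * (‖w‖ + 1))) = ρ / (2 * (‖w‖ + 1)) := by field_simp; norm_num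
        linarith
      calc |t| * ‖w‖ ≤ ρ / (2 * (‖w‖ + 1)) * (‖w‖ + 1) :=
            mul_le_mul h3 (by linarith) (norm_nonneg _) (by positivity)
        _ = ρ / 2 := by field_simp
    calc ‖y + t • w - y₀‖ = ‖(y - y₀) + t • w‖ := by congr 1; abel
      _ ≤ ‖y - y₀‖ + ‖t • w‖ := norm_add_le _ _
      _ < ρ := by linarith
  have hy' : y ∈ Metric.ball y₀ ρ := by
    simpa using hmem 0 (by simp)
  have hest : ∀ t : ℝ, |t| ≤ 2 * |T y| → |T (y + t • w) - T y - t| ≤ |t| / 2 := by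
    intro t ht
    have hp : (y + t • w, y) ∈ Metric.ball ((y₀, y₀) : E × E) ρ₂ := by
      rw [Metric.mem_ball, Prod.dist_eq, max_lt_iff]
      exact ⟨(Metric.mem_ball.mp (hmem t ht)).trans_le (min_le_right _ _),
        (Metric.mem_ball.mp hy').trans_le (min_le_right _ _)⟩
    have h1 := hball₂ _ hp
    simp only [add_sub_cancel_left, map_smul, hw, smul_eq_mul, mul_one, Real.norm_eq_abs] at h1
    refine h1.trans ?_
    rw [norm_smul, Real.norm_eq_abs]
    calc 1 / (2 * (‖w‖ + 1)) * (|t| * ‖w‖) = |t| / 2 * (‖w‖ / (‖w‖ + 1)) := by field_simp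
      _ ≤ |t| / 2 * 1 := by
          apply mul_le_mul_of_nonneg_left _ (by positivity)
          rw [div_le_one (by positivity)]
          linarith
      _ = |t| / 2 := mul_one _
  obtain ⟨t, ht, ht0⟩ : ∃ t : ℝ, |t| ≤ 2 * |T y| ∧ T (y + t • w) = 0 := by
    have hcont : ContinuousOn (fun t : ℝ => T (y + t • w))
        (Set.Icc (-(2 * |T y|)) (2 * |T y|)) := by
      intro t ht
      have ht' : |t| ≤ 2 * |T y| := abs_le.mpr ht
      have h1 := (hball₁ _ (Metric.ball_subset_ball (min_le_left _ _) (hmem t ht'))).1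
      have h2 : ContinuousAt (fun t : ℝ => y + t • w) t := by fun_prop
      exact (ContinuousAt.comp (f := fun t : ℝ => y + t • w) h1 h2).continuousWithinAt
    have hnn : 0 ≤ 2 * |T y| := by positivity
    have h1 := hest (-(2 * |T y|)) (by rw [abs_neg, abs_of_nonneg hnn])
    have h2 := hest (2 * |T y|) (by rw [abs_of_nonneg hnn])
    rw [abs_neg, abs_of_nonneg hnn, abs_le] at h1
    rw [abs_of_nonneg hnn, abs_le] at h2
    have h3 := intermediate_value_Icc (by linarith) hcont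
    have h4 : (0 : ℝ) ∈ Set.Icc (T (y + (-(2 * |T y|)) • w)) (T (y + (2 * |T y|) • w)) :=
      ⟨by linarith [h1.2, le_abs_self (T y)], by linarith [h2.1, neg_abs_le (T y)]⟩
    obtain ⟨t, ht, ht0⟩ := h3 h4
    exact ⟨t, abs_le.mpr ht, ht0⟩
  have hz := (hball₁ _ (Metric.ball_subset_ball (min_le_left _ _) (hmem t ht))).2.1 ht0
  have hzs : y + t • w ∈ s :=
    (hball₁ _ (Metric.ball_subset_ball (min_le_left _ _) (hmem t ht))).2.2
  have hys : y ∈ s := (hball₁ _ (Metric.ball_subset_ball (min_le_left _ _) hy')).2.2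
  have h5 := hK.dist_le_mul y hys (y + t • w) hzs
  rw [hz, dist_zero_right, dist_self_add_right, norm_smul, Real.norm_eq_abs] at h5
  calc ‖Θ y‖ ≤ K * (|t| * ‖w‖) := h5
    _ ≤ K * (2 * |T y| * ‖w‖) := by
        apply mul_le_mul_of_nonneg_left _ K.coe_nonneg
        exact mul_le_mul_of_nonneg_right ht (norm_nonneg _)
    _ = K * (2 * ‖w‖) * |T y| := by ring

end Pool.Agent.ZSp
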