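import Pool.Agent.Work.MP_058ed1_gt.C.PullB
import Pool.Agent.Work.MP_058ed1_gt.C.Van

/-!
# Corner theorem, module LEIB: the Leibniz rule, and `dτ ∧ w` on the mirror
-/

open scoped Manifold ContDiff Topology Bundle ENNReal NNReal
open Set MeasureTheory Bundle Filter

set_option linter.unusedSectionVars false

noncomputable section

namespace Pool.Agent.ZSp

/-! ### alternating maps -/

/-- adding multiples of one argument to the others. -/
theorem alt_shift {ι V : Type*} [DecidableEq ι] [AddCommGroup V] [Module ℝ V]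
    (D : V [⋀^ι]→ₗ[ℝ] ℝ) (v : ι → V) (c : ι → ℝ) (j : ι) (S : Finset ι) (hj : j ∉ S) :
    D (fun k => if k ∈ S then v k - c k • v j else v k) = D v := by
  induction S using Finset.induction_on with
  | empty => simp
  | insert a S ha ih =>
    have hjS : j ∉ S := fun h => hj (Finset.mem_insert_of_mem h)
    have haj : a ≠ j := fun h => hj (h ▸ Finset.mem_insert_self a S)
    rw [← ih hjS]
    set w : ι → V := fun k => if k ∈ S then v k - c k • v j else v k with hw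
    have hwa : w a = v a := by rw [hw]; simp [ha]
    have hwj : w j = v j := by rw [hw]; simp [hjS]
    have h1 : (fun k => if k ∈ insert a S then v k - c k • v j else v k) =
        Function.update w a (w a - c a • w j) := by
      funext k
      by_cases hk : k = a
      · subst hk
        rw [Function.update_self, if_pos (Finset.mem_insert_self _ _), hwa, hwj]
      · rw [Function.update_of_ne hk, hw]
        simp only [Finset.mem_insert, hk, false_or]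
    rw [h1, D.map_update_sub, D.map_update_smul, D.map_update_self _ haj, smul_zero, sub_zero,
      Function.update_eq_self]

variable {E : Type*} [NormedAddCommGroup E] [InnerProductSpace ℝ E] [FiniteDimensional ℝ E]
  {X : Type*} [EMetricSpace X] [ChartedSpace E X]
  [IsManifold 𝓘(ℝ, E) ∞ X] [RiemannianBundle (fun x : X => TangentSpace 𝓘(ℝ, E) x)]
  [IsContMDiffRiemannianBundle 𝓘(ℝ, E) ∞ E (fun x : X => TangentSpace 𝓘(ℝ, E) x)]
  [IsRiemannianManifold 𝓘(ℝ, E) X] [MeasurableSpace X] [BorelSpace X] {p : ℕ}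

variable (E) in
/-- the differential of a function, with values in `ℝ`. -/
def dfun (f : X → ℝ) (x : X) : TangentSpace 𝓘(ℝ, E) x →L[ℝ] ℝ := mfderiv 𝓘(ℝ, E) 𝓘(ℝ, ℝ) f x

/-- the differential of a function in the chart. -/
theorem fderiv_coord_dfun {f : X → ℝ} (hf : ContMDiff 𝓘(ℝ, E) 𝓘(ℝ, ℝ) ∞ f) (x : X)
    (u : TangentSpace 𝓘(ℝ, E) x) :
    fderiv ℝ (fun y => f ((ch E x).symm y)) (ch E x x)
      (mfderiv 𝓘(ℝ, E) 𝓘(ℝ, E) (ch E x) x u) = dfun E f x u := by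
  have hx := ch_self_mem_target (E := E) x
  have h0 : (ch E x).symm (ch E x x) = x := extChartAt_to_inv x
  have h3 : HasMFDerivAt 𝓘(ℝ, E) 𝓘(ℝ, ℝ) (fun y => f ((ch E x).symm y)) (ch E x x)
      ((mfderiv 𝓘(ℝ, E) 𝓘(ℝ, ℝ) f ((ch E x).symm (ch E x x))).comp
        (mfderiv 𝓘(ℝ, E) 𝓘(ℝ, E) (ch E x).symm (ch E x x))) :=
    HasMFDerivAt.comp _ ((hf _).mdifferentiableAt (by simp)).hasMFDerivAt
      (mdiff_ch_symm hx).hasMFDerivAt
  have h4 : fderiv ℝ (fun y => f ((ch E x).symm y)) (ch E x x) =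
      (mfderiv 𝓘(ℝ, E) 𝓘(ℝ, ℝ) f ((ch E x).symm (ch E x x))).comp
        (mfderiv 𝓘(ℝ, E) 𝓘(ℝ, E) (ch E x).symm (ch E x x)) := by
    rw [← mfderiv_eq_fderiv, h3.mfderiv]
  have h5 := mfderiv_ch_symm_comp (mem_extChartAt_source (I := 𝓘(ℝ, E)) x) u
  have h6 : ∀ (z : X) (_ : z = x) (u' : E), u' = u →
      (mfderiv 𝓘(ℝ, E) 𝓘(ℝ, ℝ) f z u' : ℝ) = mfderiv 𝓘(ℝ, E) 𝓘(ℝ, ℝ) f x u := by
    intro z hz u' hu
    subst hz
    rw [hu]
  rw [h4]
  exact h6 _ h0 _ h5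

/-- the Leibniz rule: `dwedge f w = df ∧ w`. -/
theorem dwedge_apply {f : X → ℝ} (hf : ContMDiff 𝓘(ℝ, E) 𝓘(ℝ, ℝ) ∞ f) {w : PForm E X p}
    (hw : SmoothForm w) (x : X) (v : Fin (p + 1) → TangentSpace 𝓘(ℝ, E) x) :
    dwedge f w x v = ∑ k : Fin (p + 1), (-1 : ℝ) ^ (k : ℕ) *
      (dfun E f x (v k) * w x (k.removeNth v)) := by
  have hx := ch_self_mem_target (E := E) x
  have h0 : (ch E x).symm (ch E x x) = x := extChartAt_to_inv x
  set g : E → ℝ := fun y => f ((ch E x).symm y) with hg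
  have hgd : DifferentiableAt ℝ g (ch E x x) :=
    ((contDiffOn_fun hf x).contDiffAt (ch_target_nhds hx)).differentiableAt (by simp)
  have hWd : DifferentiableAt ℝ (inChart w x) (ch E x x) := hw.differentiableAt hx
  have h1 : inChart (fmul f w) x = fun y => g y • inChart w x y := by
    funext y
    ext v
    rfl
  set v' : Fin (p + 1) → E := fun k => mfderiv 𝓘(ℝ, E) 𝓘(ℝ, E) (ch E x) x (v k) with hv'
  have h2 : extD (fmul f w) x v = extDeriv (fun y => g y • inChart w x y) (ch E x x) v' := by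
    rw [← h1]
    rfl
  have h3 : fmul f (extD w) x v = f x * extDeriv (inChart w x) (ch E x x) v' := rfl
  have h4 : fderiv ℝ (fun y => g y • inChart w x y) (ch E x x) =
      g (ch E x x) • fderiv ℝ (inChart w x) (ch E x x) +
        (fderiv ℝ g (ch E x x)).smulRight (inChart w x (ch E x x)) :=
    (hgd.hasFDerivAt.smul hWd.hasFDerivAt).fderiv
  have h5 : extDeriv (fun y => g y • inChart w x y) (ch E x x) v' =
      g (ch E x x) * extDeriv (inChart w x) (ch E x x) v' +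
      ∑ k : Fin (p + 1), (-1 : ℝ) ^ (k : ℕ) *
        (fderiv ℝ g (ch E x x) (v' k) * inChart w x (ch E x x) (k.removeNth v')) := by
    unfold extDeriv
    rw [h4, ContinuousAlternatingMap.alternatizeUncurryFin_apply,
      ContinuousAlternatingMap.alternatizeUncurryFin_apply, Finset.mul_sum,
      ← Finset.sum_add_distrib]
    refine Finset.sum_congr rfl fun k _ => ?_
    simp only [add_apply, smul_apply, ContinuousLinearMap.smulRight_apply, ContinuousAlternatingMap.add_apply,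
      ContinuousAlternatingMap.smul_apply, smul_eq_mul, zsmul_eq_mul]
    push_cast
    ring
  have h6 : g (ch E x x) = f x := by rw [hg]; exact congrArg f h0
  have h7 : ∀ k : Fin (p + 1), fderiv ℝ g (ch E x x) (v' k) = dfun E f x (v k) :=
    fun k => fderiv_coord_dfun hf x (v k)
  have h8 : ∀ k : Fin (p + 1), inChart w x (ch E x x) (k.removeNth v') = w x (k.removeNth v) := by
    intro k
    have h9 : (fun i => (mfderiv 𝓘(ℝ, E) 𝓘(ℝ, E) (ch E x).symm (ch E x x)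
        (k.removeNth v' i) : E)) = k.removeNth v := by
      funext i
      exact mfderiv_ch_symm_comp (mem_extChartAt_source (I := 𝓘(ℝ, E)) x) (k.removeNth v i)
    refine (form_congr w h0 _).trans ?_
    congr 1
  show extD (fmul f w) x v - fmul f (extD w) x v = _
  rw [h2, h3, h5, h6]
  simp only [h7, h8]
  ring

theorem dfun_comp {F : ℝ → ℝ} (hF : ContDiff ℝ ∞ F) {f : X → ℝ}
    (hf : ContMDiff 𝓘(ℝ, E) 𝓘(ℝ, ℝ) ∞ f) (x : X) (u : TangentSpace 𝓘(ℝ, E) x) :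
    dfun E (fun y => F (f y)) x u = deriv F (f x) * dfun E f x u := by
  have h1 : HasMFDerivAt 𝓘(ℝ, E) 𝓘(ℝ, ℝ) f x (mfderiv 𝓘(ℝ, E) 𝓘(ℝ, ℝ) f x) :=
    ((hf _).mdifferentiableAt (by simp)).hasMFDerivAt
  have h2 : HasMFDerivAt 𝓘(ℝ, ℝ) 𝓘(ℝ, ℝ) F (f x) (fderiv ℝ F (f x)) :=
    ((hF.differentiable (by simp)) _).hasFDerivAt.hasMFDerivAt
  have h3 := (HasMFDerivAt.comp x h2 h1).mfderiv
  have h4 : dfun E (fun y => F (f y)) x u = fderiv ℝ F (f x) (dfun E f x u) := by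
    show mfderiv 𝓘(ℝ, E) 𝓘(ℝ, ℝ) (fun y => F (f y)) x u = _
    have h5 : mfderiv 𝓘(ℝ, E) 𝓘(ℝ, ℝ) (fun y => F (f y)) x =
      (fderiv ℝ F (f x)).comp (mfderiv 𝓘(ℝ, E) 𝓘(ℝ, ℝ) f x) := h3
    rw [h5]
    rfl
  rw [h4, ← toSpanSingleton_deriv]
  simp [mul_comm]

theorem dwedge_comp {F : ℝ → ℝ} (hF : ContDiff ℝ ∞ F) {f : X → ℝ}
    (hf : ContMDiff 𝓘(ℝ, E) 𝓘(ℝ, ℝ) ∞ f) {w : PForm E X p} (hw : SmoothForm w) (x : X) :
    dwedge (fun y => F (f y)) w x = deriv F (f x) • dwedge f w x := by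
  have hFf : ContMDiff 𝓘(ℝ, E) 𝓘(ℝ, ℝ) ∞ (fun y => F (f y)) := hF.contMDiff.comp hf
  ext v
  rw [dwedge_apply hFf hw x v, ContinuousAlternatingMap.smul_apply, dwedge_apply hf hw x v,
    smul_eq_mul, Finset.mul_sum]
  refine Finset.sum_congr rfl fun k _ => ?_
  rw [dfun_comp hF hf]
  ring

theorem dwedge_mem {f : X → ℝ} (hf : ContMDiff 𝓘(ℝ, E) 𝓘(ℝ, ℝ) ∞ f) {w : PForm E X p}
    (hw : w ∈ OmegaC E X p) : dwedge f w ∈ OmegaC E X (p + 1) :=
  (OmegaC E X (p + 1)).sub_mem (dC (⟨fmul f w, fmul_mem hf hw⟩ : OmC E X p)).2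
    (fmul_mem hf (dC (⟨w, hw⟩ : OmC E X p)).2)

/-- the derivative of a reflection is the identity along the mirror. -/
theorem mfderiv_refl_eq {s : X → X} (h : IsRefl E s) {τ : X → ℝ}
    (hτ : ContMDiff 𝓘(ℝ, E) 𝓘(ℝ, ℝ) ∞ τ) (hfix : ∀ x, τ x = 0 → s x = x) {x : X} (hx : τ x = 0)
    (hreg : mfderiv 𝓘(ℝ, E) 𝓘(ℝ, ℝ) τ x ≠ 0) (u : TangentSpace 𝓘(ℝ, E) x)
    (hu : mfderiv 𝓘(ℝ, E) 𝓘(ℝ, ℝ) τ x u = 0) :
    (mfderiv 𝓘(ℝ, E) 𝓘(ℝ, E) s x u : E) = u := by
  have hxt := ch_self_mem_target (E := E) x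
  have h0 : (ch E x).symm (ch E x x) = x := extChartAt_to_inv x
  have hsx : s x = x := hfix x hx
  have hgs : s ((ch E x).symm (ch E x x)) ∈ (ch E x).source := by
    rw [h0, hsx]; exact mem_extChartAt_source _
  set T : E → ℝ := fun y => τ ((ch E x).symm y) with hT
  set S : E → E := chTrans s x x with hS
  have hTc : ContDiffAt ℝ ∞ T (ch E x x) := (contDiffOn_fun hτ x).contDiffAt (ch_target_nhds hxt)
  have hSc : ContDiffAt ℝ ∞ S (ch E x x) := contDiffAt_chTrans h.smooth hxt hgs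
  have hT0 : T (ch E x x) = 0 := by rw [hT]; exact (congrArg τ h0).trans hx
  have hTd : ∀ u' : TangentSpace 𝓘(ℝ, E) x, fderiv ℝ T (ch E x x)
      (mfderiv 𝓘(ℝ, E) 𝓘(ℝ, E) (ch E x) x u') = dfun E τ x u' := fderiv_coord_dfun hτ x
  have hne : fderiv ℝ T (ch E x x) ≠ 0 := by
    intro hcon
    apply hreg
    ext u'
    have h1 := hTd u'
    rw [hcon] at h1
    exact h1.symm
  have hf : ∀ᶠ y in 𝓝 (ch E x x), T y = 0 → S y = y := by
    filter_upwards [ch_target_nhds hxt] with y hy hy0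
    show ch E x (s ((ch E x).symm y)) = y
    rw [hfix _ hy0, (ch E x).right_inv hy]
  have h2 := fderiv_eq_self_of_fix (hSc.differentiableAt (by simp)) (hTc.of_le (by simp)) hT0 hne hf
    (u := mfderiv 𝓘(ℝ, E) 𝓘(ℝ, E) (ch E x) x u) ((hTd u).trans hu)
  have hgd : MDifferentiableAt 𝓘(ℝ, E) 𝓘(ℝ, E) s ((ch E x).symm (ch E x x)) :=
    (h.smooth _).mdifferentiableAt (by simp)
  have h3 := fderiv_chTrans hxt hgd hgs (mfderiv 𝓘(ℝ, E) 𝓘(ℝ, E) (ch E x) x u)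
  have h4 := mfderiv_ch_symm_comp (mem_extChartAt_source (I := 𝓘(ℝ, E)) x) u
  have h5 : ∀ (z : X) (_ : z = x) (u' : E), u' = u →
      (mfderiv 𝓘(ℝ, E) 𝓘(ℝ, E) (ch E x) (s z)
        (mfderiv 𝓘(ℝ, E) 𝓘(ℝ, E) s z u') : E) =
      mfderiv 𝓘(ℝ, E) 𝓘(ℝ, E) (ch E x) (s x)
        (mfderiv 𝓘(ℝ, E) 𝓘(ℝ, E) s x u) := by
    intro z hz u' hu'
    subst hz
    rw [hu']
  have h6 := h5 _ h0 _ h4
  have h7 : (mfderiv 𝓘(ℝ, E) 𝓘(ℝ, E) (ch E x) (s x)
        (mfderiv 𝓘(ℝ, E) 𝓘(ℝ, E) s x u) : E) =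
      mfderiv 𝓘(ℝ, E) 𝓘(ℝ, E) (ch E x) x u := by
    rw [← h6, ← h3]
    exact h2
  have h8 : ∀ (z : X) (_ : z = x) (a : E), (mfderiv 𝓘(ℝ, E) 𝓘(ℝ, E) (ch E x) z a : E) =
      mfderiv 𝓘(ℝ, E) 𝓘(ℝ, E) (ch E x) x a := by
    intro z hz a
    subst hz
    rfl
  have h9 : (mfderiv 𝓘(ℝ, E) 𝓘(ℝ, E) (ch E x) x (mfderiv 𝓘(ℝ, E) 𝓘(ℝ, E) s x u : E) : E) =
      mfderiv 𝓘(ℝ, E) 𝓘(ℝ, E) (ch E x) x u := (h8 _ hsx _).symm.trans h7
  have h10 := mfderiv_ch_symm_comp (mem_extChartAt_source (I := 𝓘(ℝ, E)) x)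
    (mfderiv 𝓘(ℝ, E) 𝓘(ℝ, E) s x u : E)
  have h11 := mfderiv_ch_symm_comp (mem_extChartAt_source (I := 𝓘(ℝ, E)) x) u
  exact h10.symm.trans ((congrArg (fun a : E =>
    (mfderiv 𝓘(ℝ, E) 𝓘(ℝ, E) (ch E x).symm (ch E x x) a : E)) h9).trans h11)

/-- a form odd with respect to `s` vanishes along the mirror. -/
theorem odd_form_mirror {s : X → X} (h : IsRefl E s) {τ : X → ℝ}
    (hτ : ContMDiff 𝓘(ℝ, E) 𝓘(ℝ, ℝ) ∞ τ) (hfix : ∀ x, τ x = 0 → s x = x) {x : X} (hx : τ x = 0)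
    (hreg : mfderiv 𝓘(ℝ, E) 𝓘(ℝ, ℝ) τ x ≠ 0) {w : PForm E X p}
    (hodd : pull s w = - w) (u : Fin p → TangentSpace 𝓘(ℝ, E) x)
    (hu : ∀ i, dfun E τ x (u i) = 0) : w x u = 0 := by
  have h1 : pull s w x u = - w x u := by
    rw [hodd]; rfl
  have h2 : pull s w x u = w (s x) (fun i => mfderiv 𝓘(ℝ, E) 𝓘(ℝ, E) s x (u i)) := rfl
  have h3 : (fun i => (mfderiv 𝓘(ℝ, E) 𝓘(ℝ, E) s x (u i) : E)) = u := by
    funext i
    exact mfderiv_refl_eq h hτ hfix hx hreg (u i) (hu i)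
  have h4 : pull s w x u = w x u := by
    rw [h2]
    refine (form_congr w (hfix x hx) _).trans ?_
    congr 1
  have h5 : w x u = - w x u := h4.symm.trans h1
  linarith

/-- for a form `w` which is odd with respect to `s`, `dτ ∧ w` vanishes on the mirror. -/
theorem dwedge_mirror {s : X → X} (h : IsRefl E s) {τ : X → ℝ}
    (hτ : ContMDiff 𝓘(ℝ, E) 𝓘(ℝ, ℝ) ∞ τ) (hfix : ∀ x, τ x = 0 → s x = x) {x : X} (hx : τ x = 0)
    (hreg : mfderiv 𝓘(ℝ, E) 𝓘(ℝ, ℝ) τ x ≠ 0) {w : PForm E X p} (hw : SmoothForm w)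
    (hodd : pull s w = - w) : dwedge τ w x = 0 := by
  ext v
  show dwedge τ w x v = 0
  by_cases hall : ∀ k, dfun E τ x (v k) = 0
  · rw [dwedge_apply hτ hw x v]
    refine Finset.sum_eq_zero fun k _ => ?_
    rw [hall k, zero_mul, mul_zero]
  · push Not at hall
    obtain ⟨j, hj⟩ := hall
    have h1 := alt_shift (dwedge τ w x).toAlternatingMap v
      (fun k => dfun E τ x (v k) / dfun E τ x (v j)) j (Finset.univ.erase j)
      (Finset.notMem_erase _ _)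
    set v' : Fin (p + 1) → TangentSpace 𝓘(ℝ, E) x := fun k => if k ∈ Finset.univ.erase j then
      v k - (dfun E τ x (v k) / dfun E τ x (v j)) • v j else v k with hv'
    have h2 : dwedge τ w x v = dwedge τ w x v' := h1.symm
    have h3 : ∀ k, k ≠ j → dfun E τ x (v' k) = 0 := by
      intro k hk
      have h4 : v' k = v k - (dfun E τ x (v k) / dfun E τ x (v j)) • v j := by
        rw [hv']
        simp [hk]
      rw [h4, map_sub, map_smul, smul_eq_mul, div_mul_cancel₀ _ hj, sub_self]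
    rw [h2, dwedge_apply hτ hw x v']
    refine Finset.sum_eq_zero fun k _ => ?_
    by_cases hk : k = j
    · subst hk
      have h5 : w x (k.removeNth v') = 0 := by
        refine odd_form_mirror h hτ hfix hx hreg hodd _ fun i => ?_
        exact h3 _ (Fin.succAbove_ne k i)
      rw [h5, mul_zero, mul_zero]
    · rw [h3 k hk, zero_mul, mul_zero]

end Pool.Agent.ZSp
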