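import Pool.Agent.Work.MP_058ed1_gt.C.Eps
import Pool.Agent.Work.MP_058ed1_gt.C.Leib

/-!
# Corner theorem, module EST: `ε_j` commutes with `d` on odd forms
-/

open scoped Manifold ContDiff Topology Bundle ENNReal NNReal
open Set MeasureTheory Bundle Filter

set_option linter.unusedSectionVars false

noncomputable section

namespace Pool.Agent.ZSp


variable {E : Type*} [NormedAddCommGroup E] [InnerProductSpace ℝ E] [FiniteDimensional ℝ E]
  {X : Type*} [EMetricSpace X] [ChartedSpace E X]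
  [IsManifold 𝓘(ℝ, E) ∞ X] [RiemannianBundle (fun x : X => TangentSpace 𝓘(ℝ, E) x)]
  [IsContMDiffRiemannianBundle 𝓘(ℝ, E) ∞ E (fun x : X => TangentSpace 𝓘(ℝ, E) x)]
  [IsRiemannianManifold 𝓘(ℝ, E) X] [MeasurableSpace X] [BorelSpace X] {p : ℕ}

theorem ainner_self_le_norm {V : Type*} [NormedAddCommGroup V] [InnerProductSpace ℝ V]
    [FiniteDimensional ℝ V] (γ : V [⋀^Fin p]→L[ℝ] ℝ) :
    ainner γ γ ≤ (Module.finrank ℝ V : ℝ) ^ p * ‖γ‖ ^ 2 := by
  unfold ainner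
  have h1 : ∀ i : Fin p → Fin (Module.finrank ℝ V),
      γ (fun k => stdOrthonormalBasis ℝ V (i k)) * γ (fun k => stdOrthonormalBasis ℝ V (i k)) ≤
        ‖γ‖ ^ 2 := by
    intro i
    have h2 := γ.le_opNorm (fun k => stdOrthonormalBasis ℝ V (i k))
    have h3 : ∏ k, ‖stdOrthonormalBasis ℝ V (i k)‖ = 1 :=
      Finset.prod_eq_one fun k _ => (stdOrthonormalBasis ℝ V).orthonormal.1 (i k)
    rw [h3, mul_one, Real.norm_eq_abs] at h2
    rw [← sq, ← sq_abs (γ _)]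
    exact pow_le_pow_left₀ (abs_nonneg _) h2 2
  have h4 : ∑ i : Fin p → Fin (Module.finrank ℝ V),
      γ (fun k => stdOrthonormalBasis ℝ V (i k)) * γ (fun k => stdOrthonormalBasis ℝ V (i k)) ≤
        (Module.finrank ℝ V : ℝ) ^ p * ‖γ‖ ^ 2 := by
    refine (Finset.sum_le_sum fun i _ => h1 i).trans (le_of_eq ?_)
    simp
  have h5 : 0 ≤ ∑ i : Fin p → Fin (Module.finrank ℝ V),
      γ (fun k => stdOrthonormalBasis ℝ V (i k)) * γ (fun k => stdOrthonormalBasis ℝ V (i k)) :=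
    Finset.sum_nonneg fun i _ => mul_self_nonneg _
  have h6 : ((p.factorial : ℝ))⁻¹ ≤ 1 :=
    inv_le_one_of_one_le₀ (by exact_mod_cast Nat.factorial_pos p)
  calc _ ≤ 1 * _ := mul_le_mul_of_nonneg_right h6 h5
    _ ≤ _ := by rw [one_mul]; exact h4

/-- near `x₀`, the pointwise norm of a form is bounded by the norm of its expression in the
chart. -/
theorem pin_le_inChart (p : ℕ) (x₀ : X) : ∃ C : ℝ, 0 ≤ C ∧ ∀ᶠ x in 𝓝 x₀, ∀ β : PForm E X p,
    pin β β x ≤ C * ‖inChart β x₀ (ch E x₀ x)‖ ^ 2 := by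
  borelize E
  obtain ⟨r, hr, K, hK, ht, -, hb, -⟩ := chart_compare (E := E) x₀
  have htb : Metric.ball (ch E x₀ x₀) r ⊆ (ch E x₀).target :=
    Metric.ball_subset_closedBall.trans ht
  refine ⟨((Module.finrank ℝ E : ℝ) * (K : ℝ) ^ 2) ^ p * (Module.finrank ℝ E : ℝ) ^ p,
    by positivity, ?_⟩
  filter_upwards [symm_image_nhds x₀ hr htb] with x hx β
  have hxs : x ∈ (ch E x₀).source := by
    obtain ⟨z, hz, rfl⟩ := hx
    exact (ch E x₀).map_target (htb hz)
  have e1 : β x = (inChart β x₀ (ch E x₀ x)).compContinuousLinearMap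
      (mfderiv 𝓘(ℝ, E) 𝓘(ℝ, E) (ch E x₀) x) := by
    ext v
    show β x v = (β ((ch E x₀).symm (ch E x₀ x))) (fun k =>
      mfderiv 𝓘(ℝ, E) 𝓘(ℝ, E) (ch E x₀).symm (ch E x₀ x)
        (mfderiv 𝓘(ℝ, E) 𝓘(ℝ, E) (ch E x₀) x (v k)))
    have e2 : (fun k => (mfderiv 𝓘(ℝ, E) 𝓘(ℝ, E) (ch E x₀).symm (ch E x₀ x)
        (mfderiv 𝓘(ℝ, E) 𝓘(ℝ, E) (ch E x₀) x (v k)) : E)) = v := by
      funext k
      exact mfderiv_ch_symm_comp hxs (v k)
    exact ((form_congr β ((ch E x₀).left_inv hxs) _).trans (congrArg _ e2)).symm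
  have e3 := ainner_comp_le (V := TangentSpace 𝓘(ℝ, E) x) (W := E)
    (mfderiv 𝓘(ℝ, E) 𝓘(ℝ, E) (ch E x₀) x) (L := K) (fun v => by
      have h1 := hb x hx v
      rw [norm_tangentSpace_vectorSpace] at h1
      exact h1)
    (inChart β x₀ (ch E x₀ x))
  have e4 : pin β β x = ainner (V := TangentSpace 𝓘(ℝ, E) x)
      ((inChart β x₀ (ch E x₀ x)).compContinuousLinearMap
        (mfderiv 𝓘(ℝ, E) 𝓘(ℝ, E) (ch E x₀) x))
      ((inChart β x₀ (ch E x₀ x)).compContinuousLinearMap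
        (mfderiv 𝓘(ℝ, E) 𝓘(ℝ, E) (ch E x₀) x)) := by
    show ainner (β x) (β x) = _
    rw [← e1]
  rw [e4, mul_assoc]
  refine e3.trans ?_
  exact mul_le_mul_of_nonneg_left (ainner_self_le_norm _) (by positivity)

/-- the differential of a function in the chart. -/
theorem fderiv_chart_ne {τ : X → ℝ} (hτ : ContMDiff 𝓘(ℝ, E) 𝓘(ℝ, ℝ) ∞ τ) {x₀ : X}
    (h : mfderiv 𝓘(ℝ, E) 𝓘(ℝ, ℝ) τ x₀ ≠ 0) :
    fderiv ℝ (fun y => τ ((ch E x₀).symm y)) (ch E x₀ x₀) ≠ 0 := by
  intro h0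
  apply h
  have h1 : MDifferentiableAt 𝓘(ℝ, E) 𝓘(ℝ, ℝ) τ x₀ := (hτ x₀).mdifferentiableAt (by simp)
  rw [h1.mfderiv, ModelWithCorners.range_eq_univ, fderivWithin_univ]
  have h2 : writtenInExtChartAt 𝓘(ℝ, E) 𝓘(ℝ, ℝ) x₀ τ = fun y => τ ((ch E x₀).symm y) := by
    funext y
    simp only [writtenInExtChartAt, Function.comp]
    rfl
  rw [h2]
  exact h0

/-- `|dτ ∧ w| ≤ C |τ|` for `w` odd. -/
theorem pin_dwedge_le' {s : X → X} (h : IsRefl E s) {τ : X → ℝ}
    (hτ : ContMDiff 𝓘(ℝ, E) 𝓘(ℝ, ℝ) ∞ τ) (hfix : ∀ x, τ x = 0 → s x = x)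
    (hreg : ∀ x, τ x = 0 → mfderiv 𝓘(ℝ, E) 𝓘(ℝ, ℝ) τ x ≠ 0) {w : PForm E X p}
    (hw : w ∈ OmegaC E X p) (hodd : pull s w = - w) :
    ∃ C : ℝ, 0 ≤ C ∧ ∀ x, pin (dwedge τ w) (dwedge τ w) x ≤ C * τ x ^ 2 := by
  have hm := dwedge_mem hτ hw
  -- the local estimate
  have hloc : ∀ x₀ : X, ∃ C : ℝ, 0 ≤ C ∧ ∀ᶠ x in 𝓝 x₀,
      pin (dwedge τ w) (dwedge τ w) x ≤ C * τ x ^ 2 := by
    intro x₀
    by_cases hx₀ : τ x₀ = 0
    · obtain ⟨K, hK, hK'⟩ := pin_le_inChart (E := E) (p + 1) x₀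
      have hy₀ : ch E x₀ x₀ ∈ (ch E x₀).target := ch_self_mem_target x₀
      have hθ : ContDiffAt ℝ 1 (inChart (dwedge τ w) x₀) (ch E x₀ x₀) :=
        (hm.1.contDiffAt hy₀).of_le (by exact_mod_cast le_top)
      have hT : ContDiffAt ℝ 1 (fun y => τ ((ch E x₀).symm y)) (ch E x₀ x₀) :=
        ((contDiffOn_fun hτ x₀).contDiffAt (ch_target_nhds hy₀)).of_le (by exact_mod_cast le_top)
      obtain ⟨C, hC⟩ := norm_le_of_vanish hθ hT
        (by rw [extChartAt_to_inv (I := 𝓘(ℝ, E)) x₀]; exact hx₀)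
        (fderiv_chart_ne hτ (hreg x₀ hx₀)) (Eventually.of_forall fun y hy => by
          show (dwedge τ w ((ch E x₀).symm y)).compContinuousLinearMap _ = 0
          rw [dwedge_mirror h hτ hfix hy (hreg _ hy) hw.1 hodd]
          rfl)
      refine ⟨K * C ^ 2, by positivity, ?_⟩
      have hC' := (continuousAt_extChartAt (I := 𝓘(ℝ, E)) x₀).eventually hC
      filter_upwards [hK', hC', extChartAt_source_mem_nhds (I := 𝓘(ℝ, E)) x₀] with x h1 h2 h3
      rw [(ch E x₀).left_inv h3] at h2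
      refine (h1 (dwedge τ w)).trans ?_
      rw [mul_assoc]
      apply mul_le_mul_of_nonneg_left _ hK
      calc ‖inChart (dwedge τ w) x₀ (ch E x₀ x)‖ ^ 2 ≤ (C * |τ x|) ^ 2 :=
            pow_le_pow_left₀ (norm_nonneg _) h2 2
        _ = C ^ 2 * τ x ^ 2 := by rw [mul_pow, sq_abs]
    · have hc : Continuous (pin (dwedge τ w) (dwedge τ w)) := continuous_pin hm.1 hm.1
      have hτc : Continuous τ := hτ.continuous
      have hpos : 0 < τ x₀ ^ 2 := by positivity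
      refine ⟨(pin (dwedge τ w) (dwedge τ w) x₀ + 1) / (τ x₀ ^ 2 / 2), ?_, ?_⟩
      · have := pin_self_nonneg (dwedge τ w) x₀
        positivity
      · have e1 : ∀ᶠ x in 𝓝 x₀, pin (dwedge τ w) (dwedge τ w) x <
            pin (dwedge τ w) (dwedge τ w) x₀ + 1 :=
          hc.continuousAt.eventually_lt_const (by linarith)
        have hτ2 : Continuous (fun x => τ x ^ 2) := hτc.pow 2
        have e2 : ∀ᶠ x in 𝓝 x₀, τ x₀ ^ 2 / 2 < τ x ^ 2 :=
          hτ2.continuousAt.eventually_const_lt (by linarith)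
        filter_upwards [e1, e2] with x h1 h2
        have h3 : 0 ≤ pin (dwedge τ w) (dwedge τ w) x₀ + 1 := by
          have := pin_self_nonneg (dwedge τ w) x₀
          linarith
        calc pin (dwedge τ w) (dwedge τ w) x
            ≤ (pin (dwedge τ w) (dwedge τ w) x₀ + 1) / (τ x₀ ^ 2 / 2) * (τ x₀ ^ 2 / 2) := by
              rw [div_mul_cancel₀ _ (by positivity)]; exact h1.le
          _ ≤ _ := mul_le_mul_of_nonneg_left h2.le (by positivity)
  obtain ⟨C, hC, hC'⟩ : ∃ C : ℝ, 0 ≤ C ∧ ∀ x ∈ closure {x | dwedge τ w x ≠ 0},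
      pin (dwedge τ w) (dwedge τ w) x ≤ C * τ x ^ 2 := by
    refine hm.2.induction_on (p := fun S => ∃ C : ℝ, 0 ≤ C ∧ ∀ x ∈ S,
      pin (dwedge τ w) (dwedge τ w) x ≤ C * τ x ^ 2) ⟨0, le_rfl, by simp⟩ ?_ ?_ ?_
    · rintro S S' hS ⟨C, hC, h'⟩
      exact ⟨C, hC, fun x hx => h' x (hS hx)⟩
    · rintro S S' ⟨C, hC, h'⟩ ⟨C', hC', h''⟩
      refine ⟨C + C', by positivity, fun x hx => ?_⟩
      have h0 : 0 ≤ τ x ^ 2 := by positivity
      rcases hx with hx | hx
      · exact (h' x hx).trans (mul_le_mul_of_nonneg_right (by linarith) h0)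
      · exact (h'' x hx).trans (mul_le_mul_of_nonneg_right (by linarith) h0)
    · intro x _
      obtain ⟨C, hC, h'⟩ := hloc x
      exact ⟨_, mem_nhdsWithin_of_mem_nhds h', C, hC, fun y hy => hy⟩
  refine ⟨C, hC, fun x => ?_⟩
  by_cases hx : dwedge τ w x = 0
  · rw [pin_eq_zero _ hx]
    positivity
  · exact hC' x (subset_closure hx)

/-- `|dτ ∧ w| ≤ C |τ|` for `w` odd. -/
theorem pin_dwedge_le {s : X → X} (h : IsRefl E s) {τ : X → ℝ}
    (hτ : ContMDiff 𝓘(ℝ, E) 𝓘(ℝ, ℝ) ∞ τ) (hfix : ∀ x, τ x = 0 → s x = x)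
    (hreg : ∀ x, τ x = 0 → mfderiv 𝓘(ℝ, E) 𝓘(ℝ, ℝ) τ x ≠ 0) {w : PForm E X p}
    (hw : w ∈ OmegaC E X p) (hodd : pull s w = - w) :
    ∃ C : ℝ, ∀ x, pin (dwedge τ w) (dwedge τ w) x ≤ C * τ x ^ 2 := by
  obtain ⟨C, _, hC⟩ := pin_dwedge_le' h hτ hfix hreg hw hodd
  exact ⟨C, hC⟩

theorem deriv_stp_eq_zero {t : ℝ} (ht : 1 < |t|) : deriv stp t = 0 := by
  rcases lt_abs.mp ht with h | h
  · have : stp =ᶠ[𝓝 t] fun _ => 1 := by
      filter_upwards [eventually_gt_nhds h] with u hu using stp_of_one_le hu.le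
    rw [this.deriv_eq, deriv_const]
  · have : stp =ᶠ[𝓝 t] fun _ => -1 := by
      filter_upwards [eventually_lt_nhds (show t < -1 by linarith)] with u hu
        using stp_of_le_neg_one hu.le
    rw [this.deriv_eq, deriv_const]

theorem exists_bound_deriv_stp : ∃ M : ℝ, 0 ≤ M ∧ ∀ t : ℝ, (t * deriv stp t) ^ 2 ≤ M := by
  have hc : Continuous (fun t : ℝ => (t * deriv stp t) ^ 2) :=
    (continuous_id.mul (stp_contDiff.continuous_deriv (by simp))).pow 2
  obtain ⟨M, hM⟩ := (isCompact_Icc (a := (-1 : ℝ)) (b := 1)).bddAbove_image hc.continuousOn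
  refine ⟨max M 0, le_max_right _ _, fun t => ?_⟩
  by_cases ht : |t| ≤ 1
  · exact (hM ⟨t, abs_le.mp ht, rfl⟩).trans (le_max_left _ _)
  · rw [deriv_stp_eq_zero (not_le.mp ht), mul_zero]
    simp

theorem pin_smul_smul (r : ℝ) (β : PForm E X p) {α : PForm E X p} {x : X}
    (h : α x = r • β x) : pin α α x = r ^ 2 * pin β β x := by
  show ainner (α x) (α x) = r ^ 2 * ainner (β x) (β x)
  rw [h, ainner_smul_left, ainner_comm, ainner_smul_left]
  ring

theorem dwedge_stpk {τ : X → ℝ} (hτ : ContMDiff 𝓘(ℝ, E) 𝓘(ℝ, ℝ) ∞ τ) {w : PForm E X p}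
    (hw : w ∈ OmegaC E X p) (k : ℕ) (x : X) :
    dwedge (stpk τ k) w x = (k * deriv stp (k * τ x)) • dwedge τ w x := by
  have h1 := dwedge_comp (F := fun t => stp (k * t))
    (stp_contDiff.comp (contDiff_const.mul contDiff_id)) hτ hw.1 x
  have h2 : deriv (fun t => stp ((k : ℝ) * t)) (τ x) = k * deriv stp (k * τ x) := by
    have := deriv_comp_mul_left (k : ℝ) stp (τ x)
    simpa [smul_eq_mul] using this
  rw [h2] at h1
  exact h1

theorem tendsto_dwedge {s : X → X} (h : IsRefl E s) {τ : X → ℝ}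
    (hτ : ContMDiff 𝓘(ℝ, E) 𝓘(ℝ, ℝ) ∞ τ) (hfix : ∀ x, τ x = 0 → s x = x)
    (hreg : ∀ x, τ x = 0 → mfderiv 𝓘(ℝ, E) 𝓘(ℝ, ℝ) τ x ≠ 0) {w : PForm E X p}
    (hw : w ∈ OmegaC E X p) (hodd : pull s w = - w) :
    Tendsto (fun k : ℕ => l2 (dwedge (stpk τ k) w) (dwedge (stpk τ k) w)) atTop (𝓝 0) := by
  obtain ⟨C, hC0, hC⟩ := pin_dwedge_le' h hτ hfix hreg hw hodd
  obtain ⟨M, hM0, hM⟩ := exists_bound_deriv_stp
  have hm := dwedge_mem hτ hw
  set K := closure {x | dwedge τ w x ≠ 0} with hK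
  have hpin : ∀ (k : ℕ) (x : X), pin (dwedge (stpk τ k) w) (dwedge (stpk τ k) w) x =
      (k * deriv stp (k * τ x)) ^ 2 * pin (dwedge τ w) (dwedge τ w) x := fun k x =>
    pin_smul_smul _ _ (dwedge_stpk hτ hw k x)
  have hbound : ∀ (k : ℕ) (x : X), ‖pin (dwedge (stpk τ k) w) (dwedge (stpk τ k) w) x‖ ≤
      K.indicator (fun _ => C * M) x := by
    intro k x
    rw [Real.norm_of_nonneg (pin_self_nonneg _ x), hpin]
    by_cases hx : x ∈ K
    · rw [indicator_of_mem hx]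
      calc (k * deriv stp (k * τ x)) ^ 2 * pin (dwedge τ w) (dwedge τ w) x
          ≤ (k * deriv stp (k * τ x)) ^ 2 * (C * τ x ^ 2) :=
            mul_le_mul_of_nonneg_left (hC x) (by positivity)
        _ = C * (k * τ x * deriv stp (k * τ x)) ^ 2 := by ring
        _ ≤ C * M := mul_le_mul_of_nonneg_left (hM _) hC0
    · rw [indicator_of_notMem hx]
      have : dwedge τ w x = 0 := by
        by_contra hne
        exact hx (subset_closure hne)
      rw [pin_eq_zero _ this, mul_zero]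
  have hint : Integrable (K.indicator (fun _ => C * M)) (vol E X) := by
    have hKm : MeasurableSet K := isClosed_closure.measurableSet
    rw [integrable_indicator_iff hKm]
    exact integrableOn_const (hm.2.measure_lt_top.ne)
  have hlim : ∀ x : X, Tendsto (fun k : ℕ =>
      pin (dwedge (stpk τ k) w) (dwedge (stpk τ k) w) x) atTop (𝓝 0) := by
    intro x
    by_cases hx : τ x = 0
    · have h0 : pin (dwedge τ w) (dwedge τ w) x = 0 := by
        apply le_antisymm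
        · have := hC x
          rw [hx] at this
          simpa using this
        · exact pin_self_nonneg _ x
      simp only [hpin, h0, mul_zero]
      exact tendsto_const_nhds
    · refine tendsto_const_nhds.congr' ?_
      obtain ⟨N, hN⟩ := exists_nat_gt (1 / |τ x|)
      filter_upwards [eventually_ge_atTop N] with k hk
      have h1 : 1 / |τ x| < k := hN.trans_le (by exact_mod_cast hk)
      rw [div_lt_iff₀ (abs_pos.mpr hx)] at h1
      have h2 : 1 < |(k : ℝ) * τ x| := by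
        rw [abs_mul, abs_of_nonneg (Nat.cast_nonneg k)]; exact h1
      rw [hpin, deriv_stp_eq_zero h2]
      ring
  have key := tendsto_integral_of_dominated_convergence (μ := vol E X)
    (F := fun (k : ℕ) x => pin (dwedge (stpk τ k) w) (dwedge (stpk τ k) w) x)
    (f := fun _ => 0) (K.indicator (fun _ => C * M))
    (fun k => (integrable_pin (dwedge_mem (stpk_smooth hτ k) hw)
      (dwedge_mem (stpk_smooth hτ k) hw)).aestronglyMeasurable) hint
    (fun k => Eventually.of_forall (hbound k)) (Eventually.of_forall hlim)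
  have e0 : ∫ _ : X, (0 : ℝ) ∂(vol E X) = 0 := by simp
  rw [e0] at key
  exact key

/-- `df ∧ a` on `Ω_c^p(X)`. -/
def dwedgeC {f : X → ℝ} (hf : ContMDiff 𝓘(ℝ, E) 𝓘(ℝ, ℝ) ∞ f) (a : OmC E X p) :
    OmC E X (p + 1) := ⟨dwedge f a.1, dwedge_mem hf a.2⟩

/-- for odd pairs, multiplication by `sign τ` preserves the graph of the closure of `d`. -/
theorem EC_DD {s : X → X} (h : IsRefl E s) {τ : X → ℝ}
    (hτ : ContMDiff 𝓘(ℝ, E) 𝓘(ℝ, ℝ) ∞ τ) (hfix : ∀ x, τ x = 0 → s x = x)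
    (hreg : ∀ x, τ x = 0 → mfderiv 𝓘(ℝ, E) 𝓘(ℝ, ℝ) τ x ≠ 0) {a : L2F E X p}
    {b : L2F E X (p + 1)} (hab : (a, b) ∈ DD E X p) (ha : SC h p a = - a)
    (hb : SC h (p + 1) b = - b) : (EC hτ p a, EC hτ (p + 1) b) ∈ DD E X p := by
  -- the smooth case
  have hsm : ∀ c : OmC E X p, pullC h c = - c →
      (EC hτ p c, EC hτ (p + 1) (dC c)) ∈ DD E X p := by
    intro c hc
    have hodd : pull s c.1 = - c.1 := congrArg Subtype.val hc
    have h1 : ∀ k : ℕ, dC (mulC (stpk τ k) (stpk_smooth hτ k) c) =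
        dwedgeC (stpk_smooth hτ k) c +
          mulC (stpk τ k) (stpk_smooth hτ k) (dC c) := by
      intro k
      apply Subtype.ext
      show extD (fmul (stpk τ k) c.1) = dwedge (stpk τ k) c.1 + fmul (stpk τ k) (extD c.1)
      unfold dwedge
      rw [sub_add_cancel]
    have h2 : Tendsto (fun k : ℕ => (dwedgeC (stpk_smooth hτ k) c : L2F E X (p + 1))) atTop
        (𝓝 0) := by
      rw [tendsto_zero_iff_norm_tendsto_zero]
      have h3 := tendsto_dwedge h hτ hfix hreg c.2 hodd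
      have h4 : Tendsto (fun k : ℕ => Real.sqrt (l2 (dwedge (stpk τ k) c.1)
          (dwedge (stpk τ k) c.1))) atTop (𝓝 0) := by
        have := (Real.continuous_sqrt.tendsto 0).comp h3
        rw [Real.sqrt_zero] at this
        exact this
      refine h4.congr fun k => ?_
      rw [norm_coe, ← Real.sqrt_sq (norm_nonneg _), norm_sq_eq]
      rfl
    refine DD_of_tendsto (EC_tendsto hτ c) (w := fun k =>
      ((dC (mulC (stpk τ k) (stpk_smooth hτ k) c) : OmC E X (p + 1)) : L2F E X (p + 1))) ?_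
      (fun k => DD_coe _)
    have h5 := h2.add (EC_tendsto hτ (dC c))
    rw [zero_add] at h5
    refine h5.congr fun k => ?_
    rw [h1 k, UniformSpace.Completion.coe_add]
  -- the projection on the odd part
  let P : ∀ q, L2F E X q →L[ℝ] L2F E X q := fun q =>
    (1 / 2 : ℝ) • (ContinuousLinearMap.id ℝ (L2F E X q) - SC h q)
  have hPa : P p a = a := by
    show (1 / 2 : ℝ) • (a - SC h p a) = a
    rw [ha, sub_neg_eq_add, ← two_smul ℝ a, smul_smul]
    norm_num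
  have hPb : P (p + 1) b = b := by
    show (1 / 2 : ℝ) • (b - SC h (p + 1) b) = b
    rw [hb, sub_neg_eq_add, ← two_smul ℝ b, smul_smul]
    norm_num
  have key := DD_map hab ((EC hτ p).comp (P p)) ((EC hτ (p + 1)).comp (P (p + 1))) (by
    intro c
    have h1 : P p (c : L2F E X p) = (((1 / 2 : ℝ) • (c - pullC h c) : OmC E X p) :
        L2F E X p) := by
      show (1 / 2 : ℝ) • ((c : L2F E X p) - SC h p (c : L2F E X p)) = _
      rw [SC_coe, UniformSpace.Completion.coe_smul, UniformSpace.Completion.coe_sub]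
    have h2 : P (p + 1) (dC c : L2F E X (p + 1)) =
        ((dC ((1 / 2 : ℝ) • (c - pullC h c)) : OmC E X (p + 1)) : L2F E X (p + 1)) := by
      show (1 / 2 : ℝ) • ((dC c : L2F E X (p + 1)) - SC h (p + 1) (dC c : L2F E X (p + 1))) = _
      rw [SC_coe, ← dC_pullC, ← UniformSpace.Completion.coe_sub,
        ← UniformSpace.Completion.coe_smul]
      congr 1
      rw [← dCl_apply, ← dCl_apply, ← dCl_apply, map_smul, map_sub]
    show (EC hτ p (P p (c : L2F E X p)), EC hτ (p + 1) (P (p + 1) (dC c : L2F E X (p + 1)))) ∈ _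
    rw [h1, h2]
    apply hsm
    rw [map_smul, map_sub, pullC_pullC_self, ← smul_neg, neg_sub])
  have e1 : ((EC hτ p).comp (P p)) a = EC hτ p a := by
    show EC hτ p (P p a) = _
    rw [hPa]
  have e2 : ((EC hτ (p + 1)).comp (P (p + 1))) b = EC hτ (p + 1) b := by
    show EC hτ (p + 1) (P (p + 1) b) = _
    rw [hPb]
  rw [e1, e2] at key
  exact key

end Pool.Agent.ZSp
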