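import Pool.Agent.Work.MP_058ed1_gt.C.Base

/-!
# Corner theorem, module EX: a bounded inverse of the Laplacian gives exactness
-/

open scoped Manifold ContDiff Topology Bundle ENNReal NNReal
open Set MeasureTheory Bundle Filter

set_option linter.unusedSectionVars false

noncomputable section

namespace Pool.Agent.ZSp

variable {E : Type*} [NormedAddCommGroup E] [InnerProductSpace ℝ E] [FiniteDimensional ℝ E]
  {X : Type*} [EMetricSpace X] [ChartedSpace E X]
  [IsManifold 𝓘(ℝ, E) ∞ X] [RiemannianBundle (fun x : X => TangentSpace 𝓘(ℝ, E) x)]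
  [IsContMDiffRiemannianBundle 𝓘(ℝ, E) ∞ E (fun x : X => TangentSpace 𝓘(ℝ, E) x)]
  [IsRiemannianManifold 𝓘(ℝ, E) X] [MeasurableSpace X] [BorelSpace X] {p : ℕ}

theorem cauchySeq_of_dist_le {Y Z : Type*} [PseudoMetricSpace Y] [PseudoMetricSpace Z]
    {x : ℕ → Y} {z : ℕ → Z} (hz : CauchySeq z) (h : ∀ k l, dist (x k) (x l) ≤ dist (z k) (z l)) :
    CauchySeq x := by
  rw [Metric.cauchySeq_iff] at hz ⊢
  intro ε hε
  obtain ⟨N, hN⟩ := hz ε hε
  exact ⟨N, fun m hm n hn => (h m n).trans_lt (hN m hm n hn)⟩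

theorem inner_coe' (a b : OmC E X p) :
    inner ℝ (a : L2F E X p) (b : L2F E X p) = inner ℝ a b := UniformSpace.Completion.inner_coe a b

theorem coe_sub' (a b : OmC E X p) : ((a - b : OmC E X p) : L2F E X p) = a - b :=
  UniformSpace.Completion.coe_sub a b

/-- if `(Δ_{p+1})_min` has a bounded inverse, the closed complex is exact at `p + 1`. -/
theorem exact_of_not_zeroInSpec (h : ¬ ZeroInSpec E X (p + 1)) (a : L2F E X (p + 1))
    (ha : (a, 0) ∈ DD E X (p + 1)) : ∃ c : L2F E X p, (c, a) ∈ DD E X p := by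
  unfold ZeroInSpec at h
  rw [not_not] at h
  obtain ⟨B, hB⟩ := h
  obtain ⟨u, hu, hdu⟩ := DD_seq ha
  have hmem : ((B a, a) : L2F E X (p + 1) × L2F E X (p + 1)) ∈
      closure (lapGraph E X (p + 1)) := by
    have : ((B a, a) : L2F E X (p + 1) × L2F E X (p + 1)) ∈ lapMinGraph E X (p + 1) := by
      rw [hB]; rfl
    exact this
  rw [mem_closure_iff_seq_limit] at hmem
  obtain ⟨z, hz, hzlim⟩ := hmem
  choose w η hL hzeq using hz
  have hdec : ∀ k, ∃ (c : OmC E X p) (d : OmC E X (p + 1)), η k = dC c + d ∧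
      (∀ b : OmC E X p, inner ℝ (dC b) (w k) = inner ℝ b c) ∧
      (∀ b : OmC E X (p + 1), inner ℝ (dC b) (dC (w k)) = inner ℝ b d) := by
    intro k
    obtain ⟨c, hc, d, hd, hwc, hwd, he⟩ := hL k
    exact ⟨⟨c, hc⟩, ⟨d, hd⟩, Subtype.ext he, fun b => hwc b.1 b.2, fun b => hwd b.1 b.2⟩
  choose c d hη hc hd using hdec
  have hzc : CauchySeq z := hzlim.cauchySeq
  have dsub : ∀ {q : ℕ} (x y : OmC E X q), dC (x - y) = dC x - dC y := fun x y =>
    map_sub dCl x y
  have dz : ∀ k l, ‖w k - w l‖ ≤ dist (z k) (z l) ∧ ‖η k - η l‖ ≤ dist (z k) (z l) := by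
    intro k l
    rw [hzeq k, hzeq l, Prod.dist_eq]
    refine ⟨?_, ?_⟩
    · refine le_trans (le_of_eq ?_) (le_max_left _ _)
      show ‖w k - w l‖ = dist (w k : L2F E X (p + 1)) (w l)
      rw [UniformSpace.Completion.dist_eq, dist_eq_norm]
    · refine le_trans (le_of_eq ?_) (le_max_right _ _)
      show ‖η k - η l‖ = dist (η k : L2F E X (p + 1)) (η l)
      rw [UniformSpace.Completion.dist_eq, dist_eq_norm]
  -- the two Cauchy estimates
  have e1 : ∀ k l, ‖c k - c l‖ ^ 2 ≤ ‖η k - η l‖ * ‖w k - w l‖ := by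
    intro k l
    have q1 : inner ℝ (dC (c k - c l)) (w k - w l) = ‖c k - c l‖ ^ 2 := by
      rw [inner_sub_right, hc k, hc l, ← inner_sub_right, real_inner_self_eq_norm_sq]
    have q2 : inner ℝ (w k - w l) (d k - d l) = ‖dC (w k - w l)‖ ^ 2 := by
      rw [inner_sub_right, ← hd k, ← hd l, ← inner_sub_right, ← dsub,
        real_inner_self_eq_norm_sq]
    have q3 : η k - η l = dC (c k - c l) + (d k - d l) := by
      rw [hη k, hη l, dsub]; abel
    have q4 : inner ℝ (η k - η l) (w k - w l) = ‖c k - c l‖ ^ 2 + ‖dC (w k - w l)‖ ^ 2 := by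
      rw [q3, inner_add_left, q1, real_inner_comm, q2]
    have q5 := real_inner_le_norm (η k - η l) (w k - w l)
    nlinarith [sq_nonneg ‖dC (w k - w l)‖]
  have e2 : ∀ k l, ‖dC (c k) - dC (c l)‖ ≤ ‖η k - η l‖ := by
    intro k l
    have q3 : η k - η l = dC (c k - c l) + (d k - d l) := by
      rw [hη k, hη l, dsub]; abel
    have q4 : inner ℝ (dC (c k - c l)) (d k - d l) = 0 := by
      rw [inner_sub_right, ← hd k, ← hd l, ← inner_sub_right, dC_dC, inner_zero_left]
    have q5 : ‖η k - η l‖ ^ 2 = ‖dC (c k - c l)‖ ^ 2 + ‖d k - d l‖ ^ 2 := by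
      rw [q3, ← real_inner_self_eq_norm_sq, ← real_inner_self_eq_norm_sq,
        ← real_inner_self_eq_norm_sq, inner_add_left, inner_add_right, inner_add_right,
        real_inner_comm (dC (c k - c l)) (d k - d l), q4]
      ring
    rw [← dsub]
    exact abs_le_of_sq_le_sq' (by nlinarith [sq_nonneg ‖d k - d l‖]) (norm_nonneg _) |>.2
  have hcC : CauchySeq (fun k => (c k : L2F E X p)) := by
    apply cauchySeq_of_dist_le hzc
    intro k l
    rw [UniformSpace.Completion.dist_eq, dist_eq_norm]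
    have h1 := (dz k l).1
    have h2 := (dz k l).2
    have h3 : ‖c k - c l‖ ^ 2 ≤ dist (z k) (z l) ^ 2 := by
      calc ‖c k - c l‖ ^ 2 ≤ ‖η k - η l‖ * ‖w k - w l‖ := e1 k l
        _ ≤ dist (z k) (z l) * dist (z k) (z l) :=
          mul_le_mul h2 h1 (norm_nonneg _) dist_nonneg
        _ = _ := by ring
    exact abs_le_of_sq_le_sq' h3 dist_nonneg |>.2
  have hgC : CauchySeq (fun k => (dC (c k) : L2F E X (p + 1))) := by
    apply cauchySeq_of_dist_le hzc
    intro k l
    rw [UniformSpace.Completion.dist_eq, dist_eq_norm]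
    exact (e2 k l).trans (dz k l).2
  obtain ⟨c', hc'⟩ := cauchySeq_tendsto_of_complete hcC
  obtain ⟨g, hg⟩ := cauchySeq_tendsto_of_complete hgC
  have hηlim : Tendsto (fun k => (η k : L2F E X (p + 1))) atTop (𝓝 a) := by
    have := (continuous_snd.tendsto _).comp hzlim
    refine this.congr fun k => ?_
    simp only [Function.comp, hzeq k]
  have hdlim : Tendsto (fun k => (d k : L2F E X (p + 1))) atTop (𝓝 (a - g)) := by
    refine (hηlim.sub hg).congr fun k => ?_
    rw [← coe_sub', hη k]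
    congr 1
    abel
  -- orthogonality
  have o1 : ∀ k, inner ℝ (d k : L2F E X (p + 1)) a = 0 := by
    intro k
    have t1 : Tendsto (fun m => inner ℝ (d k : L2F E X (p + 1)) (u m : L2F E X (p + 1))) atTop
        (𝓝 (inner ℝ (d k : L2F E X (p + 1)) a)) :=
      tendsto_const_nhds.inner hu
    have t2 : Tendsto (fun m => inner ℝ (dC (w k) : L2F E X (p + 1 + 1))
        (dC (u m) : L2F E X (p + 1 + 1))) atTop
        (𝓝 (inner ℝ (dC (w k) : L2F E X (p + 1 + 1)) (0 : L2F E X (p + 1 + 1)))) :=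
      tendsto_const_nhds.inner hdu
    rw [inner_zero_right] at t2
    refine tendsto_nhds_unique t1 (t2.congr fun m => ?_)
    rw [inner_coe', inner_coe', real_inner_comm, hd k (u m), real_inner_comm]
  have o2 : ∀ k, inner ℝ (d k : L2F E X (p + 1)) g = 0 := by
    intro k
    have t1 : Tendsto (fun m => inner ℝ (d k : L2F E X (p + 1)) (dC (c m) : L2F E X (p + 1)))
        atTop (𝓝 (inner ℝ (d k : L2F E X (p + 1)) g)) :=
      tendsto_const_nhds.inner hg
    refine tendsto_nhds_unique t1 (tendsto_const_nhds.congr fun m => ?_)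
    rw [inner_coe', real_inner_comm, ← hd k (dC (c m)), dC_dC, inner_zero_left]
  have o3 : inner ℝ (a - g) (a - g) = 0 := by
    have t1 : Tendsto (fun k => inner ℝ (d k : L2F E X (p + 1)) (a - g)) atTop
        (𝓝 (inner ℝ (a - g) (a - g))) := hdlim.inner tendsto_const_nhds
    refine tendsto_nhds_unique t1 (tendsto_const_nhds.congr fun k => ?_)
    rw [inner_sub_right, o1, o2, sub_zero]
  have hag : a = g := by
    rw [inner_self_eq_zero, sub_eq_zero] at o3
    exact o3
  refine ⟨c', ?_⟩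
  rw [hag]
  exact DD_of_tendsto hc' hg fun k => DD_coe (c k)

/-- if `(Δ_0)_min` has a bounded inverse, the closed complex is exact at `0`. -/
theorem exact_zero_of_not_zeroInSpec (h : ¬ ZeroInSpec E X 0) (a : L2F E X 0)
    (ha : (a, 0) ∈ DD E X 0) : a = 0 := by
  unfold ZeroInSpec at h
  rw [not_not] at h
  obtain ⟨B, hB⟩ := h
  obtain ⟨u, hu, hdu⟩ := DD_seq ha
  have hmem : ((B a, a) : L2F E X 0 × L2F E X 0) ∈ closure (lapGraph E X 0) := by
    have : ((B a, a) : L2F E X 0 × L2F E X 0) ∈ lapMinGraph E X 0 := by rw [hB]; rfl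
    exact this
  rw [mem_closure_iff_seq_limit] at hmem
  obtain ⟨z, hz, hzlim⟩ := hmem
  choose w η hL hzeq using hz
  have hηlim : Tendsto (fun k => (η k : L2F E X 0)) atTop (𝓝 a) := by
    have := (continuous_snd.tendsto _).comp hzlim
    refine this.congr fun k => ?_
    simp only [Function.comp, hzeq k]
  have o1 : ∀ k, inner ℝ (η k : L2F E X 0) a = 0 := by
    intro k
    have t1 : Tendsto (fun m => inner ℝ (η k : L2F E X 0) (u m : L2F E X 0)) atTop
        (𝓝 (inner ℝ (η k : L2F E X 0) a)) := tendsto_const_nhds.inner hu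
    have t2 : Tendsto (fun m => inner ℝ (dC (w k) : L2F E X (0 + 1))
        (dC (u m) : L2F E X (0 + 1))) atTop
        (𝓝 (inner ℝ (dC (w k) : L2F E X (0 + 1)) (0 : L2F E X (0 + 1)))) :=
      tendsto_const_nhds.inner hdu
    rw [inner_zero_right] at t2
    refine tendsto_nhds_unique t1 (t2.congr fun m => ?_)
    rw [inner_coe', inner_coe']
    have h1 : inner ℝ (dC (u m)) (dC (w k)) = inner ℝ (u m) (η k) := hL k (u m).1 (u m).2
    rw [real_inner_comm, h1, real_inner_comm]
  have o2 : inner ℝ a a = 0 := by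
    have t1 : Tendsto (fun k => inner ℝ (η k : L2F E X 0) a) atTop (𝓝 (inner ℝ a a)) :=
      hηlim.inner tendsto_const_nhds
    refine tendsto_nhds_unique t1 (tendsto_const_nhds.congr fun k => ?_)
    rw [o1]
  rwa [inner_self_eq_zero] at o2

end Pool.Agent.ZSp
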