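import Pool.Agent.Work.MP_058ed1_gt.C.Base

/-!
# Corner theorem, module PULLV: pull-back of a form by a map from a vector space
-/

open scoped Manifold ContDiff Topology Bundle ENNReal NNReal
open Set MeasureTheory Bundle Filter

set_option linter.unusedSectionVars false

noncomputable section

namespace Pool.Agent.ZSp


section altV

variable {V W U : Type*} [NormedAddCommGroup V] [NormedSpace ℝ V] [NormedAddCommGroup W]
  [NormedSpace ℝ W] [NormedAddCommGroup U] [NormedSpace ℝ U] {p : ℕ}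

/-- a map with values in alternating forms is smooth if all its evaluations are. -/
theorem contDiffAt_altV [FiniteDimensional ℝ W] {F : V → W [⋀^Fin p]→L[ℝ] ℝ} {y : V}
    {m : WithTop ℕ∞} (h : ∀ v, ContDiffAt ℝ m (fun z => F z v) y) : ContDiffAt ℝ m F y := by
  classical
  let b := Module.finBasis ℝ W
  let L : (W [⋀^Fin p]→L[ℝ] ℝ) →ₗ[ℝ] ((Fin p → Fin (Module.finrank ℝ W)) → ℝ) :=
    { toFun := fun f i => f (fun k => b (i k))
      map_add' := fun f g => rfl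
      map_smul' := fun r f => rfl }
  have hL : Function.Injective L := by
    intro f g hfg
    apply ContinuousAlternatingMap.toAlternatingMap_injective
    refine Module.Basis.ext_alternating b fun i _ => ?_
    exact congrFun hfg i
  obtain ⟨M, hM⟩ := LinearMap.exists_leftInverse_of_injective L (LinearMap.ker_eq_bot.2 hL)
  have h1 : F = fun z => LinearMap.toContinuousLinearMap M (L (F z)) := by
    funext z
    exact (LinearMap.congr_fun hM (F z)).symm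
  rw [h1]
  refine (LinearMap.toContinuousLinearMap M).contDiff.contDiffAt.comp y ?_
  exact contDiffAt_pi.2 fun i => h _

theorem contDiffAt_altV_apply {F : V → W [⋀^Fin p]→L[ℝ] ℝ} {y : V}
    {m : WithTop ℕ∞} (hF : ContDiffAt ℝ m F y) (v : Fin p → W) :
    ContDiffAt ℝ m (fun z => F z v) y :=
  (ContinuousAlternatingMap.apply ℝ W ℝ v).contDiff.contDiffAt.comp y hF

theorem contDiffAt_altCompV [FiniteDimensional ℝ U] {F : V → W [⋀^Fin p]→L[ℝ] ℝ}
    {A : V → U →L[ℝ] W} {y : V} {m : WithTop ℕ∞}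
    (hF : ContDiffAt ℝ m F y) (hA : ContDiffAt ℝ m A y) :
    ContDiffAt ℝ m (fun z => (F z).compContinuousLinearMap (A z)) y := by
  apply contDiffAt_altV
  intro v
  have h1 : ContDiffAt ℝ m (fun z => (F z).toContinuousMultilinearMap) y :=
    (ContinuousAlternatingMap.toContinuousMultilinearMapCLM ℝ (E := W) (F := ℝ)
      (ι := Fin p) (𝕜 := ℝ)).contDiff.contDiffAt.comp y hF
  have h2 : ContDiffAt ℝ m (fun z =>
      ContinuousMultilinearMap.compContinuousLinearMapContinuousMultilinear ℝ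
        (fun _ : Fin p => U) (fun _ : Fin p => W) ℝ (fun _ : Fin p => A z)) y :=
    (ContinuousMultilinearMap.contDiff _).contDiffAt.comp y (contDiffAt_pi.2 fun _ => hA)
  have h3 := h2.clm_apply h1
  have h4 := (ContinuousMultilinearMap.apply ℝ (fun _ : Fin p => U) ℝ v).contDiff.contDiffAt
    (n := m) |>.comp y h3
  exact h4

end altV

section pullV

variable {E : Type*} [NormedAddCommGroup E] [InnerProductSpace ℝ E]
  {X : Type*} [TopologicalSpace X] [ChartedSpace E X]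
  {V : Type*} [NormedAddCommGroup V] [NormedSpace ℝ V] {p : ℕ}

/-- the pull-back of `w` by `γ : V → X`. -/
def pullV (γ : V → X) (w : PForm E X p) (x : V) : V [⋀^Fin p]→L[ℝ] ℝ :=
  (w (γ x)).compContinuousLinearMap (mfderiv 𝓘(ℝ, V) 𝓘(ℝ, E) γ x)

variable [FiniteDimensional ℝ E] [FiniteDimensional ℝ V] [IsManifold 𝓘(ℝ, E) ∞ X]

/-- the map `γ` in the chart at `x₁`. -/
def chV (E : Type*) [NormedAddCommGroup E] [InnerProductSpace ℝ E] {X : Type*}
    [TopologicalSpace X] [ChartedSpace E X] {V : Type*} (γ : V → X) (x₁ : X) (z : V) : E :=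
  ch E x₁ (γ z)

omit [FiniteDimensional ℝ V] in
theorem fderiv_chV {γ : V → X} {x₁ : X} {z : V}
    (hg : MDifferentiableAt 𝓘(ℝ, V) 𝓘(ℝ, E) γ z)
    (hgz : γ z ∈ (ch E x₁).source) (v : V) :
    fderiv ℝ (chV E γ x₁) z v =
      mfderiv 𝓘(ℝ, E) 𝓘(ℝ, E) (ch E x₁) (γ z) (mfderiv 𝓘(ℝ, V) 𝓘(ℝ, E) γ z v) := by
  have h1 : HasMFDerivAt 𝓘(ℝ, V) 𝓘(ℝ, E) (chV E γ x₁) z
      ((mfderiv 𝓘(ℝ, E) 𝓘(ℝ, E) (ch E x₁) (γ z)).comp
        (mfderiv 𝓘(ℝ, V) 𝓘(ℝ, E) γ z)) :=
    HasMFDerivAt.comp z (mdiff_ch hgz).hasMFDerivAt hg.hasMFDerivAt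
  rw [← mfderiv_eq_fderiv, h1.mfderiv]
  rfl

omit [FiniteDimensional ℝ V] in
theorem contDiffAt_chV {γ : V → X} {x₁ : X} {z : V}
    (hg : ContMDiffAt 𝓘(ℝ, V) 𝓘(ℝ, E) ∞ γ z) (hgz : γ z ∈ (ch E x₁).source) :
    ContDiffAt ℝ ∞ (chV E γ x₁) z := by
  have h2 : ContMDiffAt 𝓘(ℝ, E) 𝓘(ℝ, E) ∞ (ch E x₁) (γ z) := by
    refine contMDiffAt_extChartAt' ?_
    rwa [← extChartAt_source (I := 𝓘(ℝ, E))]
  have h3 : ContMDiffAt 𝓘(ℝ, V) 𝓘(ℝ, E) ∞ (chV E γ x₁) z := h2.comp z hg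
  exact h3.contDiffAt

omit [FiniteDimensional ℝ V] in
/-- the pull-back in a chart. -/
theorem pullV_chV (w : PForm E X p) {γ : V → X} {x₁ : X} {z : V}
    (hg : MDifferentiableAt 𝓘(ℝ, V) 𝓘(ℝ, E) γ z) (hgz : γ z ∈ (ch E x₁).source) :
    pullV γ w z = (inChart w x₁ (chV E γ x₁ z)).compContinuousLinearMap
      (fderiv ℝ (chV E γ x₁) z) := by
  ext v
  have h1 : (ch E x₁).symm (chV E γ x₁ z) = γ z := (ch E x₁).left_inv hgz
  have h2 : ∀ i, mfderiv 𝓘(ℝ, E) 𝓘(ℝ, E) (ch E x₁).symm (chV E γ x₁ z)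
      (fderiv ℝ (chV E γ x₁) z (v i)) = mfderiv 𝓘(ℝ, V) 𝓘(ℝ, E) γ z (v i) := by
    intro i
    rw [fderiv_chV hg hgz]
    exact mfderiv_ch_symm_comp hgz _
  change w _ _ = w _ _
  refine (form_congr w h1.symm _).trans ?_
  congr 1
  funext i
  exact (h2 i).symm

omit [FiniteDimensional ℝ V] in
theorem eventually_pullV (w : PForm E X p) {γ : V → X} {U : Set V} (hU : IsOpen U)
    (hγ : ContMDiffOn 𝓘(ℝ, V) 𝓘(ℝ, E) ∞ γ U) {x : V} (hx : x ∈ U) :
    pullV γ w =ᶠ[𝓝 x] fun z => (inChart w (γ x) (chV E γ (γ x) z)).compContinuousLinearMap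
      (fderiv ℝ (chV E γ (γ x)) z) := by
  have h1 : ContinuousAt γ x := (hγ.continuousOn.continuousAt (hU.mem_nhds hx))
  have h2 : ∀ᶠ z in 𝓝 x, γ z ∈ (ch E (γ x)).source :=
    h1.eventually ((isOpen_extChartAt_source (γ x)).mem_nhds (mem_extChartAt_source _))
  filter_upwards [h2, hU.mem_nhds hx] with z hz hzU
  exact pullV_chV w ((hγ.contMDiffAt (hU.mem_nhds hzU)).mdifferentiableAt (by simp)) hz

theorem pullV_contDiffOn {γ : V → X} {U : Set V} (hU : IsOpen U)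
    (hγ : ContMDiffOn 𝓘(ℝ, V) 𝓘(ℝ, E) ∞ γ U) {w : PForm E X p} (hw : SmoothForm w) :
    ContDiffOn ℝ ∞ (pullV γ w) U := by
  intro x hx
  have hgx : γ x ∈ (ch E (γ x)).source := mem_extChartAt_source _
  have hT : ContDiffAt ℝ ∞ (chV E γ (γ x)) x :=
    contDiffAt_chV (hγ.contMDiffAt (hU.mem_nhds hx)) hgx
  have h2 : ContDiffAt ℝ ∞ (fun z => inChart w (γ x) (chV E γ (γ x) z)) x :=
    ContDiffAt.comp x (hw.contDiffAt ((ch E (γ x)).map_source hgx)) hT
  have h3 : ContDiffAt ℝ ∞ (fderiv ℝ (chV E γ (γ x))) x := hT.fderiv_right (by simp)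
  exact ((contDiffAt_altCompV h2 h3).congr_of_eventuallyEq
    (eventually_pullV w hU hγ hx)).contDiffWithinAt

theorem extDeriv_pullV {γ : V → X} {U : Set V} (hU : IsOpen U)
    (hγ : ContMDiffOn 𝓘(ℝ, V) 𝓘(ℝ, E) ∞ γ U) {w : PForm E X p} (hw : SmoothForm w) {x : V}
    (hx : x ∈ U) : extDeriv (pullV γ w) x = pullV γ (extD w) x := by
  have hgx : γ x ∈ (ch E (γ x)).source := mem_extChartAt_source _
  have hT : ContDiffAt ℝ ∞ (chV E γ (γ x)) x :=
    contDiffAt_chV (hγ.contMDiffAt (hU.mem_nhds hx)) hgx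
  have hy : chV E γ (γ x) x ∈ (ch E (γ x)).target := (ch E (γ x)).map_source hgx
  rw [(eventually_pullV w hU hγ hx).extDeriv_eq,
    extDeriv_pullback (r := ∞) (hw.differentiableAt hy) hT two_le_infty,
    pullV_chV (extD w) ((hγ.contMDiffAt (hU.mem_nhds hx)).mdifferentiableAt (by simp)) hgx,
    inChart_extD hw (γ x) hy]

end pullV

end Pool.Agent.ZSp
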