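import Pool.Agent.Work.MP_058ed1_gt.C.Loc
import Pool.Agent.Work.MP_058ed1_gt.C.PullV
import Pool.Agent.Work.MP_058ed1_gt.C.Eps
import Pool.Agent.Work.MP_058ed1_gt.C.Bump

/-!
# Corner theorem, module FUN: the functionals `λ_i` and integration by parts
-/

open scoped Manifold ContDiff Topology Bundle ENNReal NNReal
open Set MeasureTheory Bundle Filter

set_option linter.unusedSectionVars false

noncomputable section

namespace Pool.Agent.ZSp

section helper

variable {n : ℕ}

theorem fun_integrable {f : (Fin n → ℝ) → ℝ} {r' r : ℝ} (h1 : r' < r)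
    (hc : ContinuousOn f (Metric.ball 0 r)) (h0 : ∀ x, r' ≤ ‖x‖ → f x = 0) :
    Integrable f := by
  have h2 : IntegrableOn f (Metric.closedBall 0 r') := by
    refine (hc.mono ?_).integrableOn_compact (isCompact_closedBall _ _)
    exact Metric.closedBall_subset_ball h1
  rw [← integrableOn_iff_integrable_of_support_subset (s := Metric.closedBall 0 r')]
  · exact h2
  · intro x hx
    rw [mem_closedBall_zero_iff]
    by_contra hn
    exact hx (h0 x (not_le.1 hn).le)

theorem fun_setIntegral {f : (Fin n → ℝ) → ℝ} {r' r : ℝ} (h1 : r' < r)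
    (h0 : ∀ x, r' ≤ ‖x‖ → f x = 0) : ∫ x in Metric.ball 0 r, f x = ∫ x, f x := by
  apply setIntegral_eq_integral_of_forall_compl_eq_zero
  intro x hx
  apply h0
  rw [mem_ball_zero_iff, not_lt] at hx
  linarith

/-- a linear functional with `|T w| ≤ A + B ‖w‖²` is bounded. -/
theorem fun_bdd {F : Type*} [SeminormedAddCommGroup F] [NormedSpace ℝ F] (T : F →ₗ[ℝ] ℝ)
    {A B : ℝ} (h : ∀ w, ‖T w‖ ≤ A + B * ‖w‖ ^ 2) (w : F) : ‖T w‖ ≤ (A + B) * ‖w‖ := by
  have hs : ∀ s : ℝ, 0 < s → s * ‖T w‖ ≤ A + B * (s * ‖w‖) ^ 2 := by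
    intro s hs
    have h1 := h (s • w)
    rw [map_smul, norm_smul, norm_smul, Real.norm_of_nonneg hs.le] at h1
    exact h1
  rcases (norm_nonneg w).eq_or_lt with h0 | h0
  · rw [← h0, mul_zero]
    by_contra hn
    rw [not_le] at hn
    have h2 := hs ((|A| + 1) / ‖T w‖) (by positivity)
    rw [← h0, mul_zero, zero_pow two_ne_zero, mul_zero, add_zero, div_mul_cancel₀ _ hn.ne'] at h2
    have := le_abs_self A
    linarith
  · have h2 := hs (‖w‖⁻¹) (by positivity)
    rw [inv_mul_cancel₀ h0.ne', one_pow, mul_one, inv_mul_le_iff₀ h0] at h2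
    linarith

end helper

variable {E : Type*} [NormedAddCommGroup E] [InnerProductSpace ℝ E] [FiniteDimensional ℝ E]
  {X : Type*} [EMetricSpace X] [ChartedSpace E X]
  [IsManifold 𝓘(ℝ, E) ∞ X] [RiemannianBundle (fun x : X => TangentSpace 𝓘(ℝ, E) x)]
  [IsContMDiffRiemannianBundle 𝓘(ℝ, E) ∞ E (fun x : X => TangentSpace 𝓘(ℝ, E) x)]
  [IsRiemannianManifold 𝓘(ℝ, E) X] [MeasurableSpace X] [BorelSpace X] {p : ℕ}

variable {n q : ℕ} {s : Fin n → X → X} {τ : Fin n → X → ℝ} {v : X} {r : ℝ}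
  {γ : (Fin n → ℝ) → X} {a b : ℝ → ℝ}

/-- `λ_i(w) = ∫ W_i (γ^*w)(e_{i_1}, …, e_{i_q}) dx`. -/
def lamI (r : ℝ) (γ : (Fin n → ℝ) → X) (a b : ℝ → ℝ) (i : Fin q → Fin n) (w : PForm E X q) : ℝ :=
  ∫ x in Metric.ball (0 : Fin n → ℝ) r, cW a b i x * pullV γ w x (fun c => Pi.single (i c) 1)

/-- the coefficient of the pull-back -/
def fG (γ : (Fin n → ℝ) → X) (i : Fin q → Fin n) (w : PForm E X q) (x : Fin n → ℝ) : ℝ :=
  pullV γ w x (fun c => Pi.single (i c) 1)

theorem fG_contDiffOn (L : LocCoord E s τ r γ) (i : Fin q → Fin n) {w : PForm E X q}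
    (hw : w ∈ OmegaC E X q) : ContDiffOn ℝ ∞ (fG γ i w) (Metric.ball (0 : Fin n → ℝ) r) := by
  have h1 := pullV_contDiffOn (E := E) Metric.isOpen_ball L.smooth hw.1
  exact (ContinuousAlternatingMap.apply ℝ (Fin n → ℝ) ℝ
    (fun c => Pi.single (i c) (1 : ℝ))).contDiff.comp_contDiffOn h1

theorem fWG_continuousOn (L : LocCoord E s τ r γ) (hab : BumpPair r a b) (i j : Fin q → Fin n)
    {w : PForm E X q} (hw : w ∈ OmegaC E X q) :
    ContinuousOn (fun x => cW a b i x * fG γ j w x) (Metric.ball (0 : Fin n → ℝ) r) :=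
  (cW_contDiff hab i).continuous.continuousOn.mul (fG_contDiffOn L j hw).continuousOn

theorem integrable_fWG (L : LocCoord E s τ r γ) (hab : BumpPair r a b) (i : Fin q → Fin n)
    {w : PForm E X q} (hw : w ∈ OmegaC E X q) :
    Integrable (fun x => cW a b i x * fG γ i w x) := by
  obtain ⟨r', h0, h1, h2⟩ := cG_cW_supp hab n
  refine fun_integrable h1 (fWG_continuousOn L hab i i hw) fun x hx => ?_
  rw [(h2 q i x hx).2, zero_mul]

theorem integrableOn_lamI (L : LocCoord E s τ r γ) (hab : BumpPair r a b) (i : Fin q → Fin n)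
    {w : PForm E X q} (hw : w ∈ OmegaC E X q) :
    IntegrableOn (fun x => cW a b i x * pullV γ w x (fun c => Pi.single (i c) 1))
      (Metric.ball (0 : Fin n → ℝ) r) :=
  (integrable_fWG L hab i hw).integrableOn

/-- `λ_i` on `Ω_c^q(X)`. -/
def lamC (L : LocCoord E s τ r γ) (hab : BumpPair r a b) (i : Fin q → Fin n) :
    OmC E X q →ₗ[ℝ] ℝ where
  toFun w := lamI r γ a b i w.1
  map_add' w w' := by
    unfold lamI
    rw [← integral_add (integrableOn_lamI L hab i w.2) (integrableOn_lamI L hab i w'.2)]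
    refine integral_congr_ae (Eventually.of_forall fun x => ?_)
    show cW a b i x * (pullV γ w.1 x (fun c => Pi.single (i c) 1) +
      pullV γ w'.1 x (fun c => Pi.single (i c) 1)) = _
    rw [mul_add]
  map_smul' t w := by
    unfold lamI
    rw [RingHom.id_apply, smul_eq_mul, ← integral_const_mul]
    refine integral_congr_ae (Eventually.of_forall fun x => ?_)
    show cW a b i x * (t * pullV γ w.1 x (fun c => Pi.single (i c) 1)) = _
    ring

theorem norm_lamC_le (L : LocCoord E s τ r γ) (hab : BumpPair r a b) (i : Fin q → Fin n) :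
    ∃ C : ℝ, ∀ w : OmC E X q, ‖lamC L hab i w‖ ≤ C * ‖w‖ := by
  obtain ⟨K, hK⟩ := L.bound
  obtain ⟨K', hK'⟩ := L.compare
  -- bound of the coefficient
  have hG : ∀ (w : PForm E X q), ∀ x ∈ Metric.ball (0 : Fin n → ℝ) r,
      fG γ i w x ^ 2 ≤ (q.factorial : ℝ) * (K ^ 2) ^ q * pin w w (γ x) := by
    intro w x hx
    have h1 := sq_apply_le (V := TangentSpace 𝓘(ℝ, E) (γ x)) (w (γ x))
      (fun c => mfderiv 𝓘(ℝ, Fin n → ℝ) 𝓘(ℝ, E) γ x (Pi.single (i c) (1 : ℝ)))
    have h2 : ∏ c : Fin q, ‖(mfderiv 𝓘(ℝ, Fin n → ℝ) 𝓘(ℝ, E) γ x (Pi.single (i c) (1 : ℝ)) :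
        TangentSpace 𝓘(ℝ, E) (γ x))‖ ^ 2 ≤ (K ^ 2) ^ q := by
      calc ∏ c : Fin q, ‖(mfderiv 𝓘(ℝ, Fin n → ℝ) 𝓘(ℝ, E) γ x (Pi.single (i c) (1 : ℝ)) :
            TangentSpace 𝓘(ℝ, E) (γ x))‖ ^ 2 ≤ ∏ _c : Fin q, K ^ 2 := by
            refine Finset.prod_le_prod (fun _ _ => by positivity) fun c _ => ?_
            have h3 := hK x hx (Pi.single (i c) (1 : ℝ))
            have h4 : ‖(Pi.single (i c) (1 : ℝ) : Fin n → ℝ)‖ = 1 := by
              rw [Pi.norm_single, norm_one]
            rw [h4, mul_one] at h3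
            exact pow_le_pow_left₀ (norm_nonneg _) h3 2
        _ = (K ^ 2) ^ q := by rw [Finset.prod_const, Finset.card_univ, Fintype.card_fin]
    have h5 : 0 ≤ (q.factorial : ℝ) * ainner (w (γ x)) (w (γ x)) :=
      mul_nonneg (by positivity) (ainner_self_nonneg _)
    calc fG γ i w x ^ 2 ≤ (q.factorial : ℝ) * ainner (w (γ x)) (w (γ x)) *
          ∏ c : Fin q, ‖(mfderiv 𝓘(ℝ, Fin n → ℝ) 𝓘(ℝ, E) γ x (Pi.single (i c) (1 : ℝ)) :
            TangentSpace 𝓘(ℝ, E) (γ x))‖ ^ 2 := h1
      _ ≤ (q.factorial : ℝ) * ainner (w (γ x)) (w (γ x)) * (K ^ 2) ^ q :=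
          mul_le_mul_of_nonneg_left h2 h5
      _ = (q.factorial : ℝ) * (K ^ 2) ^ q * pin w w (γ x) := by
          show _ = (q.factorial : ℝ) * (K ^ 2) ^ q * ainner (w (γ x)) (w (γ x))
          ring
  set c₁ : ℝ := (q.factorial : ℝ) * (K ^ 2) ^ q with hc₁
  have hc₁0 : 0 ≤ c₁ := by positivity
  -- the weight
  obtain ⟨r', h0, h1, h2⟩ := cG_cW_supp hab n
  have hW2 : Integrable (fun x : Fin n → ℝ => cW a b i x ^ 2) := by
    refine fun_integrable h1 ((cW_contDiff hab i).continuous.pow 2).continuousOn fun x hx => ?_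
    rw [(h2 q i x hx).2, zero_pow two_ne_zero]
  refine ⟨(∫ x in Metric.ball (0 : Fin n → ℝ) r, cW a b i x ^ 2) + c₁ * K', fun w => ?_⟩
  refine fun_bdd (lamC L hab i) (fun w => ?_) w
  have hcont : Continuous (pin w.1 w.1) := continuous_pin w.2.1 w.2.1
  have hpc : ContinuousOn (fun x => pin w.1 w.1 (γ x)) (Metric.ball (0 : Fin n → ℝ) r) :=
    hcont.comp_continuousOn L.smooth.continuousOn
  have hlint : ∫⁻ x in Metric.ball (0 : Fin n → ℝ) r, ENNReal.ofReal (pin w.1 w.1 (γ x)) ≤
      K' * ENNReal.ofReal (∫ y, pin w.1 w.1 y ∂(vol E X)) := by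
    rw [ofReal_integral_eq_lintegral_ofReal (integrable_pin w.2 w.2)
      (Eventually.of_forall fun y => pin_self_nonneg _ _)]
    exact hK' (fun y => ENNReal.ofReal (pin w.1 w.1 y)) (hcont.measurable.ennreal_ofReal)
  have hint : IntegrableOn (fun x => pin w.1 w.1 (γ x)) (Metric.ball (0 : Fin n → ℝ) r) := by
    refine ⟨hpc.aestronglyMeasurable measurableSet_ball, ?_⟩
    rw [hasFiniteIntegral_iff_ofReal (Eventually.of_forall fun x => pin_self_nonneg _ _)]
    exact hlint.trans_lt (ENNReal.mul_lt_top ENNReal.coe_lt_top ENNReal.ofReal_lt_top)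
  have hpin : ∫ x in Metric.ball (0 : Fin n → ℝ) r, pin w.1 w.1 (γ x) ≤ K' * ‖w‖ ^ 2 := by
    rw [norm_sq_eq, integral_eq_lintegral_of_nonneg_ae
      (Eventually.of_forall fun x => pin_self_nonneg _ _) hint.1]
    have h3 := ENNReal.toReal_mono (ENNReal.mul_ne_top ENNReal.coe_ne_top ENNReal.ofReal_ne_top)
      hlint
    refine h3.trans (le_of_eq ?_)
    rw [ENNReal.toReal_mul, ENNReal.coe_toReal]
    congr 1
    exact ENNReal.toReal_ofReal (l2_self_nonneg w.1)
  calc ‖lamC L hab i w‖ = ‖∫ x in Metric.ball (0 : Fin n → ℝ) r, cW a b i x * fG γ i w.1 x‖ := rfl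
    _ ≤ ∫ x in Metric.ball (0 : Fin n → ℝ) r, ‖cW a b i x * fG γ i w.1 x‖ :=
        norm_integral_le_integral_norm _
    _ ≤ ∫ x in Metric.ball (0 : Fin n → ℝ) r, (cW a b i x ^ 2 + c₁ * pin w.1 w.1 (γ x)) := by
        refine setIntegral_mono_on (integrable_fWG L hab i w.2).integrableOn.norm
          (hW2.integrableOn.add (hint.const_mul _)) measurableSet_ball fun x hx => ?_
        rw [norm_mul, Real.norm_eq_abs, Real.norm_eq_abs]
        have h3 := hG w.1 x hx
        nlinarith [sq_nonneg (|cW a b i x| - |fG γ i w.1 x|), sq_abs (cW a b i x),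
          sq_abs (fG γ i w.1 x), abs_nonneg (cW a b i x), abs_nonneg (fG γ i w.1 x)]
    _ = (∫ x in Metric.ball (0 : Fin n → ℝ) r, cW a b i x ^ 2) +
          c₁ * ∫ x in Metric.ball (0 : Fin n → ℝ) r, pin w.1 w.1 (γ x) := by
        rw [integral_add hW2.integrableOn (hint.const_mul _), integral_const_mul]
    _ ≤ (∫ x in Metric.ball (0 : Fin n → ℝ) r, cW a b i x ^ 2) + c₁ * (K' * ‖w‖ ^ 2) := by
        gcongr
    _ = (∫ x in Metric.ball (0 : Fin n → ℝ) r, cW a b i x ^ 2) + c₁ * K' * ‖w‖ ^ 2 := by ring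

/-- `λ_i` on `L²Ω^q(X)`. -/
def lamL (L : LocCoord E s τ r γ) (hab : BumpPair r a b) (i : Fin q → Fin n) :
    L2F E X q →L[ℝ] ℝ := extC (lamC L hab i) (norm_lamC_le L hab i)

theorem lamL_coe (L : LocCoord E s τ r γ) (hab : BumpPair r a b) (i : Fin q → Fin n)
    (w : OmC E X q) : lamL L hab i (w : L2F E X q) = lamI r γ a b i w.1 := extC_coe _ _ _

/-- `λ_i(ε_j w)`. -/
theorem lamL_EC (L : LocCoord E s τ r γ) (hab : BumpPair r a b) (i : Fin q → Fin n) (j : Fin n)
    (hτ : ContMDiff 𝓘(ℝ, E) 𝓘(ℝ, ℝ) ∞ (τ j)) (w : OmC E X q) :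
    lamL L hab i (EC hτ q (w : L2F E X q)) = ∫ x in Metric.ball (0 : Fin n → ℝ) r,
      Real.sign (x j) * (cW a b i x * pullV γ w.1 x (fun c => Pi.single (i c) 1)) := by
  have h1 : Tendsto (fun k : ℕ => lamL L hab i
      (mulC (stpk (τ j) k) (stpk_smooth hτ k) w : L2F E X q)) atTop
      (𝓝 (lamL L hab i (EC hτ q w))) :=
    ((lamL L hab i).continuous.tendsto _).comp (EC_tendsto hτ w)
  have h2 : ∀ k : ℕ, lamL L hab i (mulC (stpk (τ j) k) (stpk_smooth hτ k) w : L2F E X q) =
      ∫ x in Metric.ball (0 : Fin n → ℝ) r, stp (k * x j) *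
        (cW a b i x * pullV γ w.1 x (fun c => Pi.single (i c) 1)) := by
    intro k
    rw [lamL_coe]
    refine setIntegral_congr_fun measurableSet_ball fun x hx => ?_
    show cW a b i x * (stp (k * τ j (γ x)) * pullV γ w.1 x (fun c => Pi.single (i c) 1)) = _
    rw [L.right_inv x hx j]
    ring
  have h3 : Tendsto (fun k : ℕ => ∫ x in Metric.ball (0 : Fin n → ℝ) r, stp (k * x j) *
        (cW a b i x * pullV γ w.1 x (fun c => Pi.single (i c) 1))) atTop
      (𝓝 (∫ x in Metric.ball (0 : Fin n → ℝ) r, Real.sign (x j) *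
        (cW a b i x * pullV γ w.1 x (fun c => Pi.single (i c) 1)))) := by
    refine tendsto_integral_of_dominated_convergence
      (fun x => ‖cW a b i x * pullV γ w.1 x (fun c => Pi.single (i c) 1)‖) ?_
      (integrableOn_lamI L hab i w.2).norm ?_ ?_
    · intro k
      refine AEStronglyMeasurable.mul ?_ (integrableOn_lamI L hab i w.2).1
      have : Continuous (fun x : Fin n → ℝ => stp (k * x j)) :=
        stp_contDiff.continuous.comp (continuous_const.mul (continuous_apply j))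
      exact this.aestronglyMeasurable
    · intro k
      refine Eventually.of_forall fun x => ?_
      rw [norm_mul]
      have h4 : ‖stp (k * x j)‖ ≤ 1 := by
        rw [Real.norm_eq_abs]
        exact abs_stp_le _
      calc ‖stp (k * x j)‖ * ‖cW a b i x * pullV γ w.1 x (fun c => Pi.single (i c) 1)‖
          ≤ 1 * ‖cW a b i x * pullV γ w.1 x (fun c => Pi.single (i c) 1)‖ :=
            mul_le_mul_of_nonneg_right h4 (norm_nonneg _)
        _ = _ := one_mul _
    · refine Eventually.of_forall fun x => ?_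
      exact (stp_tendsto (x j)).mul_const _
  simp only [h2] at h1
  exact tendsto_nhds_unique h1 h3

/-- integration by parts for one term. -/
theorem lam_parts (L : LocCoord E s τ r γ) (hab : BumpPair r a b) {i : Fin (q + 1) → Fin n}
    (hi : Function.Injective i) (k : Fin (q + 1)) {u : PForm E X q} (hu : u ∈ OmegaC E X q) :
    ∫ x in Metric.ball (0 : Fin n → ℝ) r,
      cW a b i x * fderiv ℝ (fG γ (k.removeNth i : Fin q → Fin n) u) x (Pi.single (i k) 1) =
    - ∫ x in Metric.ball (0 : Fin n → ℝ) r, Real.sign (x (i k)) *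
      (cW a b (k.removeNth i : Fin q → Fin n) x * fG γ (k.removeNth i : Fin q → Fin n) u x) := by
  obtain ⟨r', h0, h1, h2⟩ := cG_cW_supp hab n
  set j : Fin q → Fin n := k.removeNth i with hj
  set e : Fin n → ℝ := Pi.single (i k) 1 with he
  have hW := cW_contDiff hab i
  have hWd : Differentiable ℝ (cW a b i) := hW.differentiable (by simp)
  have hG := fG_contDiffOn L j hu
  have hGd : ContinuousOn (fun x => fderiv ℝ (fG γ j u) x e) (Metric.ball (0 : Fin n → ℝ) r) :=
    (hG.continuousOn_fderiv_of_isOpen Metric.isOpen_ball (by simp)).clm_apply continuousOn_const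
  have hW0 : ∀ x : Fin n → ℝ, r' < ‖x‖ → fderiv ℝ (cW a b i) x = 0 := by
    intro x hx
    have h3 : cW a b i =ᶠ[𝓝 x] fun _ => (0 : ℝ) := by
      filter_upwards [(isOpen_lt continuous_const continuous_norm).mem_nhds hx] with y hy
      exact (h2 _ i y (le_of_lt hy)).2
    rw [h3.fderiv_eq]
    simp
  obtain ⟨r'', h3, h4⟩ : ∃ r'', r' < r'' ∧ r'' < r := ⟨(r' + r) / 2, by linarith, by linarith⟩
  have hsupp : ∀ x ∈ tsupport (cW a b i), x ∈ Metric.ball (0 : Fin n → ℝ) r := by
    intro x hx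
    have h5 : tsupport (cW a b i) ⊆ Metric.closedBall (0 : Fin n → ℝ) r' := by
      refine closure_minimal ?_ Metric.isClosed_closedBall
      intro y hy
      rw [mem_closedBall_zero_iff]
      by_contra hn
      exact hy (h2 _ i y (not_le.1 hn).le).2
    exact Metric.closedBall_subset_ball h1 (h5 hx)
  have i1 : Integrable (fun x => fderiv ℝ (cW a b i) x e * fG γ j u x) := by
    refine fun_integrable h4 ?_ fun x hx => ?_
    · refine ContinuousOn.mul ?_ hG.continuousOn
      exact ((hW.continuous_fderiv (by simp)).clm_apply continuous_const).continuousOn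
    · rw [hW0 x (by linarith)]
      simp
  have i2 : Integrable (fun x => cW a b i x * fderiv ℝ (fG γ j u) x e) := by
    refine fun_integrable h1 (hW.continuous.continuousOn.mul hGd) fun x hx => ?_
    rw [(h2 _ i x hx).2, zero_mul]
  have i3 : Integrable (fun x => cW a b i x * fG γ j u x) := by
    refine fun_integrable h1 (hW.continuous.continuousOn.mul hG.continuousOn) fun x hx => ?_
    rw [(h2 _ i x hx).2, zero_mul]
  have hmain := integral_mul_fderiv_eq_neg_fderiv_mul_of_integrable (μ := volume)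
    (f := cW a b i) (g := fG γ j u) (v := e) i1 i2 i3 (fun x _ => hWd x)
    (fun x hx => (hG.differentiableOn (by simp)).differentiableAt
      (Metric.isOpen_ball.mem_nhds (hsupp x hx)))
  rw [fun_setIntegral h1 (f := fun x => cW a b i x * fderiv ℝ (fG γ j u) x e)
    (fun x hx => by rw [(h2 _ i x hx).2, zero_mul]), hmain]
  congr 1
  have e1 : ∀ x, fderiv ℝ (cW a b i) x e * fG γ j u x =
      Real.sign (x (i k)) * (cW a b j x * fG γ j u x) := by
    intro x
    rw [he, fderiv_cW hab hi k x, ← hj]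
    ring
  simp only [e1]
  rw [fun_setIntegral h1]
  intro x hx
  rw [(h2 _ j x hx).2]
  ring

/-- integration by parts. -/
theorem lamL_stokes (L : LocCoord E s τ r γ) (hab : BumpPair r a b)
    (hτ : ∀ j, ContMDiff 𝓘(ℝ, E) 𝓘(ℝ, ℝ) ∞ (τ j)) {i : Fin (q + 1) → Fin n}
    (hi : Function.Injective i) {h : L2F E X q} {η : L2F E X (q + 1)} (hη : (h, η) ∈ DD E X q) :
    lamL L hab i η = - ∑ k : Fin (q + 1), (-1 : ℝ) ^ (k : ℕ) *
      lamL L hab (k.removeNth i : Fin q → Fin n) (EC (hτ (i k)) q h) := by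
  obtain ⟨u, hu, hw⟩ := DD_seq hη
  have key : ∀ u : OmC E X q, lamL L hab i (dC u : L2F E X (q + 1)) =
      - ∑ k : Fin (q + 1), (-1 : ℝ) ^ (k : ℕ) *
        lamL L hab (k.removeNth i : Fin q → Fin n) (EC (hτ (i k)) q (u : L2F E X q)) := by
    intro u
    obtain ⟨r', h0, h1, h2⟩ := cG_cW_supp hab n
    rw [lamL_coe]
    have e1 : lamI r γ a b i (dC u).1 = ∫ x in Metric.ball (0 : Fin n → ℝ) r,
        ∑ k : Fin (q + 1), (-1 : ℝ) ^ (k : ℕ) * (cW a b i x *
          fderiv ℝ (fG γ (k.removeNth i : Fin q → Fin n) u.1) x (Pi.single (i k) 1)) := by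
      refine setIntegral_congr_fun measurableSet_ball fun x hx => ?_
      show cW a b i x * pullV γ (extD u.1) x (fun c => Pi.single (i c) 1) = _
      have hd : DifferentiableAt ℝ (pullV γ u.1) x :=
        ((pullV_contDiffOn (E := E) Metric.isOpen_ball L.smooth u.2.1).differentiableOn
          (by simp)).differentiableAt (Metric.isOpen_ball.mem_nhds hx)
      rw [← extDeriv_pullV (E := E) Metric.isOpen_ball L.smooth u.2.1 hx, extDeriv_apply hd,
        Finset.mul_sum]
      refine Finset.sum_congr rfl fun k _ => ?_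
      show cW a b i x * ((-1 : ℤ) ^ (k : ℕ) •
        (fderiv ℝ (fG γ (k.removeNth i : Fin q → Fin n) u.1) x (Pi.single (i k) 1))) = _
      rw [zsmul_eq_mul]
      push_cast
      ring
    have hint : ∀ k : Fin (q + 1), IntegrableOn (fun x => (-1 : ℝ) ^ (k : ℕ) * (cW a b i x *
          fderiv ℝ (fG γ (k.removeNth i : Fin q → Fin n) u.1) x (Pi.single (i k) 1)))
          (Metric.ball (0 : Fin n → ℝ) r) := by
      intro k
      refine (Integrable.const_mul ?_ _)
      have hG := fG_contDiffOn L (k.removeNth i : Fin q → Fin n) u.2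
      have hGd : ContinuousOn (fun x => fderiv ℝ (fG γ (k.removeNth i : Fin q → Fin n) u.1) x
          (Pi.single (i k) 1)) (Metric.ball (0 : Fin n → ℝ) r) :=
        (hG.continuousOn_fderiv_of_isOpen Metric.isOpen_ball (by simp)).clm_apply
          continuousOn_const
      refine (fun_integrable h1 ((cW_contDiff hab i).continuous.continuousOn.mul hGd)
        fun x hx => ?_).integrableOn
      show cW a b i x * _ = 0
      rw [(h2 _ i x hx).2, zero_mul]
    rw [e1, integral_finsetSum _ fun k _ => hint k, ← Finset.sum_neg_distrib]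
    refine Finset.sum_congr rfl fun k _ => ?_
    rw [integral_const_mul, lam_parts L hab hi k u.2, lamL_EC]
    show _ = -((-1 : ℝ) ^ (k : ℕ) * ∫ x in Metric.ball (0 : Fin n → ℝ) r,
      Real.sign (x (i k)) * (cW a b (k.removeNth i : Fin q → Fin n) x *
        fG γ (k.removeNth i : Fin q → Fin n) u.1 x))
    ring
  have l1 : Tendsto (fun m => lamL L hab i (dC (u m) : L2F E X (q + 1))) atTop
      (𝓝 (lamL L hab i η)) := ((lamL L hab i).continuous.tendsto _).comp hw
  have l2 : Tendsto (fun m => - ∑ k : Fin (q + 1), (-1 : ℝ) ^ (k : ℕ) *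
        lamL L hab (k.removeNth i : Fin q → Fin n) (EC (hτ (i k)) q (u m : L2F E X q))) atTop
      (𝓝 (- ∑ k : Fin (q + 1), (-1 : ℝ) ^ (k : ℕ) *
        lamL L hab (k.removeNth i : Fin q → Fin n) (EC (hτ (i k)) q h))) := by
    refine (tendsto_finsetSum _ fun k _ => ?_).neg
    refine Tendsto.const_mul _ ?_
    exact (((lamL L hab (k.removeNth i : Fin q → Fin n)).continuous.comp
      (EC (hτ (i k)) q).continuous).tendsto _).comp hu
  simp only [key] at l1
  exact tendsto_nhds_unique l1 l2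

end Pool.Agent.ZSp
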