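import Mathlib

/-!
# Corner theorem, module VFORM: the forms `dx_{i_1} ∧ … ∧ dx_{i_q}` on `ℝⁿ = Fin n → ℝ`
-/

open scoped Topology ContDiff
open Set Filter

noncomputable section

namespace Pool.Agent.ZSp

variable {n q : ℕ}

/-- the determinant as a continuous alternating map. -/
def detCAM (q : ℕ) : (Fin q → ℝ) [⋀^Fin q]→L[ℝ] ℝ :=
  { (Matrix.detRowAlternating : (Fin q → ℝ) [⋀^Fin q]→ₗ[ℝ] ℝ) with
    cont := by
      show Continuous (fun v : Fin q → Fin q → ℝ => Matrix.det (Matrix.of v))
      exact Continuous.matrix_det continuous_id }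

/-- `dx_{i_1} ∧ … ∧ dx_{i_q}`. -/
def dxT (i : Fin q → Fin n) : (Fin n → ℝ) [⋀^Fin q]→L[ℝ] ℝ :=
  (detCAM q).compContinuousLinearMap
    (ContinuousLinearMap.pi fun a => ContinuousLinearMap.proj (R := ℝ) (φ := fun _ : Fin n => ℝ) (i a))

theorem dxT_apply (i : Fin q → Fin n) (v : Fin q → Fin n → ℝ) :
    dxT i v = Matrix.det (Matrix.of fun a b => v a (i b)) := by
  rfl

theorem dxT_perm (σ : Equiv.Perm (Fin q)) (i : Fin q → Fin n) :
    dxT (i ∘ σ) = ((Equiv.Perm.sign σ : ℤ) : ℝ) • dxT i := by
  ext v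
  rw [ContinuousAlternatingMap.smul_apply, smul_eq_mul, dxT_apply, dxT_apply,
    ← Matrix.det_permute' σ (Matrix.of fun a b => v a (i b))]
  rfl

theorem dxT_of_not_injective {i : Fin q → Fin n} (hi : ¬ Function.Injective i) :
    dxT i = 0 := by
  unfold Function.Injective at hi
  push Not at hi
  obtain ⟨a, b, hab, hne⟩ := hi
  ext v
  rw [dxT_apply]
  change _ = (0 : ℝ)
  refine Matrix.det_zero_of_column_eq hne fun k => ?_
  rw [Matrix.of_apply, Matrix.of_apply, hab]

theorem dxT_basis {i : Fin q → Fin n} (hi : Function.Injective i) :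
    dxT i (fun a => Pi.single (i a) 1) = 1 := by
  rw [dxT_apply]
  have h : (Matrix.of fun a b : Fin q => (Pi.single (i a) (1 : ℝ) : Fin n → ℝ) (i b)) =
      (1 : Matrix (Fin q) (Fin q) ℝ) := by
    ext a b
    rw [Matrix.of_apply, Matrix.one_apply]
    by_cases h : a = b
    · subst h
      simp
    · rw [if_neg h, Pi.single_eq_of_ne]
      exact fun h' => h (hi h').symm
  rw [h, Matrix.det_one]

/-- `dx_j ∧ dx_i = dx_{(j, i)}`. -/
theorem wedge_dxT (j : Fin n) (i : Fin q → Fin n) :
    ContinuousAlternatingMap.alternatizeUncurryFin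
      ((ContinuousLinearMap.proj (R := ℝ) (φ := fun _ : Fin n => ℝ) j).smulRight (dxT i)) =
        dxT (Fin.cons j i : Fin (q + 1) → Fin n) := by
  ext v
  rw [ContinuousAlternatingMap.alternatizeUncurryFin_apply, dxT_apply,
    Matrix.det_succ_column_zero]
  refine Finset.sum_congr rfl fun a _ => ?_
  rw [ContinuousLinearMap.smulRight_apply, ContinuousLinearMap.proj_apply,
    ContinuousAlternatingMap.smul_apply, dxT_apply, smul_eq_mul, zsmul_eq_mul, ← mul_assoc]
  push_cast
  rfl

/-- change of the sign of the `k`-th coordinate. -/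
def flipL (k : Fin n) : (Fin n → ℝ) →L[ℝ] (Fin n → ℝ) :=
  ContinuousLinearMap.pi fun l => (if l = k then (-1 : ℝ) else 1) •
    ContinuousLinearMap.proj (R := ℝ) (φ := fun _ : Fin n => ℝ) l

theorem flipL_apply (k : Fin n) (x : Fin n → ℝ) (l : Fin n) :
    flipL k x l = if l = k then - x l else x l := by
  unfold flipL
  rw [ContinuousLinearMap.pi_apply]
  split_ifs <;> simp

open Classical in
theorem dxT_flip (k : Fin n) (i : Fin q → Fin n) :
    (dxT i).compContinuousLinearMap (flipL k) =
      (if k ∈ Set.range i then (-1 : ℝ) else 1) • dxT i := by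
  by_cases hi : Function.Injective i
  · ext v
    rw [ContinuousAlternatingMap.compContinuousLinearMap_apply, dxT_apply,
      ContinuousAlternatingMap.smul_apply, dxT_apply, smul_eq_mul]
    have h1 : (Matrix.of fun a b : Fin q => (flipL k ∘ v) a (i b)) =
        Matrix.of fun a b => (if i b = k then (-1 : ℝ) else 1) *
          (Matrix.of fun a b => v a (i b)) a b := by
      ext a b
      rw [Matrix.of_apply, Function.comp, flipL_apply, Matrix.of_apply, Matrix.of_apply]
      split_ifs <;> ring
    rw [h1, Matrix.det_mul_row]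
    congr 1
    by_cases hk : k ∈ Set.range i
    · obtain ⟨b, rfl⟩ := hk
      rw [if_pos ⟨b, rfl⟩, Finset.prod_eq_single b]
      · rw [if_pos rfl]
      · intro c _ hc
        rw [if_neg fun h => hc (hi h)]
      · intro h
        exact absurd (Finset.mem_univ b) h
    · rw [if_neg hk]
      refine Finset.prod_eq_one fun b _ => ?_
      rw [if_neg fun h => hk ⟨b, h⟩]
  · rw [dxT_of_not_injective hi, smul_zero]
    ext v
    rfl

end Pool.Agent.ZSp
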