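import Pool.Agent.Work.MP_058ed1_gt.C.Base
import Pool.Agent.Work.MP_058ed1_gt.C.Vform
import Pool.Agent.Work.MP_058ed1_gt.G.Poin

/-!
# Corner theorem, module LOC: local coordinates at the corner
-/

open scoped Manifold ContDiff Topology Bundle ENNReal NNReal
open Set MeasureTheory Bundle Filter

set_option linter.unusedSectionVars false

noncomputable section

namespace Pool.Agent.ZSp


variable {E : Type*} [NormedAddCommGroup E] [InnerProductSpace ℝ E] [FiniteDimensional ℝ E]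
  {X : Type*} [EMetricSpace X] [ChartedSpace E X]
  [IsManifold 𝓘(ℝ, E) ∞ X] [RiemannianBundle (fun x : X => TangentSpace 𝓘(ℝ, E) x)]
  [IsContMDiffRiemannianBundle 𝓘(ℝ, E) ∞ E (fun x : X => TangentSpace 𝓘(ℝ, E) x)]
  [IsRiemannianManifold 𝓘(ℝ, E) X] [MeasurableSpace X] [BorelSpace X] {p : ℕ}

variable (E) in
/-- `γ` is the inverse of `τ = (τ_1, …, τ_n)` on the cube `|x_l| < r`, with values near the
corner; it turns the `s_i` into sign changes. -/
structure LocCoord {n : ℕ} (s : Fin n → X → X) (τ : Fin n → X → ℝ) (r : ℝ)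
    (γ : (Fin n → ℝ) → X) : Prop where
  r_pos : 0 < r
  smooth : ContMDiffOn 𝓘(ℝ, Fin n → ℝ) 𝓘(ℝ, E) ∞ γ (Metric.ball 0 r)
  right_inv : ∀ x ∈ Metric.ball (0 : Fin n → ℝ) r, ∀ l, τ l (γ x) = x l
  image_open : IsOpen (γ '' Metric.ball 0 r)
  flip : ∀ x ∈ Metric.ball (0 : Fin n → ℝ) r, ∀ k, s k (γ x) = γ (flipL k x)
  bound : ∃ K : ℝ, ∀ x ∈ Metric.ball (0 : Fin n → ℝ) r, ∀ u : Fin n → ℝ,
    ‖(mfderiv 𝓘(ℝ, Fin n → ℝ) 𝓘(ℝ, E) γ x u : TangentSpace 𝓘(ℝ, E) (γ x))‖ ≤ K * ‖u‖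
  compare : ∃ K : ℝ≥0, ∀ f : X → ℝ≥0∞, Measurable f →
    ∫⁻ x in Metric.ball (0 : Fin n → ℝ) r, f (γ x) ≤ K * ∫⁻ y, f y ∂(vol E X)

/-! ### the map `τ` in the chart at the corner -/

variable (E) in
/-- the functions `τ_l` in the chart at `v`. -/
def locT {n : ℕ} (τ : Fin n → X → ℝ) (v : X) (y : E) : Fin n → ℝ :=
  fun l => τ l ((ch E v).symm y)

section T

variable {n : ℕ} {s : Fin n → X → X} {τ : Fin n → X → ℝ} {v : X}

theorem Corner.fix_v (h : Corner E s τ v) (k : Fin n) : s k v = v := h.fix k v (h.vertex k)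

theorem Corner.locT_contDiffOn (h : Corner E s τ v) :
    ContDiffOn ℝ ∞ (locT E τ v) (ch E v).target :=
  contDiffOn_pi.2 fun l => contDiffOn_fun (h.smooth_τ l) v

theorem Corner.locT_contDiffAt (h : Corner E s τ v) {y : E} (hy : y ∈ (ch E v).target) :
    ContDiffAt ℝ ∞ (locT E τ v) y :=
  (h.locT_contDiffOn).contDiffAt (ch_target_nhds hy)

theorem Corner.locT_base (h : Corner E s τ v) : locT E τ v (ch E v v) = 0 := by
  funext l
  show τ l ((ch E v).symm (ch E v v)) = 0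
  rw [(ch E v).left_inv (mem_extChartAt_source v)]
  exact h.vertex l

theorem Corner.locT_flip_eventually (h : Corner E s τ v) (k : Fin n) :
    ∀ᶠ y in 𝓝 (ch E v v), locT E τ v (chTrans (s k) v v y) = flipL k (locT E τ v y) := by
  have h1 : ContinuousAt (fun y => s k ((ch E v).symm y)) (ch E v v) :=
    ((h.smooth_s k).continuous.continuousAt).comp (continuousAt_ch_symm (ch_self_mem_target v))
  have h2 : s k ((ch E v).symm (ch E v v)) = v := by
    rw [(ch E v).left_inv (mem_extChartAt_source v), h.fix_v k]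
  have h3 : ∀ᶠ y in 𝓝 (ch E v v), s k ((ch E v).symm y) ∈ (ch E v).source := by
    refine h1.eventually ((isOpen_extChartAt_source v).mem_nhds ?_)
    show s k ((ch E v).symm (ch E v v)) ∈ _
    rw [h2]
    exact mem_extChartAt_source v
  filter_upwards [h3] with y hy
  funext l
  show τ l ((ch E v).symm (ch E v (s k ((ch E v).symm y)))) = _
  rw [(ch E v).left_inv hy, flipL_apply]
  by_cases hl : l = k
  · subst hl
    rw [if_pos rfl]
    exact h.odd l _
  · rw [if_neg hl]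
    exact h.even l k _ hl

/-- the derivative of `τ` at the corner and the flips. -/
theorem Corner.fderiv_locT_flip (h : Corner E s τ v) (k : Fin n) (u : E) :
    fderiv ℝ (locT E τ v) (ch E v v) (fderiv ℝ (chTrans (s k) v v) (ch E v v) u) =
      flipL k (fderiv ℝ (locT E τ v) (ch E v v) u) := by
  have hb : chTrans (s k) v v (ch E v v) = ch E v v := by
    show ch E v (s k ((ch E v).symm (ch E v v))) = _
    rw [(ch E v).left_inv (mem_extChartAt_source v), h.fix_v k]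
  have hgy : s k ((ch E v).symm (ch E v v)) ∈ (ch E v).source := by
    rw [(ch E v).left_inv (mem_extChartAt_source v), h.fix_v k]
    exact mem_extChartAt_source v
  have hc : ContDiffAt ℝ ∞ (chTrans (s k) v v) (ch E v v) :=
    contDiffAt_chTrans (h.smooth_s k) (ch_self_mem_target v) hgy
  have hT := h.locT_contDiffAt (ch_self_mem_target v)
  have hTd : DifferentiableAt ℝ (locT E τ v) (ch E v v) := hT.differentiableAt (by simp)
  have hcd : DifferentiableAt ℝ (chTrans (s k) v v) (ch E v v) := hc.differentiableAt (by simp)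
  have e1 : HasFDerivAt (fun y => locT E τ v (chTrans (s k) v v y))
      ((fderiv ℝ (locT E τ v) (ch E v v)).comp (fderiv ℝ (chTrans (s k) v v) (ch E v v)))
      (ch E v v) := by
    have e0 : HasFDerivAt (locT E τ v) (fderiv ℝ (locT E τ v) (ch E v v))
        (chTrans (s k) v v (ch E v v)) := by
      rw [hb]
      exact hTd.hasFDerivAt
    exact e0.comp (ch E v v) hcd.hasFDerivAt
  have e2 : HasFDerivAt (fun y => flipL k (locT E τ v y))
      ((flipL k).comp (fderiv ℝ (locT E τ v) (ch E v v))) (ch E v v) :=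
    (flipL k).hasFDerivAt.comp (ch E v v) hTd.hasFDerivAt
  have e3 := e1.congr_of_eventuallyEq
    ((h.locT_flip_eventually k).mono fun y hy => hy.symm)
  have e4 := e3.unique e2
  exact congrArg (fun L : E →L[ℝ] (Fin n → ℝ) => L u) e4

theorem Corner.exists_fderiv_ne (h : Corner E s τ v) (k : Fin n) :
    ∃ u : E, fderiv ℝ (locT E τ v) (ch E v v) u k ≠ 0 := by
  have h0 := h.regular k v (h.vertex k)
  obtain ⟨u', hu'⟩ : ∃ u', mfderiv 𝓘(ℝ, E) 𝓘(ℝ, ℝ) (τ k) v u' ≠ 0 := by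
    by_contra hcon
    push Not at hcon
    exact h0 (ContinuousLinearMap.ext hcon)
  refine ⟨mfderiv 𝓘(ℝ, E) 𝓘(ℝ, E) (ch E v) v u', ?_⟩
  have hT := h.locT_contDiffAt (ch_self_mem_target v)
  have hTd : DifferentiableAt ℝ (locT E τ v) (ch E v v) := hT.differentiableAt (by simp)
  have e1 : fderiv ℝ (locT E τ v) (ch E v v) (mfderiv 𝓘(ℝ, E) 𝓘(ℝ, E) (ch E v) v u') k =
      fderiv ℝ (fun y => τ k ((ch E v).symm y)) (ch E v v)
        (mfderiv 𝓘(ℝ, E) 𝓘(ℝ, E) (ch E v) v u') := by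
    have e2 : HasFDerivAt (fun y => locT E τ v y k)
        ((ContinuousLinearMap.proj (R := ℝ) (φ := fun _ : Fin n => ℝ) k).comp
          (fderiv ℝ (locT E τ v) (ch E v v))) (ch E v v) :=
      (ContinuousLinearMap.proj (R := ℝ) (φ := fun _ : Fin n => ℝ) k).hasFDerivAt.comp
        (ch E v v) hTd.hasFDerivAt
    have e3 : fderiv ℝ (fun y => τ k ((ch E v).symm y)) (ch E v v) =
        (ContinuousLinearMap.proj (R := ℝ) (φ := fun _ : Fin n => ℝ) k).comp
          (fderiv ℝ (locT E τ v) (ch E v v)) := e2.fderiv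
    rw [e3]
    rfl
  rw [e1]
  have hx : (ch E v).symm (ch E v v) = v := (ch E v).left_inv (mem_extChartAt_source v)
  have hτd : MDifferentiableAt 𝓘(ℝ, E) 𝓘(ℝ, ℝ) (τ k) ((ch E v).symm (ch E v v)) :=
    (h.smooth_τ k).mdifferentiable (by simp) _
  have e4 : HasMFDerivAt 𝓘(ℝ, E) 𝓘(ℝ, ℝ) (fun y => τ k ((ch E v).symm y)) (ch E v v)
      ((mfderiv 𝓘(ℝ, E) 𝓘(ℝ, ℝ) (τ k) ((ch E v).symm (ch E v v))).comp
        (mfderiv 𝓘(ℝ, E) 𝓘(ℝ, E) (ch E v).symm (ch E v v))) :=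
    HasMFDerivAt.comp (ch E v v) hτd.hasMFDerivAt
      (mdiff_ch_symm (ch_self_mem_target v)).hasMFDerivAt
  have e5 : fderiv ℝ (fun y => τ k ((ch E v).symm y)) (ch E v v)
        (mfderiv 𝓘(ℝ, E) 𝓘(ℝ, E) (ch E v) v u') =
      mfderiv 𝓘(ℝ, E) 𝓘(ℝ, ℝ) (τ k) ((ch E v).symm (ch E v v))
        (mfderiv 𝓘(ℝ, E) 𝓘(ℝ, E) (ch E v).symm (ch E v v)
          (mfderiv 𝓘(ℝ, E) 𝓘(ℝ, E) (ch E v) v u')) := by
    rw [← mfderiv_eq_fderiv, e4.mfderiv]
    rfl
  rw [e5]
  have e6 : (mfderiv 𝓘(ℝ, E) 𝓘(ℝ, E) (ch E v).symm (ch E v v)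
      (mfderiv 𝓘(ℝ, E) 𝓘(ℝ, E) (ch E v) v u') : E) = u' :=
    mfderiv_ch_symm_comp (mem_extChartAt_source v) u'
  intro hcon
  apply hu'
  refine Eq.trans ?_ hcon
  have e7 : ∀ (a b : X), a = b → ∀ w : E, (mfderiv 𝓘(ℝ, E) 𝓘(ℝ, ℝ) (τ k) a w : ℝ) =
      mfderiv 𝓘(ℝ, E) 𝓘(ℝ, ℝ) (τ k) b w := by
    rintro a b rfl w
    rfl
  refine (e7 _ _ hx.symm u').trans ?_
  exact congrArg (fun w : E => (mfderiv 𝓘(ℝ, E) 𝓘(ℝ, ℝ) (τ k) ((ch E v).symm (ch E v v)) w : ℝ))
    e6.symm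

theorem Corner.surjective_fderiv (h : Corner E s τ v) :
    Function.Surjective (fderiv ℝ (locT E τ v) (ch E v v)) := by
  classical
  set A := fderiv ℝ (locT E τ v) (ch E v v) with hA
  have h1 : ∀ k : Fin n, ∃ w : E, A w = Pi.single k 1 := by
    intro k
    obtain ⟨u, hu⟩ := h.exists_fderiv_ne k
    rw [← hA] at hu
    refine ⟨(2 * A u k)⁻¹ • (u - fderiv ℝ (chTrans (s k) v v) (ch E v v) u), ?_⟩
    rw [map_smul, map_sub, hA, h.fderiv_locT_flip k u, ← hA]
    funext l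
    rw [Pi.smul_apply, Pi.sub_apply, flipL_apply, smul_eq_mul]
    by_cases hl : l = k
    · subst hl
      rw [if_pos rfl, Pi.single_eq_same]
      field_simp
      ring
    · rw [if_neg hl, Pi.single_eq_of_ne hl, sub_self, mul_zero]
  choose w hw using h1
  intro x
  refine ⟨∑ k, x k • w k, ?_⟩
  rw [map_sum]
  simp only [map_smul, hw]
  funext l
  rw [Finset.sum_apply]
  simp [Pi.single_apply]

/-- the derivative of `τ` at the corner is an isomorphism. -/
theorem Corner.exists_equiv (h : Corner E s τ v) (hn : Module.finrank ℝ E = n) :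
    ∃ e : E ≃L[ℝ] (Fin n → ℝ), (e : E →L[ℝ] (Fin n → ℝ)) = fderiv ℝ (locT E τ v) (ch E v v) := by
  have hs := h.surjective_fderiv
  have hf : Module.finrank ℝ E = Module.finrank ℝ (Fin n → ℝ) := by
    rw [hn, Module.finrank_fin_fun]
  have hi : Function.Injective (fderiv ℝ (locT E τ v) (ch E v v) : E →ₗ[ℝ] (Fin n → ℝ)) :=
    (LinearMap.injective_iff_surjective_of_finrank_eq_finrank hf).2 hs
  refine ⟨(LinearEquiv.ofBijective
    (fderiv ℝ (locT E τ v) (ch E v v) : E →ₗ[ℝ] (Fin n → ℝ)) ⟨hi, hs⟩).toContinuousLinearEquiv, ?_⟩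
  ext u
  rfl

end T

/-- there are such coordinates at a corner. -/
theorem Corner.exists_locCoord {n : ℕ} {s : Fin n → X → X} {τ : Fin n → X → ℝ} {v : X}
    (h : Corner E s τ v) (hn : Module.finrank ℝ E = n) :
    ∃ (r : ℝ) (γ : (Fin n → ℝ) → X), LocCoord E s τ r γ := by
  borelize E
  obtain ⟨e, he⟩ := h.exists_equiv hn
  set T := locT E τ v with hT
  set y₀ := ch E v v with hy₀
  have hTc : ContDiffAt ℝ ∞ T y₀ := h.locT_contDiffAt (ch_self_mem_target v)
  have hTd : HasFDerivAt T (e : E →L[ℝ] (Fin n → ℝ)) y₀ := by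
    rw [he]
    exact (hTc.differentiableAt (by simp)).hasFDerivAt
  have h00 : (∞ : WithTop ℕ∞) ≠ 0 := by simp
  set φ := hTc.toOpenPartialHomeomorph T hTd h00 with hφ
  have hφT : (φ : E → (Fin n → ℝ)) = T := rfl
  have hys : y₀ ∈ φ.source := hTc.mem_toOpenPartialHomeomorph_source hTd h00
  have hT0 : T y₀ = 0 := h.locT_base
  have h0t : (0 : Fin n → ℝ) ∈ φ.target := by
    have h1 := φ.map_source hys
    rwa [hφT, hT0] at h1
  have hg0 : φ.symm 0 = y₀ := by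
    have h1 := φ.left_inv hys
    rwa [hφT, hT0] at h1
  have hgc0 : ContinuousAt φ.symm 0 := φ.continuousAt_symm h0t
  obtain ⟨r₀, hr₀, K₀, hK₀, hball, hvol, hder, hder'⟩ := chart_compare (E := E) (X := X) v
  rw [← hy₀] at hball hvol hder hder'
  -- the good set in `E`
  have hgood : ∀ᶠ y in 𝓝 y₀, ∃ e' : E ≃L[ℝ] (Fin n → ℝ),
      (e' : E →L[ℝ] (Fin n → ℝ)) = fderiv ℝ T y := by
    have hc : ContinuousAt (fderiv ℝ T) y₀ :=
      (hTc.fderiv_right (m := 0) (by simp)).continuousAt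
    have h1 := ContinuousLinearEquiv.nhds e
    rw [he] at h1
    have h2 := hc.eventually (show ∀ᶠ L in 𝓝 (fderiv ℝ T y₀), L ∈ range
      ((↑) : (E ≃L[ℝ] (Fin n → ℝ)) → E →L[ℝ] (Fin n → ℝ)) from h1)
    exact h2
  obtain ⟨Kl, tl, htl, hLip⟩ := (hTc.of_le (m := 1) (by simp)).exists_lipschitzOnWith
  have hgsm : ∀ x : Fin n → ℝ, x ∈ φ.target → φ.symm x ∈ (ch E v).target →
      (∃ e' : E ≃L[ℝ] (Fin n → ℝ), (e' : E →L[ℝ] (Fin n → ℝ)) = fderiv ℝ T (φ.symm x)) →
      ContDiffAt ℝ ∞ φ.symm x := by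
    rintro x hx hxt ⟨e', he'⟩
    have h1 : ContDiffAt ℝ ∞ T (φ.symm x) := h.locT_contDiffAt hxt
    refine φ.contDiffAt_symm (f₀' := e') hx ?_ h1
    rw [he']
    exact (h1.differentiableAt (by simp)).hasFDerivAt
  have hgs0 : ContDiffAt ℝ ∞ φ.symm 0 := by
    refine hgsm 0 h0t ?_ ?_
    · rw [hg0]; exact ch_self_mem_target v
    · rw [hg0]; exact ⟨e, he⟩
  have hfd : ∀ᶠ x in 𝓝 (0 : Fin n → ℝ), ‖fderiv ℝ φ.symm x‖ < ‖fderiv ℝ φ.symm 0‖ + 1 := by
    have hc : ContinuousAt (fderiv ℝ φ.symm) 0 :=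
      (hgs0.fderiv_right (m := 0) (by simp)).continuousAt
    exact hc.norm.eventually (gt_mem_nhds (by linarith))
  have hnhE : ∀ {P : E → Prop}, (∀ᶠ y in 𝓝 y₀, P y) → ∀ᶠ x in 𝓝 (0 : Fin n → ℝ), P (φ.symm x) := by
    intro P hP
    rw [← hg0] at hP
    exact hgc0.eventually hP
  -- the reflections near the corner
  have hrefl : ∀ k : Fin n, ∀ᶠ y in 𝓝 y₀, s k ((ch E v).symm y) ∈ (ch E v).source ∧
      ch E v (s k ((ch E v).symm y)) ∈ φ.source := by
    intro k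
    have h1 : ContinuousAt (fun y => s k ((ch E v).symm y)) y₀ :=
      ((h.smooth_s k).continuous.continuousAt).comp (continuousAt_ch_symm (ch_self_mem_target v))
    have h2 : s k ((ch E v).symm y₀) = v := by
      rw [hy₀, (ch E v).left_inv (mem_extChartAt_source v), h.fix_v k]
    have h3a : ∀ᶠ z in 𝓝 v, z ∈ (ch E v).source :=
      (isOpen_extChartAt_source v).mem_nhds (mem_extChartAt_source v)
    have h3b : ∀ᶠ z in 𝓝 v, ch E v z ∈ φ.source :=
      (continuousAt_extChartAt v).eventually (φ.open_source.mem_nhds hys)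
    have h3 : ∀ᶠ z in 𝓝 (s k ((ch E v).symm y₀)), z ∈ (ch E v).source ∧ ch E v z ∈ φ.source := by
      rw [h2]
      exact h3a.and h3b
    exact h1.eventually h3
  have hall : ∀ᶠ x in 𝓝 (0 : Fin n → ℝ), x ∈ φ.target ∧ φ.symm x ∈ Metric.ball y₀ r₀ ∧
      (∃ e' : E ≃L[ℝ] (Fin n → ℝ), (e' : E →L[ℝ] (Fin n → ℝ)) = fderiv ℝ T (φ.symm x)) ∧
      (∀ k, s k ((ch E v).symm (φ.symm x)) ∈ (ch E v).source ∧
        ch E v (s k ((ch E v).symm (φ.symm x))) ∈ φ.source) ∧
      ‖fderiv ℝ φ.symm x‖ < ‖fderiv ℝ φ.symm 0‖ + 1 ∧ φ.symm x ∈ tl := by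
    have a1 : ∀ᶠ x in 𝓝 (0 : Fin n → ℝ), x ∈ φ.target := φ.open_target.mem_nhds h0t
    have a2 : ∀ᶠ x in 𝓝 (0 : Fin n → ℝ), φ.symm x ∈ Metric.ball y₀ r₀ :=
      hnhE (Metric.ball_mem_nhds y₀ hr₀)
    have a3 : ∀ᶠ x in 𝓝 (0 : Fin n → ℝ), φ.symm x ∈ tl := hnhE htl
    exact a1.and (a2.and ((hnhE hgood).and ((eventually_all.2 fun k => hnhE (hrefl k)).and
      (hfd.and a3))))
  obtain ⟨r, hr, hrall⟩ := Metric.eventually_nhds_iff_ball.1 hall
  have hB : ∀ x ∈ Metric.ball (0 : Fin n → ℝ) r, φ.symm x ∈ (ch E v).target := fun x hx =>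
    hball (Metric.ball_subset_closedBall (hrall x hx).2.1)
  have hTg : ∀ x ∈ Metric.ball (0 : Fin n → ℝ) r, T (φ.symm x) = x := fun x hx =>
    φ.right_inv (hrall x hx).1
  have hsm : ∀ x ∈ Metric.ball (0 : Fin n → ℝ) r, ContDiffAt ℝ ∞ φ.symm x := fun x hx =>
    hgsm x (hrall x hx).1 (hB x hx) (hrall x hx).2.2.1
  have hτ : ∀ x ∈ Metric.ball (0 : Fin n → ℝ) r, ∀ l, τ l ((ch E v).symm (φ.symm x)) = x l :=
    fun x hx l => congrFun (hTg x hx) l
  have hflip : ∀ x ∈ Metric.ball (0 : Fin n → ℝ) r, ∀ k, flipL k x ∈ Metric.ball (0 : Fin n → ℝ) r := by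
    intro x hx k
    rw [mem_ball_zero_iff] at hx ⊢
    rw [pi_norm_lt_iff hr] at hx ⊢
    intro l
    rw [flipL_apply]
    split_ifs
    · rw [norm_neg]; exact hx l
    · exact hx l
  refine ⟨r, fun x => (ch E v).symm (φ.symm x), hr, ?_, hτ, ?_, ?_, ?_, ?_⟩
  · intro x hx
    have h1 : ContMDiffAt 𝓘(ℝ, Fin n → ℝ) 𝓘(ℝ, E) ∞ φ.symm x := (hsm x hx).contMDiffAt
    have h2 : ContMDiffAt 𝓘(ℝ, E) 𝓘(ℝ, E) ∞ (ch E v).symm (φ.symm x) :=
      (contMDiffOn_extChartAt_symm v).contMDiffAt (ch_target_nhds (hB x hx))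
    exact (h2.comp x h1).contMDiffWithinAt
  · have h1 : IsOpen (φ.symm '' Metric.ball (0 : Fin n → ℝ) r) :=
      φ.isOpen_image_symm_of_subset_target Metric.isOpen_ball (fun x hx => (hrall x hx).1)
    have h2 : (fun x => (ch E v).symm (φ.symm x)) '' Metric.ball (0 : Fin n → ℝ) r =
        (ch E v).source ∩ ch E v ⁻¹' (φ.symm '' Metric.ball (0 : Fin n → ℝ) r) := by
      ext z
      constructor
      · rintro ⟨x, hx, rfl⟩
        refine ⟨(ch E v).map_target (hB x hx), x, hx, ?_⟩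
        exact ((ch E v).right_inv (hB x hx)).symm
      · rintro ⟨hz, x, hx, hxz⟩
        refine ⟨x, hx, ?_⟩
        show (ch E v).symm (φ.symm x) = z
        rw [hxz]
        exact (ch E v).left_inv hz
    rw [h2]
    have h3 := isOpen_extChartAt_preimage (I := 𝓘(ℝ, E)) v h1
    rwa [← extChartAt_source 𝓘(ℝ, E) v] at h3
  · intro x hx k
    obtain ⟨h1, h2⟩ := (hrall x hx).2.2.2.1 k
    have h3 : T (ch E v (s k ((ch E v).symm (φ.symm x)))) = flipL k x := by
      funext l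
      show τ l ((ch E v).symm (ch E v (s k ((ch E v).symm (φ.symm x))))) = _
      rw [(ch E v).left_inv h1, flipL_apply]
      by_cases hl : l = k
      · subst hl
        rw [if_pos rfl, h.odd, hτ x hx]
      · rw [if_neg hl, h.even l k _ hl, hτ x hx]
    have h4 : φ.symm (flipL k x) = ch E v (s k ((ch E v).symm (φ.symm x))) := by
      rw [← h3]
      exact φ.left_inv h2
    show s k ((ch E v).symm (φ.symm x)) = (ch E v).symm (φ.symm (flipL k x))
    rw [h4, (ch E v).left_inv h1]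
  · refine ⟨K₀ * (‖fderiv ℝ φ.symm 0‖ + 1), fun x hx u => ?_⟩
    have h1 : HasMFDerivAt 𝓘(ℝ, Fin n → ℝ) 𝓘(ℝ, E) φ.symm x (fderiv ℝ φ.symm x) :=
      ((hsm x hx).differentiableAt (by simp)).hasFDerivAt.hasMFDerivAt
    have h2 : HasMFDerivAt 𝓘(ℝ, E) 𝓘(ℝ, E) (ch E v).symm (φ.symm x)
        (mfderiv 𝓘(ℝ, E) 𝓘(ℝ, E) (ch E v).symm (φ.symm x)) :=
      (mdiff_ch_symm (hB x hx)).hasMFDerivAt
    have h3 := (HasMFDerivAt.comp x h2 h1).mfderiv
    have h4 : (mfderiv 𝓘(ℝ, Fin n → ℝ) 𝓘(ℝ, E) (fun x => (ch E v).symm (φ.symm x)) x u : E) =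
        mfderiv 𝓘(ℝ, E) 𝓘(ℝ, E) (ch E v).symm (φ.symm x) (fderiv ℝ φ.symm x u) := by
      have h5 : mfderiv 𝓘(ℝ, Fin n → ℝ) 𝓘(ℝ, E) (fun x => (ch E v).symm (φ.symm x)) x =
        (mfderiv 𝓘(ℝ, E) 𝓘(ℝ, E) (ch E v).symm (φ.symm x)).comp (fderiv ℝ φ.symm x) := h3
      rw [h5]
      rfl
    have h6 := hder' (φ.symm x) (hrall x hx).2.1 (fderiv ℝ φ.symm x u)
    have h7 : ‖(mfderiv 𝓘(ℝ, Fin n → ℝ) 𝓘(ℝ, E) (fun x => (ch E v).symm (φ.symm x)) x u :
        TangentSpace 𝓘(ℝ, E) ((ch E v).symm (φ.symm x)))‖ =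
        ‖(mfderiv 𝓘(ℝ, E) 𝓘(ℝ, E) (ch E v).symm (φ.symm x) (fderiv ℝ φ.symm x u) :
        TangentSpace 𝓘(ℝ, E) ((ch E v).symm (φ.symm x)))‖ := congrArg _ h4
    refine (le_of_eq h7).trans (h6.trans ?_)
    rw [mul_assoc]
    refine mul_le_mul_of_nonneg_left ?_ (NNReal.coe_nonneg _)
    exact ((fderiv ℝ φ.symm x).le_opNorm u).trans
      (mul_le_mul_of_nonneg_right (hrall x hx).2.2.2.2.1.le (norm_nonneg u))
  · obtain ⟨κ, hκ0, hκ⟩ := hausdorff_eq_smul E
    refine ⟨Kl ^ n * κ * K₀, fun f hf => ?_⟩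
    have hmeas : AEMeasurable (fun x => (ch E v).symm (φ.symm x))
        (volume.restrict (Metric.ball (0 : Fin n → ℝ) r)) := by
      refine ContinuousOn.aemeasurable ?_ measurableSet_ball
      intro x hx
      have h1 : ContinuousAt φ.symm x := φ.continuousAt_symm (hrall x hx).1
      exact (ContinuousAt.comp (g := (ch E v).symm) (continuousAt_ch_symm (hB x hx))
        h1).continuousWithinAt
    have hle : Measure.map (fun x => (ch E v).symm (φ.symm x))
        (volume.restrict (Metric.ball (0 : Fin n → ℝ) r)) ≤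
        ((Kl ^ n * κ * K₀ : ℝ≥0) : ℝ≥0∞) • (vol E X).restrict
          ((fun x => (ch E v).symm (φ.symm x)) '' Metric.ball (0 : Fin n → ℝ) r) := by
      refine PoinAux.map_le_restrict (φ := fun z => T (ch E v z))
        (ψ := fun x => (ch E v).symm (φ.symm x))
        (U := (fun x => (ch E v).symm (φ.symm x)) '' Metric.ball (0 : Fin n → ℝ) r)
        (B := Metric.ball (0 : Fin n → ℝ) r) hmeas measurableSet_ball
        (fun x hx => ⟨x, hx, rfl⟩) (fun x hx => ?_) _ ?_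
      · show T (ch E v ((ch E v).symm (φ.symm x))) = x
        rw [(ch E v).right_inv (hB x hx)]
        exact hTg x hx
      · intro A hA
        have hsub : ch E v '' A ⊆ φ.symm '' Metric.ball (0 : Fin n → ℝ) r := by
          rintro _ ⟨z, hz, rfl⟩
          obtain ⟨x, hx, rfl⟩ := hA hz
          refine ⟨x, hx, ?_⟩
          exact ((ch E v).right_inv (hB x hx)).symm
        have hA' : A ⊆ (ch E v).symm '' Metric.ball y₀ r₀ := by
          intro z hz
          obtain ⟨x, hx, rfl⟩ := hA hz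
          exact ⟨φ.symm x, (hrall x hx).2.1, rfl⟩
        have hL : LipschitzOnWith Kl T (ch E v '' A) := by
          refine hLip.mono ?_
          intro y hy
          obtain ⟨x, hx, rfl⟩ := hsub hy
          exact (hrall x hx).2.2.2.2.2
        have h1 := hL.hausdorffMeasure_image_le (d := (n : ℝ)) (by positivity)
        have h2 : (Measure.hausdorffMeasure (n : ℝ) : Measure (Fin n → ℝ)) = volume := by
          have := hausdorffMeasure_pi_real (ι := Fin n)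
          rwa [Fintype.card_fin] at this
        have h3 : (Measure.hausdorffMeasure (n : ℝ) : Measure E) = κ • (volume : Measure E) := by
          rw [← hn]; exact hκ
        rw [h2, h3, Measure.smul_apply, ENNReal.smul_def, smul_eq_mul,
          ENNReal.rpow_natCast] at h1
        have h4 : (fun z => T (ch E v z)) '' A = T '' (ch E v '' A) := by
          rw [image_image]
        rw [h4]
        refine h1.trans ?_
        have h5 := (hvol A hA').2
        calc (Kl : ℝ≥0∞) ^ n * ((κ : ℝ≥0∞) * volume (ch E v '' A))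
            ≤ (Kl : ℝ≥0∞) ^ n * ((κ : ℝ≥0∞) * (K₀ * vol E X A)) := by gcongr
          _ = ((Kl ^ n * κ * K₀ : ℝ≥0) : ℝ≥0∞) * vol E X A := by
            push_cast
            ring
    calc ∫⁻ x in Metric.ball (0 : Fin n → ℝ) r, f ((ch E v).symm (φ.symm x))
        = ∫⁻ y, f y ∂(Measure.map (fun x => (ch E v).symm (φ.symm x))
            (volume.restrict (Metric.ball (0 : Fin n → ℝ) r))) :=
          (lintegral_map' hf.aemeasurable hmeas).symm
      _ ≤ ∫⁻ y, f y ∂(((Kl ^ n * κ * K₀ : ℝ≥0) : ℝ≥0∞) • (vol E X).restrict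
          ((fun x => (ch E v).symm (φ.symm x)) '' Metric.ball (0 : Fin n → ℝ) r)) :=
          lintegral_mono' hle le_rfl
      _ = ((Kl ^ n * κ * K₀ : ℝ≥0) : ℝ≥0∞) * ∫⁻ y, f y ∂((vol E X).restrict
          ((fun x => (ch E v).symm (φ.symm x)) '' Metric.ball (0 : Fin n → ℝ) r)) :=
          lintegral_smul_measure _ _
      _ ≤ ((Kl ^ n * κ * K₀ : ℝ≥0) : ℝ≥0∞) * ∫⁻ y, f y ∂(vol E X) := by
          gcongr
          exact Measure.restrict_le_self

end Pool.Agent.ZSp
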