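import Pool.Agent.Work.MP_058ed1_gt.C.Base

/-!
# Corner theorem, module PULLB: pull-back by a map with bounded derivatives is bounded on `L²`
-/

open scoped Manifold ContDiff Topology Bundle ENNReal NNReal
open Set MeasureTheory Bundle Filter

set_option linter.unusedSectionVars false

noncomputable section

namespace Pool.Agent.ZSp


section pointwise

variable {V W : Type*} [NormedAddCommGroup V] [InnerProductSpace ℝ V] [FiniteDimensional ℝ V]
  [NormedAddCommGroup W] [InnerProductSpace ℝ W] [FiniteDimensional ℝ W] {p : ℕ}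

/-- the norm of a form dominates its values. -/
theorem sq_apply_le (α : V [⋀^Fin p]→L[ℝ] ℝ) (v : Fin p → V) :
    (α v) ^ 2 ≤ (p.factorial : ℝ) * ainner α α * ∏ k, ‖v k‖ ^ 2 := by
  classical
  set e := stdOrthonormalBasis ℝ V with he
  have hb : ∀ i : Fin p, v i = ∑ k, inner ℝ (e k) (v i) • e k := fun i => (e.sum_repr' (v i)).symm
  have h1 := alt_expand α e v (fun k i => inner ℝ (e k) (v i)) hb (fun i => i)
  have h3 : ∏ k, ‖v k‖ ^ 2 = ∑ r : Fin p → Fin (Module.finrank ℝ V),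
      (∏ k, inner ℝ (e (r k)) (v k)) ^ 2 := by
    have h4 : ∀ k, ‖v k‖ ^ 2 = ∑ j, (inner ℝ (e j) (v k)) ^ 2 := by
      intro k
      rw [← e.sum_sq_norm_inner_right (v k)]
      refine Finset.sum_congr rfl fun j _ => ?_
      rw [Real.norm_eq_abs, sq_abs]
    rw [Finset.prod_congr rfl fun k _ => h4 k, Finset.prod_univ_sum, Fintype.piFinset_univ]
    refine Finset.sum_congr rfl fun r _ => ?_
    rw [Finset.prod_pow]
  have h5 : (p.factorial : ℝ) * ainner α α =
      ∑ r : Fin p → Fin (Module.finrank ℝ V), (α (fun k => e (r k))) ^ 2 := by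
    unfold ainner
    rw [← mul_assoc, mul_inv_cancel₀ (by positivity), one_mul]
    refine Finset.sum_congr rfl fun r _ => ?_
    rw [sq]
  have h6 : α v = ∑ r : Fin p → Fin (Module.finrank ℝ V),
      (∏ k, inner ℝ (e (r k)) (v k)) * α (fun k => e (r k)) := h1
  rw [h6, h3, h5, mul_comm]
  exact Finset.sum_mul_sq_le_sq_mul_sq _ _ _

/-- the norm of a pull-back. -/
theorem ainner_comp_le (D : V →L[ℝ] W) {L : ℝ} (hD : ∀ v, ‖D v‖ ≤ L * ‖v‖)
    (α : W [⋀^Fin p]→L[ℝ] ℝ) :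
    ainner (α.compContinuousLinearMap D) (α.compContinuousLinearMap D) ≤
      ((Module.finrank ℝ V : ℝ) * L ^ 2) ^ p * ainner α α := by
  classical
  set e := stdOrthonormalBasis ℝ V with he
  have h0 : (0 : ℝ) < (p.factorial : ℝ) := by positivity
  have h1 : ∀ i : Fin p → Fin (Module.finrank ℝ V),
      (α.compContinuousLinearMap D (fun k => e (i k))) *
        (α.compContinuousLinearMap D (fun k => e (i k))) ≤
      (p.factorial : ℝ) * ainner α α * (L ^ 2) ^ p := by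
    intro i
    have h2 : α.compContinuousLinearMap D (fun k => e (i k)) = α (fun k => D (e (i k))) := rfl
    rw [h2, ← sq]
    refine (sq_apply_le α _).trans ?_
    refine mul_le_mul_of_nonneg_left ?_ (mul_nonneg h0.le (ainner_self_nonneg α))
    have h3 : ∏ k : Fin p, ‖D (e (i k))‖ ^ 2 ≤ ∏ _k : Fin p, L ^ 2 := by
      refine Finset.prod_le_prod (fun k _ => by positivity) fun k _ => ?_
      have h4 := hD (e (i k))
      rw [e.norm_eq_one, mul_one] at h4
      exact pow_le_pow_left₀ (norm_nonneg _) h4 2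
    refine h3.trans (le_of_eq ?_)
    rw [Finset.prod_const, Finset.card_univ, Fintype.card_fin]
  have h2 : ainner (α.compContinuousLinearMap D) (α.compContinuousLinearMap D) =
      ((p.factorial : ℝ))⁻¹ * ∑ i : Fin p → Fin (Module.finrank ℝ V),
        (α.compContinuousLinearMap D (fun k => e (i k))) *
          (α.compContinuousLinearMap D (fun k => e (i k))) := rfl
  rw [h2]
  have h3 := Finset.sum_le_sum fun i (_ : i ∈ (Finset.univ : Finset (Fin p →
    Fin (Module.finrank ℝ V)))) => h1 i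
  rw [Finset.sum_const, Finset.card_univ, Fintype.card_fun, Fintype.card_fin, Fintype.card_fin,
    nsmul_eq_mul] at h3
  refine (mul_le_mul_of_nonneg_left h3 (inv_nonneg.2 h0.le)).trans (le_of_eq ?_)
  rw [mul_pow]
  push_cast
  field_simp

end pointwise

variable {E : Type*} [NormedAddCommGroup E] [InnerProductSpace ℝ E] [FiniteDimensional ℝ E]
  {X : Type*} [EMetricSpace X] [ChartedSpace E X]
  [IsManifold 𝓘(ℝ, E) ∞ X] [RiemannianBundle (fun x : X => TangentSpace 𝓘(ℝ, E) x)]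
  [IsContMDiffRiemannianBundle 𝓘(ℝ, E) ∞ E (fun x : X => TangentSpace 𝓘(ℝ, E) x)]
  [IsRiemannianManifold 𝓘(ℝ, E) X] [MeasurableSpace X] [BorelSpace X] {p : ℕ}

variable (E) in
/-- a smooth involution with bounded derivatives. -/
structure IsRefl (s : X → X) : Prop where
  smooth : ContMDiff 𝓘(ℝ, E) 𝓘(ℝ, E) ∞ s
  invol : ∀ x, s (s x) = x
  bdd : ∃ L : ℝ, ∀ (x : X) (u : TangentSpace 𝓘(ℝ, E) x),
    ‖mfderiv 𝓘(ℝ, E) 𝓘(ℝ, E) s x u‖ ≤ L * ‖u‖

open Manifold in
/-- a smooth map with bounded derivatives is Lipschitz. -/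
theorem edist_map_le' (g : X → X) (hg : ContMDiff 𝓘(ℝ, E) 𝓘(ℝ, E) ∞ g) {K : ℝ≥0} (hK : 0 < K)
    (hi : ∀ (x : X) (v : TangentSpace 𝓘(ℝ, E) x), ‖mfderiv 𝓘(ℝ, E) 𝓘(ℝ, E) g x v‖ ≤ K * ‖v‖)
    (x y : X) : edist (g x) (g y) ≤ K * edist x y := by
  have hK0 : (K : ℝ≥0∞) ≠ 0 := by simpa using hK.ne'
  have hK1 : (K : ℝ≥0∞) ≠ ⊤ := ENNReal.coe_ne_top
  rw [mul_comm, ← ENNReal.div_le_iff hK0 hK1]
  rw [IsRiemannianManifold.out (I := 𝓘(ℝ, E)), IsRiemannianManifold.out (I := 𝓘(ℝ, E)) x y]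
  refine le_of_forall_gt fun r hr => ?_
  obtain ⟨γ, hγ0, hγ1, hγs, hγl, -⟩ :=
    Manifold.exists_lt_locally_constant_of_riemannianEDist_lt hr zero_lt_one
  have hg1 : ContMDiff 𝓘(ℝ, E) 𝓘(ℝ, E) 1 g := hg.of_le (by norm_cast)
  have h1 : riemannianEDist 𝓘(ℝ, E) (g x) (g y) ≤ pathELength 𝓘(ℝ, E) (g ∘ γ) 0 1 := by
    apply riemannianEDist_le_pathELength _ _ _ zero_le_one
    · exact (hg1.comp hγs).contMDiffOn
    · simp [hγ0]
    · simp [hγ1]
  have h2 : pathELength 𝓘(ℝ, E) (g ∘ γ) 0 1 ≤ K * pathELength 𝓘(ℝ, E) γ 0 1 := by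
    rw [pathELength_eq_lintegral_mfderiv_Icc, pathELength_eq_lintegral_mfderiv_Icc,
      ← lintegral_const_mul' _ _ hK1]
    refine lintegral_mono fun t => ?_
    rw [mfderiv_comp (I' := 𝓘(ℝ, E)) t (hg1.mdifferentiable one_ne_zero _)
      (hγs.mdifferentiable one_ne_zero _)]
    have h3 := hi (γ t) (mfderiv 𝓘(ℝ, ℝ) 𝓘(ℝ, E) γ t 1)
    rw [← ofReal_norm, ← ofReal_norm]
    have h4 : (K : ℝ≥0∞) = ENNReal.ofReal (K : ℝ) := (ENNReal.ofReal_coe_nnreal).symm
    rw [h4, ← ENNReal.ofReal_mul (NNReal.coe_nonneg K)]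
    exact ENNReal.ofReal_le_ofReal h3
  rw [ENNReal.div_lt_iff (Or.inl hK0) (Or.inl hK1), mul_comm]
  exact (h1.trans h2).trans_lt (ENNReal.mul_lt_mul_right hK0 hK1 hγl)

/-- change of variables, as an inequality. -/
theorem IsRefl.lintegral_comp_le {s : X → X} (h : IsRefl E s) : ∃ C : ℝ≥0, ∀ f : X → ℝ≥0∞,
    Measurable f → ∫⁻ x, f (s x) ∂(vol E X) ≤ C * ∫⁻ x, f x ∂(vol E X) := by
  obtain ⟨L, hL⟩ := h.bdd
  set K : ℝ≥0 := Real.toNNReal L + 1 with hKdef
  have hK : 0 < K := by positivity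
  have hLK : L ≤ K := by
    rw [hKdef]
    push_cast
    have := Real.le_coe_toNNReal L
    linarith
  have hlip : LipschitzWith K s := by
    intro x y
    refine edist_map_le' (E := E) s h.smooth hK (fun x v => (hL x v).trans ?_) x y
    exact mul_le_mul_of_nonneg_right hLK (norm_nonneg _)
  have hd : (0 : ℝ) ≤ (Module.finrank ℝ E : ℝ) := Nat.cast_nonneg _
  refine ⟨K ^ (Module.finrank ℝ E : ℝ), fun f hf => ?_⟩
  have hs : Measurable s := h.smooth.continuous.measurable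
  rw [← lintegral_map hf hs]
  have hle : Measure.map s (vol E X) ≤ ((K ^ (Module.finrank ℝ E : ℝ) : ℝ≥0) : ℝ≥0∞) • vol E X := by
    refine Measure.le_iff.2 fun A hA => ?_
    rw [Measure.map_apply hs hA, Measure.smul_apply, smul_eq_mul]
    have h1 : s ⁻¹' A = s '' A := by
      ext x
      constructor
      · intro hx
        exact ⟨s x, hx, h.invol x⟩
      · rintro ⟨y, hy, rfl⟩
        show s (s y) ∈ A
        rw [h.invol]
        exact hy
    rw [h1, ENNReal.coe_rpow_of_nonneg _ hd]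
    exact hlip.hausdorffMeasure_image_le hd A
  refine (lintegral_mono' hle le_rfl).trans (le_of_eq ?_)
  rw [lintegral_smul_measure, smul_eq_mul]

theorem IsRefl.pull_mem {s : X → X} (h : IsRefl E s) {w : PForm E X p}
    (hw : w ∈ OmegaC E X p) : pull s w ∈ OmegaC E X p := by
  refine ⟨hw.1.pull h.smooth, ?_⟩
  have h1 : IsCompact (s '' closure {x | w x ≠ 0}) := hw.2.image h.smooth.continuous
  refine h1.of_isClosed_subset isClosed_closure (closure_minimal ?_ h1.isClosed)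
  intro x hx
  refine ⟨s x, subset_closure ?_, h.invol x⟩
  intro h0
  apply hx
  show (w (s x)).compContinuousLinearMap _ = 0
  rw [h0]
  rfl

/-- pull-back on `Ω_c^p(X)`. -/
def pullC {s : X → X} (h : IsRefl E s) : OmC E X p →ₗ[ℝ] OmC E X p where
  toFun a := ⟨pull s a.1, h.pull_mem a.2⟩
  map_add' a b := Subtype.ext (by funext x; ext v; rfl)
  map_smul' r a := Subtype.ext (by funext x; ext v; rfl)

theorem norm_pullC_le {s : X → X} (h : IsRefl E s) (p : ℕ) :
    ∃ C : ℝ, ∀ a : OmC E X p, ‖pullC h a‖ ≤ C * ‖a‖ := by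
  obtain ⟨L, hL⟩ := h.bdd
  obtain ⟨C, hC⟩ := h.lintegral_comp_le
  set M : ℝ := ((Module.finrank ℝ E : ℝ) * L ^ 2) ^ p with hM
  have hM0 : 0 ≤ M := by positivity
  refine ⟨Real.sqrt (M * C), fun a => ?_⟩
  have hint := integrable_pin a.2 a.2
  have hcont := continuous_pin a.2.1 a.2.1
  have h1 : ∀ x, pin (pull s a.1) (pull s a.1) x ≤ M * pin a.1 a.1 (s x) := by
    intro x
    exact ainner_comp_le (V := TangentSpace 𝓘(ℝ, E) x) (W := TangentSpace 𝓘(ℝ, E) (s x))
      (mfderiv 𝓘(ℝ, E) 𝓘(ℝ, E) s x) (hL x) (a.1 (s x))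
  have h2 : ∫⁻ x, ENNReal.ofReal (pin a.1 a.1 (s x)) ∂(vol E X) ≤
      C * ∫⁻ x, ENNReal.ofReal (pin a.1 a.1 x) ∂(vol E X) :=
    hC _ hcont.measurable.ennreal_ofReal
  have h3 : ∫⁻ x, ENNReal.ofReal (pin a.1 a.1 x) ∂(vol E X) =
      ENNReal.ofReal (∫ x, pin a.1 a.1 x ∂(vol E X)) :=
    (ofReal_integral_eq_lintegral_ofReal hint
      (Filter.Eventually.of_forall (pin_self_nonneg a.1))).symm
  have hints : Integrable (fun x => pin a.1 a.1 (s x)) (vol E X) := by
    refine ⟨(hcont.comp h.smooth.continuous).aestronglyMeasurable, ?_⟩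
    rw [hasFiniteIntegral_iff_ofReal (Filter.Eventually.of_forall fun x =>
      pin_self_nonneg a.1 (s x))]
    refine h2.trans_lt ?_
    rw [h3]
    exact ENNReal.mul_lt_top ENNReal.coe_lt_top ENNReal.ofReal_lt_top
  have h4 : ∫ x, pin a.1 a.1 (s x) ∂(vol E X) ≤ C * ∫ x, pin a.1 a.1 x ∂(vol E X) := by
    have h5 : ENNReal.ofReal (∫ x, pin a.1 a.1 (s x) ∂(vol E X)) ≤
        ENNReal.ofReal (C * ∫ x, pin a.1 a.1 x ∂(vol E X)) := by
      rw [ofReal_integral_eq_lintegral_ofReal hints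
        (Filter.Eventually.of_forall fun x => pin_self_nonneg a.1 (s x)),
        ENNReal.ofReal_mul (NNReal.coe_nonneg C), ENNReal.ofReal_coe_nnreal, ← h3]
      exact h2
    refine (ENNReal.ofReal_le_ofReal_iff ?_).1 h5
    exact mul_nonneg (NNReal.coe_nonneg C) (integral_nonneg (pin_self_nonneg a.1))
  have h6 : ‖pullC h a‖ ^ 2 ≤ M * C * ‖a‖ ^ 2 := by
    rw [norm_sq_eq, norm_sq_eq]
    show ∫ x, pin (pull s a.1) (pull s a.1) x ∂(vol E X) ≤ M * C * ∫ x, pin a.1 a.1 x ∂(vol E X)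
    refine (integral_mono (integrable_pin (pullC h a).2 (pullC h a).2) (hints.const_mul M)
      h1).trans ?_
    rw [integral_const_mul, mul_assoc]
    exact mul_le_mul_of_nonneg_left h4 hM0
  have h7 : ‖pullC h a‖ ^ 2 ≤ (Real.sqrt (M * C) * ‖a‖) ^ 2 := by
    rw [mul_pow, Real.sq_sqrt (mul_nonneg hM0 (NNReal.coe_nonneg C))]
    exact h6
  exact abs_le_of_sq_le_sq' h7 (by positivity) |>.2

theorem dC_pullC {s : X → X} (h : IsRefl E s) (a : OmC E X p) :
    dC (pullC h a) = pullC h (dC a) := Subtype.ext (extD_pull a.2.1 h.smooth)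

theorem pullC_pullC_self {s : X → X} (h : IsRefl E s) (a : OmC E X p) :
    pullC h (pullC h a) = a := by
  refine Subtype.ext ?_
  show pull s (pull s a.1) = a.1
  rw [pull_pull h.smooth h.smooth]
  have h1 : s ∘ s = id := funext h.invol
  rw [h1, pull_id]

theorem pullC_comm {s t : X → X} (h : IsRefl E s) (h' : IsRefl E t)
    (hc : ∀ x, s (t x) = t (s x)) (a : OmC E X p) :
    pullC h (pullC h' a) = pullC h' (pullC h a) := by
  refine Subtype.ext ?_
  show pull s (pull t a.1) = pull t (pull s a.1)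
  rw [pull_pull h.smooth h'.smooth, pull_pull h'.smooth h.smooth]
  have h1 : s ∘ t = t ∘ s := funext hc
  rw [h1]

theorem pullC_mulC {s : X → X} (h : IsRefl E s) {f f' : X → ℝ}
    (hf : ContMDiff 𝓘(ℝ, E) 𝓘(ℝ, ℝ) ∞ f) (hf' : ContMDiff 𝓘(ℝ, E) 𝓘(ℝ, ℝ) ∞ f')
    (hff : ∀ x, f' x = f (s x)) (a : OmC E X p) :
    pullC h (mulC f hf a) = mulC f' hf' (pullC h a) := by
  refine Subtype.ext ?_
  funext x
  ext v
  show f (s x) * _ = f' x * _
  rw [hff x]
  rfl

theorem norm_coeL_pullC_le {s : X → X} (h : IsRefl E s) (p : ℕ) :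
    ∃ C : ℝ, ∀ a : OmC E X p, ‖(coeL.comp (pullC h) : OmC E X p →ₗ[ℝ] L2F E X p) a‖ ≤ C * ‖a‖ := by
  obtain ⟨C, hC⟩ := norm_pullC_le h p
  refine ⟨C, fun a => ?_⟩
  show ‖((pullC h a : OmC E X p) : L2F E X p)‖ ≤ C * ‖a‖
  rw [norm_coe]
  exact hC a

/-- pull-back on `L²Ω^p(X)`. -/
def SC {s : X → X} (h : IsRefl E s) (p : ℕ) : L2F E X p →L[ℝ] L2F E X p :=
  extC (coeL.comp (pullC h)) (norm_coeL_pullC_le h p)

theorem SC_coe {s : X → X} (h : IsRefl E s) (a : OmC E X p) :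
    SC h p (a : L2F E X p) = (pullC h a : L2F E X p) := extC_coe _ _ _

theorem SC_SC_self {s : X → X} (h : IsRefl E s) (a : L2F E X p) : SC h p (SC h p a) = a := by
  have h1 := L2F_ext (f := fun a : L2F E X p => SC h p (SC h p a)) (g := fun a => a)
    ((SC h p).continuous.comp (SC h p).continuous) continuous_id (fun a => by
      show SC h p (SC h p (a : L2F E X p)) = a
      rw [SC_coe, SC_coe, pullC_pullC_self])
  exact congrFun h1 a

theorem SC_comm {s t : X → X} (h : IsRefl E s) (h' : IsRefl E t)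
    (hc : ∀ x, s (t x) = t (s x)) (a : L2F E X p) : SC h p (SC h' p a) = SC h' p (SC h p a) := by
  have h1 := L2F_ext (f := fun a : L2F E X p => SC h p (SC h' p a))
    (g := fun a => SC h' p (SC h p a))
    ((SC h p).continuous.comp (SC h' p).continuous)
    ((SC h' p).continuous.comp (SC h p).continuous) (fun a => by
      show SC h p (SC h' p (a : L2F E X p)) = SC h' p (SC h p (a : L2F E X p))
      rw [SC_coe, SC_coe, SC_coe, SC_coe, pullC_comm h h' hc])
  exact congrFun h1 a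

theorem SC_DD {s : X → X} (h : IsRefl E s) {a : L2F E X p} {b : L2F E X (p + 1)}
    (hab : (a, b) ∈ DD E X p) : (SC h p a, SC h (p + 1) b) ∈ DD E X p := by
  refine DD_map hab (SC h p) (SC h (p + 1)) fun c => ?_
  rw [SC_coe, SC_coe, ← dC_pullC]
  exact DD_coe _

end Pool.Agent.ZSp
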