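import Pool.Agent.Work.MP_058ed1_gt.C.Loc
import Pool.Agent.Work.MP_058ed1_gt.C.PullV
import Pool.Agent.Work.MP_058ed1_gt.C.PullB

/-!
# Corner theorem, module PUSH: forms on the cube as forms on `X`
-/

open scoped Manifold ContDiff Topology Bundle ENNReal NNReal
open Set MeasureTheory Bundle Filter

set_option linter.unusedSectionVars false

noncomputable section

namespace Pool.Agent.ZSp


section pushX

variable {E : Type*} [NormedAddCommGroup E] [InnerProductSpace ℝ E] [FiniteDimensional ℝ E]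
  {X : Type*} [TopologicalSpace X] [ChartedSpace E X] [IsManifold 𝓘(ℝ, E) ∞ X]
  {W : Type*} [NormedAddCommGroup W] [NormedSpace ℝ W] {q : ℕ}

/-- the pull-back of a form on a vector space by `Θ : X → W`. -/
def pushX (Θ : X → W) (om : W → W [⋀^Fin q]→L[ℝ] ℝ) : PForm E X q := fun x =>
  (om (Θ x)).compContinuousLinearMap (mfderiv 𝓘(ℝ, E) 𝓘(ℝ, W) Θ x)

theorem fderiv_comp_ch {Θ : X → W} {x₀ : X} {y : E} (hy : y ∈ (ch E x₀).target)
    (hg : MDifferentiableAt 𝓘(ℝ, E) 𝓘(ℝ, W) Θ ((ch E x₀).symm y)) (v : E) :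
    fderiv ℝ (fun z => Θ ((ch E x₀).symm z)) y v =
      mfderiv 𝓘(ℝ, E) 𝓘(ℝ, W) Θ ((ch E x₀).symm y)
        (mfderiv 𝓘(ℝ, E) 𝓘(ℝ, E) (ch E x₀).symm y v) := by
  have h1 : HasMFDerivAt 𝓘(ℝ, E) 𝓘(ℝ, W) (fun z => Θ ((ch E x₀).symm z)) y
      ((mfderiv 𝓘(ℝ, E) 𝓘(ℝ, W) Θ ((ch E x₀).symm y)).comp
        (mfderiv 𝓘(ℝ, E) 𝓘(ℝ, E) (ch E x₀).symm y)) :=
    HasMFDerivAt.comp y hg.hasMFDerivAt (mdiff_ch_symm hy).hasMFDerivAt
  rw [← mfderiv_eq_fderiv, h1.mfderiv]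
  rfl

theorem contDiffAt_comp_ch {Θ : X → W} (hΘ : ContMDiff 𝓘(ℝ, E) 𝓘(ℝ, W) ∞ Θ) {x₀ : X} {y : E}
    (hy : y ∈ (ch E x₀).target) : ContDiffAt ℝ ∞ (fun z => Θ ((ch E x₀).symm z)) y := by
  have h1 : ContMDiffAt 𝓘(ℝ, E) 𝓘(ℝ, E) ∞ (ch E x₀).symm y :=
    (contMDiffOn_extChartAt_symm x₀).contMDiffAt (ch_target_nhds hy)
  have h3 : ContMDiffAt 𝓘(ℝ, E) 𝓘(ℝ, W) ∞ (fun z => Θ ((ch E x₀).symm z)) y :=
    (hΘ _).comp y h1
  exact h3.contDiffAt

theorem inChart_pushX {Θ : X → W} (hΘ : ContMDiff 𝓘(ℝ, E) 𝓘(ℝ, W) ∞ Θ)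
    (om : W → W [⋀^Fin q]→L[ℝ] ℝ) {x₀ : X} {y : E} (hy : y ∈ (ch E x₀).target) :
    inChart (pushX Θ om) x₀ y =
      (om (Θ ((ch E x₀).symm y))).compContinuousLinearMap
        (fderiv ℝ (fun z => Θ ((ch E x₀).symm z)) y) := by
  ext v
  change om _ _ = om _ _
  congr 1
  funext i
  exact (fderiv_comp_ch hy ((hΘ _).mdifferentiableAt (by simp)) (v i)).symm

theorem smoothForm_pushX {Θ : X → W} (hΘ : ContMDiff 𝓘(ℝ, E) 𝓘(ℝ, W) ∞ Θ)
    {om : W → W [⋀^Fin q]→L[ℝ] ℝ} (hom : ContDiff ℝ ∞ om) :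
    SmoothForm (pushX Θ om : PForm E X q) := by
  intro x₀ y hy
  have hT : ContDiffAt ℝ ∞ (fun z => Θ ((ch E x₀).symm z)) y := contDiffAt_comp_ch hΘ hy
  have h2 : ContDiffAt ℝ ∞ (fun z => om (Θ ((ch E x₀).symm z))) y :=
    hom.contDiffAt.comp y hT
  have h3 : ContDiffAt ℝ ∞ (fderiv ℝ (fun z => Θ ((ch E x₀).symm z))) y :=
    hT.fderiv_right (by simp)
  refine ((contDiffAt_altCompV h2 h3).congr_of_eventuallyEq ?_).contDiffWithinAt
  filter_upwards [ch_target_nhds hy] with z hz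
  exact inChart_pushX hΘ om hz

theorem extD_pushX {Θ : X → W} (hΘ : ContMDiff 𝓘(ℝ, E) 𝓘(ℝ, W) ∞ Θ)
    {om : W → W [⋀^Fin q]→L[ℝ] ℝ} (hom : ContDiff ℝ ∞ om) :
    extD (pushX Θ om : PForm E X q) = pushX Θ (extDeriv om) := by
  funext x
  have hx := ch_self_mem_target (E := E) x
  have h0 : (ch E x).symm (ch E x x) = x := extChartAt_to_inv x
  have h1 : inChart (pushX Θ om) x =ᶠ[𝓝 (ch E x x)] fun z =>
      (om (Θ ((ch E x).symm z))).compContinuousLinearMap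
        (fderiv ℝ (fun z => Θ ((ch E x).symm z)) z) := by
    filter_upwards [ch_target_nhds hx] with z hz
    exact inChart_pushX hΘ om hz
  have hd : DifferentiableAt ℝ om (Θ ((ch E x).symm (ch E x x))) :=
    (hom.differentiable (by simp)) _
  have h2 := extDeriv_pullback (f := fun z => Θ ((ch E x).symm z)) (x := ch E x x)
    (r := ∞) hd (contDiffAt_comp_ch hΘ hx) two_le_infty
  rw [extD, h1.extDeriv_eq, h2, h0]
  ext v
  change (extDeriv om (Θ x)) _ = (extDeriv om (Θ x)) _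
  congr 1
  funext i
  have h3 := fderiv_comp_ch (Θ := Θ) hx ((hΘ _).mdifferentiableAt (by simp))
    (mfderiv 𝓘(ℝ, E) 𝓘(ℝ, E) (ch E x) x (v i))
  have h4 := mfderiv_ch_symm_comp (mem_extChartAt_source (I := 𝓘(ℝ, E)) x) (v i)
  refine h3.trans ?_
  have h5 : ∀ (z : X) (hz : z = x) (u : E), u = v i →
      (mfderiv 𝓘(ℝ, E) 𝓘(ℝ, W) Θ z u : W) = mfderiv 𝓘(ℝ, E) 𝓘(ℝ, W) Θ x (v i) := by
    intro z hz u hu
    subst hz
    rw [hu]
  exact h5 _ h0 _ h4

end pushX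

variable {E : Type*} [NormedAddCommGroup E] [InnerProductSpace ℝ E] [FiniteDimensional ℝ E]
  {X : Type*} [EMetricSpace X] [ChartedSpace E X]
  [IsManifold 𝓘(ℝ, E) ∞ X] [RiemannianBundle (fun x : X => TangentSpace 𝓘(ℝ, E) x)]
  [IsContMDiffRiemannianBundle 𝓘(ℝ, E) ∞ E (fun x : X => TangentSpace 𝓘(ℝ, E) x)]
  [IsRiemannianManifold 𝓘(ℝ, E) X] [MeasurableSpace X] [BorelSpace X] {p : ℕ}

open Classical in
/-- `τ^*om` on `U`, `0` elsewhere. -/
def push {n q : ℕ} (τ : Fin n → X → ℝ) (U : Set X)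
    (om : (Fin n → ℝ) → (Fin n → ℝ) [⋀^Fin q]→L[ℝ] ℝ) : PForm E X q := fun x =>
  if x ∈ U then (om (fun l => τ l x)).compContinuousLinearMap
    (mfderiv 𝓘(ℝ, E) 𝓘(ℝ, Fin n → ℝ) (fun y l => τ l y) x) else 0

variable {n q : ℕ} {s : Fin n → X → X} {τ : Fin n → X → ℝ} {v : X} {r : ℝ}
  {γ : (Fin n → ℝ) → X}

/-- `om` is smooth and vanishes for `‖x‖ ≥ r'`, for some `r' < r`. -/
def CubeForm (r : ℝ) (om : (Fin n → ℝ) → (Fin n → ℝ) [⋀^Fin q]→L[ℝ] ℝ) : Prop :=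
  ContDiff ℝ ∞ om ∧ ∃ r' < r, ∀ x, r' ≤ ‖x‖ → om x = 0

theorem CubeForm.extDeriv {om : (Fin n → ℝ) → (Fin n → ℝ) [⋀^Fin q]→L[ℝ] ℝ}
    (hom : CubeForm r om) : CubeForm r (extDeriv om) := by
  obtain ⟨hs, r', hr', h0⟩ := hom
  refine ⟨?_, (r' + r) / 2, by linarith, fun x hx => ?_⟩
  · exact (ContinuousAlternatingMap.alternatizeUncurryFinCLM ℝ (Fin n → ℝ) ℝ).contDiff.comp
      (hs.fderiv_right (m := ∞) (by simp))
  · have h1 : om =ᶠ[𝓝 x] fun _ => 0 := by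
      have h2 : ∀ᶠ y in 𝓝 x, r' < ‖y‖ :=
        (continuous_norm.tendsto x).eventually (lt_mem_nhds (by linarith))
      filter_upwards [h2] with y hy
      exact h0 y hy.le
    rw [h1.extDeriv_eq]
    have h3 : _root_.extDeriv (fun _ : Fin n → ℝ => (0 : (Fin n → ℝ) [⋀^Fin q]→L[ℝ] ℝ)) x = 0 := by
      have h4 : (fun _ : Fin n → ℝ => (0 : (Fin n → ℝ) [⋀^Fin q]→L[ℝ] ℝ)) =
          (0 : ℝ) • (fun _ : Fin n → ℝ => (0 : (Fin n → ℝ) [⋀^Fin q]→L[ℝ] ℝ)) := by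
        funext y
        simp
      rw [h4, extDeriv_smul, zero_smul]
    exact h3

theorem Corner.smooth_tau (h : Corner E s τ v) :
    ContMDiff 𝓘(ℝ, E) 𝓘(ℝ, Fin n → ℝ) ∞ (fun y l => τ l y) :=
  contMDiff_pi_space.2 fun l => h.smooth_τ l

open Classical in
theorem push_eq_of_mem (U : Set X) (om : (Fin n → ℝ) → (Fin n → ℝ) [⋀^Fin q]→L[ℝ] ℝ) {x : X}
    (hx : x ∈ U) : (push τ U om : PForm E X q) x = pushX (fun y l => τ l y) om x := by
  unfold push pushX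
  rw [if_pos hx]

open Classical in
theorem push_eq_of_not_mem (U : Set X) (om : (Fin n → ℝ) → (Fin n → ℝ) [⋀^Fin q]→L[ℝ] ℝ) {x : X}
    (hx : x ∉ U) : (push τ U om : PForm E X q) x = 0 := by
  unfold push
  rw [if_neg hx]

/-- `τ` is a left inverse of `γ`. -/
theorem LocCoord.tau_gamma (L : LocCoord E s τ r γ) {x : Fin n → ℝ}
    (hx : x ∈ Metric.ball (0 : Fin n → ℝ) r) : (fun l => τ l (γ x)) = x :=
  funext fun l => L.right_inv x hx l

/-- the support of the push-forward. -/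
theorem push_support (L : LocCoord E s τ r γ)
    {om : (Fin n → ℝ) → (Fin n → ℝ) [⋀^Fin q]→L[ℝ] ℝ} {r' : ℝ}
    (h0 : ∀ x, r' ≤ ‖x‖ → om x = 0) {x : X} (hx : x ∉ γ '' Metric.closedBall 0 r') :
    (push τ (γ '' Metric.ball 0 r) om : PForm E X q) x = 0 := by
  by_cases hU : x ∈ γ '' Metric.ball 0 r
  · obtain ⟨y, hy, rfl⟩ := hU
    rw [push_eq_of_mem _ _ (mem_image_of_mem γ hy)]
    have h1 : om (fun l => τ l (γ y)) = 0 := by
      rw [L.tau_gamma hy]
      apply h0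
      by_contra hlt
      push Not at hlt
      exact hx ⟨y, by rw [mem_closedBall_zero_iff]; exact hlt.le, rfl⟩
    show (om (fun l => τ l (γ y))).compContinuousLinearMap _ = 0
    rw [h1]
    ext w
    rfl
  · exact push_eq_of_not_mem _ _ hU

theorem LocCoord.isCompact_image (L : LocCoord E s τ r γ) {r' : ℝ} (hr' : r' < r) :
    IsCompact (γ '' Metric.closedBall 0 r') :=
  (isCompact_closedBall _ _).image_of_continuousOn
    (L.smooth.continuousOn.mono (Metric.closedBall_subset_ball hr'))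

/-- near every point the push-forward is the pull-back by `τ`, or zero. -/
theorem push_local (L : LocCoord E s τ r γ)
    {om : (Fin n → ℝ) → (Fin n → ℝ) [⋀^Fin q]→L[ℝ] ℝ} (hom : CubeForm r om) (x : X) :
    (∀ᶠ y in 𝓝 x, y ∈ γ '' Metric.ball 0 r ∧
      (push τ (γ '' Metric.ball 0 r) om : PForm E X q) y = pushX (fun y l => τ l y) om y) ∨
    (x ∉ γ '' Metric.ball 0 r ∧
      ∀ᶠ y in 𝓝 x, (push τ (γ '' Metric.ball 0 r) om : PForm E X q) y = 0) := by
  obtain ⟨hs, r', hr', h0⟩ := hom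
  by_cases hU : x ∈ γ '' Metric.ball 0 r
  · left
    filter_upwards [L.image_open.mem_nhds hU] with y hy
    exact ⟨hy, push_eq_of_mem _ _ hy⟩
  · right
    refine ⟨hU, ?_⟩
    have h1 : x ∉ γ '' Metric.closedBall 0 r' := fun h =>
      hU (image_mono (Metric.closedBall_subset_ball hr') h)
    filter_upwards [(L.isCompact_image hr').isClosed.isOpen_compl.mem_nhds h1] with y hy
    exact push_support L h0 hy

theorem push_mem (h : Corner E s τ v) (L : LocCoord E s τ r γ)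
    {om : (Fin n → ℝ) → (Fin n → ℝ) [⋀^Fin q]→L[ℝ] ℝ} (hom : CubeForm r om) :
    (push τ (γ '' Metric.ball 0 r) om : PForm E X q) ∈ OmegaC E X q := by
  refine ⟨?_, ?_⟩
  · intro x₀ y hy
    refine ContDiffAt.contDiffWithinAt ?_
    have hc : ContinuousAt (ch E x₀).symm y := continuousAt_ch_symm hy
    rcases push_local L hom ((ch E x₀).symm y) with h1 | ⟨-, h1⟩
    · refine ((smoothForm_pushX h.smooth_tau hom.1).contDiffAt hy).congr_of_eventuallyEq ?_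
      filter_upwards [hc.eventually h1] with z hz
      unfold inChart
      rw [hz.2]
    · refine (contDiffAt_const (c := (0 : E [⋀^Fin q]→L[ℝ] ℝ))).congr_of_eventuallyEq ?_
      filter_upwards [hc.eventually h1] with z hz
      unfold inChart
      rw [hz]
      ext w
      rfl
  · obtain ⟨hs, r', hr', h0⟩ := hom
    have hK := L.isCompact_image hr'
    refine hK.of_isClosed_subset isClosed_closure (closure_minimal ?_ hK.isClosed)
    intro x hx
    by_contra hcon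
    exact hx (push_support L h0 hcon)

theorem extD_push (h : Corner E s τ v) (L : LocCoord E s τ r γ)
    {om : (Fin n → ℝ) → (Fin n → ℝ) [⋀^Fin q]→L[ℝ] ℝ} (hom : CubeForm r om) :
    extD (push τ (γ '' Metric.ball 0 r) om : PForm E X q) =
      push τ (γ '' Metric.ball 0 r) (_root_.extDeriv om) := by
  funext x
  rcases push_local L hom x with h1 | ⟨hx, h1⟩
  · rw [extD_congr (h1.mono fun y hy => hy.2), extD_pushX h.smooth_tau hom.1,
      push_eq_of_mem _ _ h1.self_of_nhds.1]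
  · have h2 : extD (push τ (γ '' Metric.ball 0 r) om : PForm E X q) x =
        extD (0 : PForm E X q) x := extD_congr (h1.mono fun y hy => by rw [hy]; rfl)
    rw [h2, extD_zero, push_eq_of_not_mem _ _ hx]
    rfl

theorem pullV_push (h : Corner E s τ v) (L : LocCoord E s τ r γ)
    {om : (Fin n → ℝ) → (Fin n → ℝ) [⋀^Fin q]→L[ℝ] ℝ} {x : Fin n → ℝ}
    (hx : x ∈ Metric.ball (0 : Fin n → ℝ) r) :
    pullV γ (push τ (γ '' Metric.ball 0 r) om : PForm E X q) x = om x := by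
  have h1 : γ x ∈ γ '' Metric.ball 0 r := mem_image_of_mem γ hx
  have hg : HasMFDerivAt 𝓘(ℝ, Fin n → ℝ) 𝓘(ℝ, E) γ x (mfderiv 𝓘(ℝ, Fin n → ℝ) 𝓘(ℝ, E) γ x) :=
    ((L.smooth.contMDiffAt (Metric.isOpen_ball.mem_nhds hx)).mdifferentiableAt
      (by simp)).hasMFDerivAt
  have ht : HasMFDerivAt 𝓘(ℝ, E) 𝓘(ℝ, Fin n → ℝ) (fun y l => τ l y) (γ x)
      (mfderiv 𝓘(ℝ, E) 𝓘(ℝ, Fin n → ℝ) (fun y l => τ l y) (γ x)) :=
    ((h.smooth_tau _).mdifferentiableAt (by simp)).hasMFDerivAt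
  have h2 := HasMFDerivAt.comp x ht hg
  have h3 : HasMFDerivAt 𝓘(ℝ, Fin n → ℝ) 𝓘(ℝ, Fin n → ℝ)
      ((fun y l => τ l y) ∘ γ) x (ContinuousLinearMap.id ℝ (Fin n → ℝ)) := by
    have h4 : HasMFDerivAt 𝓘(ℝ, Fin n → ℝ) 𝓘(ℝ, Fin n → ℝ) (id : (Fin n → ℝ) → (Fin n → ℝ)) x
        (ContinuousLinearMap.id ℝ (Fin n → ℝ)) := (hasFDerivAt_id x).hasMFDerivAt
    refine h4.congr_of_eventuallyEq ?_
    filter_upwards [Metric.isOpen_ball.mem_nhds hx] with z hz
    exact L.tau_gamma hz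
  have h5 := hasMFDerivAt_unique h2 h3
  ext w
  change (push τ (γ '' Metric.ball 0 r) om : PForm E X q) (γ x) _ = _
  rw [push_eq_of_mem _ _ h1]
  change om (fun l => τ l (γ x)) _ = om x w
  rw [L.tau_gamma hx]
  congr 1
  funext i
  exact DFunLike.congr_fun h5 (w i)

theorem pull_push (h : Corner E s τ v) (L : LocCoord E s τ r γ)
    {om : (Fin n → ℝ) → (Fin n → ℝ) [⋀^Fin q]→L[ℝ] ℝ} (k : Fin n) :
    pull (s k) (push τ (γ '' Metric.ball 0 r) om : PForm E X q) =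
      push τ (γ '' Metric.ball 0 r)
        (fun x => (om (flipL k x)).compContinuousLinearMap (flipL k)) := by
  have hball : ∀ y ∈ Metric.ball (0 : Fin n → ℝ) r, flipL k y ∈ Metric.ball (0 : Fin n → ℝ) r := by
    intro y hy
    rw [mem_ball_zero_iff] at hy ⊢
    refine lt_of_le_of_lt ((pi_norm_le_iff_of_nonneg (norm_nonneg y)).2 fun l => ?_) hy
    rw [flipL_apply]
    split_ifs
    · rw [norm_neg]; exact norm_le_pi_norm y l
    · exact norm_le_pi_norm y l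
  have hsU : ∀ x ∈ γ '' Metric.ball 0 r, s k x ∈ γ '' Metric.ball 0 r := by
    rintro _ ⟨y, hy, rfl⟩
    exact ⟨flipL k y, hball y hy, (L.flip y hy k).symm⟩
  have hτ : ∀ x : X, (fun l => τ l (s k x)) = flipL k (fun l => τ l x) := by
    intro x
    funext l
    rw [flipL_apply]
    split_ifs with hl
    · subst hl; exact h.odd l x
    · exact h.even l k x hl
  funext x
  by_cases hU : x ∈ γ '' Metric.ball 0 r
  · have ht : ∀ z : X, HasMFDerivAt 𝓘(ℝ, E) 𝓘(ℝ, Fin n → ℝ) (fun y l => τ l y) z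
        (mfderiv 𝓘(ℝ, E) 𝓘(ℝ, Fin n → ℝ) (fun y l => τ l y) z) := fun z =>
      ((h.smooth_tau _).mdifferentiableAt (by simp)).hasMFDerivAt
    have hk : HasMFDerivAt 𝓘(ℝ, E) 𝓘(ℝ, E) (s k) x (mfderiv 𝓘(ℝ, E) 𝓘(ℝ, E) (s k) x) :=
      ((h.smooth_s k _).mdifferentiableAt (by simp)).hasMFDerivAt
    have h1 := HasMFDerivAt.comp x (ht (s k x)) hk
    have hfl : HasMFDerivAt 𝓘(ℝ, Fin n → ℝ) 𝓘(ℝ, Fin n → ℝ) (flipL k) ((fun y l => τ l y) x)
        (flipL k) := (flipL k).hasFDerivAt.hasMFDerivAt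
    have h2 := HasMFDerivAt.comp x hfl (ht x)
    have h3 : ((fun y l => τ l y) ∘ s k) = (flipL k ∘ fun (y : X) l => τ l y) := by
      funext z
      exact hτ z
    rw [h3] at h1
    have h4 := hasMFDerivAt_unique h1 h2
    ext w
    change (push τ (γ '' Metric.ball 0 r) om : PForm E X q) (s k x) _ = _
    rw [push_eq_of_mem _ _ (hsU x hU), push_eq_of_mem _ _ hU]
    change om (fun l => τ l (s k x)) _ = om (flipL k (fun l => τ l x)) _
    rw [hτ]
    congr 1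
    funext i
    exact DFunLike.congr_fun h4 (w i)
  · have hU' : s k x ∉ γ '' Metric.ball 0 r := fun h1 => by
      have h2 := hsU _ h1
      rw [h.invol] at h2
      exact hU h2
    rw [push_eq_of_not_mem _ _ hU]
    ext w
    change (push τ (γ '' Metric.ball 0 r) om : PForm E X q) (s k x) _ = _
    rw [push_eq_of_not_mem _ _ hU']
    rfl

theorem push_smul (τ : Fin n → X → ℝ) (U : Set X)
    (om : (Fin n → ℝ) → (Fin n → ℝ) [⋀^Fin q]→L[ℝ] ℝ) (c : ℝ) :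
    (push τ U (fun x => c • om x) : PForm E X q) = c • push τ U om := by
  classical
  funext x
  show (push τ U (fun x => c • om x) : PForm E X q) x = c • (push τ U om : PForm E X q) x
  unfold push
  split_ifs
  · ext w
    rfl
  · rw [smul_zero]

theorem push_sum {ι : Type*} (t : Finset ι) (τ : Fin n → X → ℝ) (U : Set X)
    (om : ι → (Fin n → ℝ) → (Fin n → ℝ) [⋀^Fin q]→L[ℝ] ℝ) :
    (push τ U (fun x => ∑ j ∈ t, om j x) : PForm E X q) = ∑ j ∈ t, push τ U (om j) := by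
  classical
  funext x
  rw [Finset.sum_apply]
  unfold push
  split_ifs
  · ext w
    rw [ContinuousAlternatingMap.compContinuousLinearMap_apply, ContinuousAlternatingMap.sum_apply,
      ContinuousAlternatingMap.sum_apply]
    rfl
  · rw [Finset.sum_const_zero]

/-- multiplication by a function of `τ_j`. -/
theorem fmul_push (τ : Fin n → X → ℝ) (U : Set X)
    (om : (Fin n → ℝ) → (Fin n → ℝ) [⋀^Fin q]→L[ℝ] ℝ) (j : Fin n) (f : ℝ → ℝ) :
    fmul (fun x => f (τ j x)) (push τ U om : PForm E X q) = push τ U (fun x => f (x j) • om x) := by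
  classical
  funext x
  show f (τ j x) • (push τ U om : PForm E X q) x = (push τ U (fun x => f (x j) • om x) : PForm E X q) x
  unfold push
  split_ifs
  · ext w
    rfl
  · rw [smul_zero]

end Pool.Agent.ZSp
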