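import Pool.Agent.Work.MP_058ed1_gt.C.Alg
import Pool.Agent.Work.MP_058ed1_gt.C.Ex
import Pool.Agent.Work.MP_058ed1_gt.C.Est
import Pool.Agent.Work.MP_058ed1_gt.C.Push
import Pool.Agent.Work.MP_058ed1_gt.C.Fun
import Pool.Agent.Work.MP_058ed1_gt.D.Zero

/-!
# Corner theorem: assembly
-/

open scoped Manifold ContDiff Topology Bundle ENNReal NNReal
open Set MeasureTheory Bundle Filter

set_option linter.unusedSectionVars false

noncomputable section

namespace Pool.Agent.ZSp

variable {E : Type*} [NormedAddCommGroup E] [InnerProductSpace ℝ E] [FiniteDimensional ℝ E]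
  {X : Type*} [EMetricSpace X] [ChartedSpace E X]
  [IsManifold 𝓘(ℝ, E) ∞ X] [RiemannianBundle (fun x : X => TangentSpace 𝓘(ℝ, E) x)]
  [IsContMDiffRiemannianBundle 𝓘(ℝ, E) ∞ E (fun x : X => TangentSpace 𝓘(ℝ, E) x)]
  [IsRiemannianManifold 𝓘(ℝ, E) X] [MeasurableSpace X] [BorelSpace X]
  {n q : ℕ} {s : Fin n → X → X} {τ : Fin n → X → ℝ} {v : X} {r : ℝ}
  {γ : (Fin n → ℝ) → X} {a b : ℝ → ℝ}

theorem Corner.isRefl (h : Corner E s τ v) (i : Fin n) : IsRefl E (s i) := by
  obtain ⟨L, hL⟩ := h.bdd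
  exact ⟨h.smooth_s i, h.invol i, L, hL i⟩

theorem cubeForm_omg (hab : BumpPair r a b) (i : Fin q → Fin n) : CubeForm r (omg a b i) := by
  obtain ⟨r', h0, h1, h2⟩ := cG_cW_supp hab n
  refine ⟨omg_contDiff hab i, r', h1, fun x hx => ?_⟩
  unfold omg
  rw [(h2 q i x hx).1, zero_smul]

/-- the cochain `g_q(i)`. -/
def gC (h : Corner E s τ v) (L : LocCoord E s τ r γ) (hab : BumpPair r a b) (i : Fin q → Fin n) :
    OmC E X q :=
  ⟨push τ (γ '' Metric.ball 0 r) (omg a b i), push_mem h L (cubeForm_omg hab i)⟩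

theorem gC_val (h : Corner E s τ v) (L : LocCoord E s τ r γ) (hab : BumpPair r a b)
    (i : Fin q → Fin n) : (gC h L hab i).1 = push τ (γ '' Metric.ball 0 r) (omg a b i) := rfl

theorem gC_perm (h : Corner E s τ v) (L : LocCoord E s τ r γ) (hab : BumpPair r a b)
    (σ : Equiv.Perm (Fin q)) (i : Fin q → Fin n) :
    gC h L hab (i ∘ σ) = ((Equiv.Perm.sign σ : ℤ) : ℝ) • gC h L hab i := by
  apply Subtype.ext
  show push τ (γ '' Metric.ball 0 r) (omg a b (i ∘ σ)) =
    ((Equiv.Perm.sign σ : ℤ) : ℝ) • push τ (γ '' Metric.ball 0 r) (omg a b i)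
  rw [← push_smul]
  congr 1
  funext x
  exact omg_perm σ i x

open Classical in
theorem gC_flip (h : Corner E s τ v) (L : LocCoord E s τ r γ) (hab : BumpPair r a b)
    (k : Fin n) (i : Fin q → Fin n) :
    pullC (h.isRefl k) (gC h L hab i) =
      (if k ∈ Set.range i then (-1 : ℝ) else 1) • gC h L hab i := by
  apply Subtype.ext
  show pull (s k) (push τ (γ '' Metric.ball 0 r) (omg a b i)) =
    (if k ∈ Set.range i then (-1 : ℝ) else 1) • push τ (γ '' Metric.ball 0 r) (omg a b i)
  rw [pull_push h L k, ← push_smul]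
  congr 1
  funext x
  exact omg_flip hab k i x

/-- the form `sign(x_j) ω_{(j,i)}` on the cube. -/
theorem cubeForm_sign (hab : BumpPair r a b) (j : Fin n) (i : Fin q → Fin n) :
    ∃ k₀ : ℕ, ∀ k ≥ k₀, (fun x : Fin n → ℝ => stp (k * x j) •
      omg a b (Fin.cons j i : Fin (q + 1) → Fin n) x) = fun x => Real.sign (x j) •
      omg a b (Fin.cons j i : Fin (q + 1) → Fin n) x := by
  obtain ⟨r₁, h0, h1⟩ := omg_cons_zero (n := n) hab
  obtain ⟨k₀, hk₀⟩ := exists_nat_gt (1 / r₁)
  refine ⟨k₀, fun k hk => ?_⟩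
  funext x
  rcases le_or_gt |x j| r₁ with hx | hx
  · rw [h1 q i j x hx, smul_zero, smul_zero]
  · congr 1
    have hk1 : 1 / r₁ < k := hk₀.trans_le (by exact_mod_cast hk)
    have hk2 : 1 < k * r₁ := by
      rw [div_lt_iff₀ h0] at hk1
      exact hk1
    have hk3 : (0 : ℝ) ≤ k := by positivity
    rcases lt_trichotomy (x j) 0 with h | h | h
    · rw [Real.sign_of_neg h]
      apply stp_of_le_neg_one
      rw [abs_of_neg h] at hx
      nlinarith
    · rw [h, abs_zero] at hx
      linarith
    · rw [Real.sign_of_pos h]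
      apply stp_of_one_le
      rw [abs_of_pos h] at hx
      nlinarith

theorem mulC_gC (h : Corner E s τ v) (L : LocCoord E s τ r γ) (hab : BumpPair r a b)
    (j : Fin n) (i : Fin q → Fin n) (k : ℕ) :
    (mulC (stpk (τ j) k) (stpk_smooth (h.smooth_τ j) k)
      (gC h L hab (Fin.cons j i : Fin (q + 1) → Fin n))).1 =
      push τ (γ '' Metric.ball 0 r) (fun x => stp (k * x j) •
        omg a b (Fin.cons j i : Fin (q + 1) → Fin n) x) :=
  fmul_push τ _ _ j (fun t => stp (k * t))

/-- the cochain `ε_j g_{(j,i)}` is smooth. -/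
theorem exists_egC (h : Corner E s τ v) (L : LocCoord E s τ r γ) (hab : BumpPair r a b)
    (j : Fin n) (i : Fin q → Fin n) : ∃ G : OmC E X (q + 1),
      G.1 = push τ (γ '' Metric.ball 0 r) (fun x => Real.sign (x j) •
        omg a b (Fin.cons j i : Fin (q + 1) → Fin n) x) ∧
      EC (h.smooth_τ j) (q + 1) (gC h L hab (Fin.cons j i : Fin (q + 1) → Fin n) :
        L2F E X (q + 1)) = (G : L2F E X (q + 1)) := by
  obtain ⟨k₀, hk₀⟩ := cubeForm_sign (n := n) hab j i
  refine ⟨mulC (stpk (τ j) k₀) (stpk_smooth (h.smooth_τ j) k₀)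
      (gC h L hab (Fin.cons j i : Fin (q + 1) → Fin n)), ?_, ?_⟩
  · rw [mulC_gC, hk₀ k₀ le_rfl]
  · apply EC_of_eventually
    filter_upwards [eventually_ge_atTop k₀] with k hk
    apply Subtype.ext
    rw [mulC_gC, mulC_gC, hk₀ k hk, hk₀ k₀ le_rfl]

theorem gC_DD (h : Corner E s τ v) (L : LocCoord E s τ r γ) (hab : BumpPair r a b)
    (i : Fin q → Fin n) : ((gC h L hab i : L2F E X q),
      ∑ j, EC (h.smooth_τ j) (q + 1) (gC h L hab (Fin.cons j i : Fin (q + 1) → Fin n) :
        L2F E X (q + 1))) ∈ DD E X q := by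
  choose G hG hG' using fun j => exists_egC h L hab j i
  have h1 : dC (gC h L hab i) = ∑ j, G j := by
    apply Subtype.ext
    have h2 : (∑ j, G j).1 = ∑ j, (G j).1 :=
      map_sum (OmegaC E X (q + 1)).subtype (fun j => (G j : OmegaC E X (q + 1))) Finset.univ
    rw [h2]
    show extD (gC h L hab i).1 = _
    rw [gC_val, extD_push h L (cubeForm_omg hab i)]
    have h3 : extDeriv (omg a b i) = fun x => ∑ j, Real.sign (x j) •
        omg a b (Fin.cons j i : Fin (q + 1) → Fin n) x := funext fun x => extDeriv_omg hab i x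
    rw [h3, push_sum]
    exact Finset.sum_congr rfl fun j _ => (hG j).symm
  have h2 : ∑ j, EC (h.smooth_τ j) (q + 1) (gC h L hab (Fin.cons j i : Fin (q + 1) → Fin n) :
        L2F E X (q + 1)) = (dC (gC h L hab i) : L2F E X (q + 1)) := by
    rw [h1]
    have h3 : ((∑ j, G j : OmC E X (q + 1)) : L2F E X (q + 1)) =
        ∑ j, (G j : L2F E X (q + 1)) := map_sum coeL G Finset.univ
    rw [h3]
    exact Finset.sum_congr rfl fun j _ => hG' j
  rw [h2]
  exact DD_coe _

theorem lamL_gC (h : Corner E s τ v) (L : LocCoord E s τ r γ) (hab : BumpPair r a b)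
    (i : Fin q → Fin n) : lamL L hab i (gC h L hab i : L2F E X q) =
      ∫ x, cW a b i x * omg a b i x (fun c => Pi.single (i c) 1) := by
  rw [lamL_coe, gC_val]
  unfold lamI
  obtain ⟨r', h0, h1, h2⟩ := cG_cW_supp hab n
  rw [setIntegral_congr_fun (g := fun x => cW a b i x * omg a b i x
    (fun c => Pi.single (i c) 1)) Metric.isOpen_ball.measurableSet]
  · apply setIntegral_eq_integral_of_forall_compl_eq_zero
    intro x hx
    have hx' : r' ≤ ‖x‖ := by
      rw [Metric.mem_ball, dist_zero_right, not_lt] at hx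
      linarith
    rw [(h2 q i x hx').2, zero_mul]
  · intro x hx
    show cW a b i x * _ = _
    rw [pullV_push h L hx]

/-- **the corner theorem.** -/
theorem Corner.exists_zeroInSpec (h : Corner E s τ v) (hn : Module.finrank ℝ E = n) :
    ∃ p ≤ n, ZeroInSpec E X p := by
  by_contra hcon
  push Not at hcon
  obtain ⟨r, γ, L⟩ := h.exists_locCoord hn
  obtain ⟨a, b, hab⟩ := exists_bumpPair L.r_pos
  let A : AlgData n (fun q => L2F E X q) :=
    { D := fun q => DD E X q
      S := fun i q => (SC (h.isRefl i) q : L2F E X q →L[ℝ] L2F E X q).toLinearMap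
      e := fun i q => (EC (h.smooth_τ i) q : L2F E X q →L[ℝ] L2F E X q).toLinearMap
      g := fun q i => (gC h L hab i : L2F E X q)
      lam := fun q i => (lamL L hab i : L2F E X q →L[ℝ] ℝ).toLinearMap
      exact0 := fun a ha => exact_zero_of_not_zeroInSpec (hcon 0 (Nat.zero_le n)) a ha
      exact1 := fun q a hq ha => exact_of_not_zeroInSpec (hcon (q + 1) hq) a ha
      S_invol := fun i q a => SC_SC_self (h.isRefl i) a
      S_comm := fun i j q a => SC_comm (h.isRefl i) (h.isRefl j) (h.comm i j) a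
      S_D := fun i q a b hab => SC_DD (h.isRefl i) hab
      e_comm := fun i j q a => EC_comm (h.smooth_τ i) (h.smooth_τ j) a
      Se_self := fun i q a => SC_EC_odd (h.smooth_τ i) (h.isRefl i) (h.odd i) a
      Se_ne := fun i j q a hij => SC_EC_even (h.smooth_τ j) (h.isRefl i)
        (fun x => h.even j i x hij.symm) a
      e_D := fun j q a b hab ha hb => EC_DD (h.isRefl j) (h.smooth_τ j) (h.fix j)
        (h.regular j) hab ha hb
      g_anti := by
        intro q σ i
        show ((gC h L hab (i ∘ σ) : OmC E X q) : L2F E X q) = _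
        rw [gC_perm]
        exact UniformSpace.Completion.coe_smul _ _
      g_odd := by
        intro q i k hk
        show SC (h.isRefl k) q (gC h L hab i : L2F E X q) = _
        rw [SC_coe, gC_flip, if_pos hk, neg_one_smul]
        exact UniformSpace.Completion.coe_neg _
      g_even := by
        intro q i k hk
        show SC (h.isRefl k) q (gC h L hab i : L2F E X q) = _
        rw [SC_coe, gC_flip, if_neg hk, one_smul]
      g_D := fun q i => gC_DD h L hab i
      stokes := fun q i hi x y hxy => lamL_stokes L hab h.smooth_τ hi hxy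
      total := by
        have h1 := total_omg hab n
        have h2 : ∀ (q : ℕ) (i : Fin q → Fin n),
            (lamL L hab i : L2F E X q →L[ℝ] ℝ).toLinearMap (gC h L hab i : L2F E X q) =
              ∫ x, cW a b i x * omg a b i x (fun c => Pi.single (i c) 1) :=
          fun q i => lamL_gC h L hab i
        simp only [h2]
        exact h1 }
  exact A.absurd

/-- **the corner theorem.** -/
theorem Corner.exists_zeroSpec (h : Corner E s τ v) (hn : Module.finrank ℝ E = n) :
    ∃ p ≤ n, ZeroSpec E X p := by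
  obtain ⟨p, hp, hz⟩ := h.exists_zeroInSpec hn
  exact ⟨p, hp, zeroSpec_of_zeroInSpec hz⟩

end Pool.Agent.ZSp
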